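import Pool.Agent.Lib.MP_72e2e6_nt.Sm.A.Spec1

/-!
# MP_72e2e6_nt, `Sm/A/Alt`: alternating sums over cubes
-/

namespace Pool.Agent.MP72S

open Finset

theorem tAlt : S_Alt := by
  intro P ι A _ _ x y U f g
  have h0 : mx x y ∅ = x := by
    funext i
    simp [mx]
  have hup : ∀ i w, mx (Function.update x i (y i)) y w = mx x y (insert i w) := by
    intro i w
    funext j
    simp only [mx, mem_insert]
    by_cases h1 : j ∈ w
    · simp [h1]
    · by_cases h2 : j = i
      · subst h2
        simp [h1]
      · simp [h1, h2]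
  have hmm : ∀ W w, mx (mx x y W) y w = mx x y (W ∪ w) := by
    intro W w
    funext j
    simp only [mx, mem_union]
    by_cases h1 : j ∈ w <;> by_cases h2 : j ∈ W <;> simp [h1, h2]
  refine ⟨h0, ?_, hup, hmm, ?_, ?_, ?_, ?_⟩
  · simp [alt, h0]
  · intro i hi
    rw [alt, Finset.sum_powerset_insert hi, alt, alt, sub_eq_add_neg, ← Finset.sum_neg_distrib]
    congr 1
    apply Finset.sum_congr rfl
    intro w hw
    have hiw : i ∉ w := fun h => hi (mem_powerset.1 hw h)
    rw [Finset.card_insert_of_notMem hiw, hup, pow_succ, mul_neg, mul_one, neg_smul]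
  · rw [alt, alt, alt, ← Finset.sum_add_distrib]
    exact Finset.sum_congr rfl fun w _ => smul_add _ _ _
  · intro n
    rw [alt, alt, Finset.smul_sum]
    exact Finset.sum_congr rfl fun w _ => smul_comm _ _ _
  · intro a hU
    rw [alt, ← Finset.sum_smul, Finset.sum_powerset_neg_one_pow_card_of_nonempty hU, zero_smul]

end Pool.Agent.MP72S
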