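import Pool.Agent.Lib.MP_72e2e6_nt.Sm.A.Spec2

/-!
# MP_72e2e6_nt, `Sm/A/Bas`: a basis of `V`, finiteness
-/

set_option autoImplicit false

namespace Pool.Agent.MP72S

open Finset

private theorem bas_fin {N : Type} [AddCommGroup N] (hV : {x : N | 2 • x = 0}.Finite) (k : ℕ) :
    {x : N | 2 ^ k • x = 0}.Finite := by
  induction k with
  | zero =>
    refine (Set.finite_singleton (0 : N)).subset fun x hx => ?_
    have hx' : 2 ^ 0 • x = 0 := hx
    rw [pow_zero, one_smul] at hx'
    exact hx'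
  | succ k ih =>
    have h1 : {x : N | 2 ^ (k + 1) • x = 0} = (fun x : N => 2 • x) ⁻¹' {x : N | 2 ^ k • x = 0} := by
      ext x
      change 2 ^ (k + 1) • x = 0 ↔ 2 ^ k • (2 • x) = 0
      rw [smul_smul, pow_succ]
    rw [h1]
    refine ih.preimage' fun b _ => ?_
    by_cases hb : ∃ x₀ : N, 2 • x₀ = b
    · obtain ⟨x₀, hx₀⟩ := hb
      refine (hV.image fun v => x₀ + v).subset fun x hx => ?_
      have hx' : 2 • x = b := hx
      refine ⟨x - x₀, ?_, by abel⟩
      change 2 • (x - x₀) = 0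
      rw [smul_sub, hx', hx₀, sub_self]
    · refine Set.finite_empty.subset fun x hx => ?_
      exact hb ⟨x, hx⟩

theorem tBas : S_Bas := by
  classical
  intro G N P _ _ _ _ D hA
  have hcard : {x : N | 2 • x = 0}.ncard = 4 := by
    rw [← Nat.card_coe_set_eq]
    exact hA.four
  have hV : {x : N | 2 • x = 0}.Finite := by
    apply Set.finite_of_ncard_ne_zero
    rw [hcard]
    norm_num
  refine ⟨?_, bas_fin hV, hcard⟩
  have h0 : 2 • (0 : N) = 0 := smul_zero _
  have e0 : ∀ y : N, 2 • y = 0 → D.e 0 y = 0 := fun y hy => by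
    have h := hA.e_add 0 0 y h0 h0 hy
    rw [add_zero] at h
    exact left_eq_add.1 h
  have e0' : ∀ y : N, 2 • y = 0 → D.e y 0 = 0 := fun y hy => by
    rw [hA.e_sym y 0 hy h0, e0 y hy]
  obtain ⟨T₁, hT₁, hne⟩ : ∃ T₁ : N, 2 • T₁ = 0 ∧ T₁ ≠ 0 := by
    by_contra hc
    push Not at hc
    have h1 : {x : N | 2 • x = 0} ⊆ {0} := fun x hx => hc x hx
    have h2 := Set.ncard_le_ncard h1 (Set.finite_singleton _)
    rw [hcard, Set.ncard_singleton] at h2
    omega
  obtain ⟨T₂, hT₂, h12⟩ : ∃ T₂ : N, 2 • T₂ = 0 ∧ D.e T₁ T₂ = 1 := by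
    by_contra hc
    push Not at hc
    apply hne
    refine hA.e_nd T₁ hT₁ fun y hy => ?_
    rcases zmod2 (D.e T₁ y) with h | h
    · exact h
    · exact absurd h (hc y hy)
  have h21 : D.e T₂ T₁ = 1 := by rw [hA.e_sym T₂ T₁ hT₂ hT₁, h12]
  have h11 := hA.e_alt T₁ hT₁
  have h22 := hA.e_alt T₂ hT₂
  have h3 : 2 • (T₁ + T₂) = 0 := by rw [smul_add, hT₁, hT₂, add_zero]
  have h31 : D.e (T₁ + T₂) T₁ = 1 := by rw [hA.e_add _ _ _ hT₁ hT₂ hT₁, h11, h21, zero_add]
  have h32 : D.e (T₁ + T₂) T₂ = 1 := by rw [hA.e_add _ _ _ hT₁ hT₂ hT₂, h12, h22, add_zero]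
  have h13 : D.e T₁ (T₁ + T₂) = 1 := by rw [hA.e_sym _ _ hT₁ h3, h31]
  have h23 : D.e T₂ (T₁ + T₂) = 1 := by rw [hA.e_sym _ _ hT₂ h3, h32]
  have h33 := hA.e_alt _ h3
  have n2 : T₂ ≠ 0 := by
    rintro rfl
    rw [e0' T₁ hT₁] at h12
    exact absurd h12 (by decide)
  have n12 : T₁ ≠ T₂ := by
    rintro rfl
    rw [h11] at h12
    exact absurd h12 (by decide)
  have n3 : T₁ + T₂ ≠ 0 := by
    intro h
    rw [h, e0 T₁ hT₁] at h31
    exact absurd h31 (by decide)
  have hset : {x : N | 2 • x = 0} = (({0, T₁, T₂, T₁ + T₂} : Finset N) : Set N) := by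
    symm
    apply Set.eq_of_subset_of_ncard_le
    · intro x hx
      rw [Finset.mem_coe, Finset.mem_insert, Finset.mem_insert, Finset.mem_insert,
        Finset.mem_singleton] at hx
      change 2 • x = 0
      rcases hx with rfl | rfl | rfl | rfl
      · exact h0
      · exact hT₁
      · exact hT₂
      · exact h3
    · rw [hcard, Set.ncard_coe_finset]
      rw [Finset.card_insert_of_notMem, Finset.card_insert_of_notMem,
        Finset.card_insert_of_notMem, Finset.card_singleton]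
      · rw [Finset.mem_singleton]
        intro h
        exact hne (add_eq_right.1 h.symm)
      · rw [Finset.mem_insert, Finset.mem_singleton]
        rintro (h | h)
        · exact n12 h
        · exact n2 (left_eq_add.1 h)
      · rw [Finset.mem_insert, Finset.mem_insert, Finset.mem_singleton]
        rintro (h | h | h)
        · exact hne h.symm
        · exact n2 h.symm
        · exact n3 h.symm
    · exact hV
  have hall : ∀ a : N, 2 • a = 0 → a = 0 ∨ a = T₁ ∨ a = T₂ ∨ a = T₁ + T₂ := by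
    intro a ha
    have h : a ∈ {x : N | 2 • x = 0} := ha
    rw [hset, Finset.mem_coe, Finset.mem_insert, Finset.mem_insert, Finset.mem_insert,
      Finset.mem_singleton] at h
    exact h
  refine ⟨T₁, T₂, hT₁, hT₂, h12, ?_, ?_⟩
  · intro a ha
    rcases hall a ha with rfl | rfl | rfl | rfl
    · rw [e0 _ hT₂, e0 _ hT₁, if_pos rfl, if_pos rfl, add_zero]
    · rw [h12, h11, if_neg one_ne_zero, if_pos rfl, add_zero]
    · rw [h22, h21, if_pos rfl, if_neg one_ne_zero, zero_add]
    · rw [h32, h31, if_neg one_ne_zero, if_neg one_ne_zero]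
  · intro a b ha hb
    rcases hall a ha with rfl | rfl | rfl | rfl <;> rcases hall b hb with rfl | rfl | rfl | rfl <;>
      simp only [e0 _ hT₁, e0 _ hT₂, e0 _ h0, e0 _ h3, e0' _ hT₁, e0' _ hT₂, e0' _ h3, h11, h12,
        h21, h22, h31, h32, h13, h23, h33] <;> decide

end Pool.Agent.MP72S
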