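import Pool.Agent.Lib.MP_72e2e6_nt.Sm.A.Spec1

/-!
# MP_72e2e6_nt, `Sm/A/Cmp`: completion of a family of cocycles
-/

namespace Pool.Agent.MP72S

open Finset

theorem tCmp : S_Alt → S_Dif → S_Cmp := by
  intro hAlt hDif G N P ι _ _ _ _ _ D ψ x y U hne hco h2 σ τ
  classical
  have hmm : ∀ W w, mx (mx x y W) y w = mx x y (W ∪ w) :=
    (hAlt (A := ℤ) x y U (fun _ => 0) (fun _ => 0)).2.2.2.1
  have h0 : mx x y ∅ = x := (hAlt (A := ℤ) x y U (fun _ => 0) (fun _ => 0)).1
  let ψ' : (ι → P) → G → N := fun z => if z = x then cmp x y U ψ else ψ z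
  have hx : ψ' x = cmp x y U ψ := if_pos rfl
  have hnx : ∀ w ⊆ U, w.Nonempty → ψ' (mx x y w) = ψ (mx x y w) := by
    intro w hw hwn
    apply if_neg
    intro h
    obtain ⟨i, hi⟩ := hwn
    have := congrFun h i
    rw [mx, if_pos hi] at this
    exact hne i (hw hi) this.symm
  have hsplit : ∀ f : (ι → P) → N, alt x y U f = f x +
      ∑ w ∈ U.powerset.erase ∅, (-1 : ℤ) ^ #w • f (mx x y w) := by
    intro f
    rw [alt, ← Finset.add_sum_erase _ _ (empty_mem_powerset U), h0]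
    simp
  have hmem : ∀ w ∈ U.powerset.erase ∅, w ⊆ U ∧ w.Nonempty := by
    intro w hw
    rw [mem_erase, mem_powerset] at hw
    exact ⟨hw.2, nonempty_iff_ne_empty.2 hw.1⟩
  have halt0 : ∀ g, alt x y U (fun z => ψ' z g) = 0 := by
    intro g
    rw [hsplit, hx, cmp]
    have h5 : ∑ w ∈ U.powerset.erase ∅, (-1 : ℤ) ^ #w • ψ' (mx x y w) g =
        ∑ w ∈ U.powerset.erase ∅, (-1 : ℤ) ^ #w • ψ (mx x y w) g := by
      apply Finset.sum_congr rfl
      intro w hw
      rw [hnx w (hmem w hw).1 (hmem w hw).2]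
    rw [h5]
    exact neg_add_cancel _
  have hface : ∀ W ⊆ U, W.Nonempty → ∀ g,
      alt (mx x y W) y (U \ W) (fun z => ψ' z g) = alt (mx x y W) y (U \ W) (fun z => ψ z g) := by
    intro W hW hWn g
    rw [alt, alt]
    apply Finset.sum_congr rfl
    intro w hw
    rw [hmm, hnx (W ∪ w) (union_subset hW ((mem_powerset.1 hw).trans sdiff_subset))
      (hWn.mono subset_union_left)]
  have hd := hDif D ψ' x y U σ τ
  rw [halt0, halt0, sub_zero, zero_add] at hd
  have hsum : ∑ W ∈ (U.filter fun i => D.ch (x i) σ + D.ch (y i) σ = 1).powerset,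
      2 ^ #W • alt (mx x y W) y (U \ W) (fun z => ψ' z τ) = 0 := by
    apply Finset.sum_eq_zero
    intro W hW
    have hWU : W ⊆ U := (mem_powerset.1 hW).trans (filter_subset _ _)
    rcases W.eq_empty_or_nonempty with rfl | hWn
    · rw [h0, sdiff_empty, halt0, smul_zero]
    · rw [hface W hWU hWn, h2 W hWU hWn]
  rw [hsum, tw_map_zero, hsplit, hx] at hd
  have hrest : ∑ w ∈ U.powerset.erase ∅, (-1 : ℤ) ^ #w •
      (ψ' (mx x y w) σ + tw (D.chi (mx x y w)) σ (ψ' (mx x y w) τ) - ψ' (mx x y w) (σ * τ)) =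
      0 := by
    apply Finset.sum_eq_zero
    intro w hw
    obtain ⟨h3, h4⟩ := hmem w hw
    rw [hnx w h3 h4, hco w h3 h4 σ τ, sub_self, smul_zero]
  rw [hrest, add_zero] at hd
  exact (sub_eq_zero.1 hd).symm

end Pool.Agent.MP72S
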