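import Pool.Agent.Lib.MP_72e2e6_nt.Sm.A.Spec3

namespace Pool.Agent.MP72S

open Finset

section

variable {G N ι : Type} [Group G] [AddCommGroup N] [DecidableEq ι] {I : Finset ι}
    {c : ι → G → ZMod 2} {F : Finset ι → G → N}

private theorem Com_c1 (h : Sys I c F) {i : ι} (hi : i ∈ I) : c i 1 = 0 := by
  have := h.hom i hi 1 1
  rw [mul_one] at this
  have h2 : c i 1 + 0 = c i 1 + c i 1 := by rw [add_zero]; exact this
  exact (add_left_cancel h2).symm

private theorem Com_cinv (h : Sys I c F) {i : ι} (hi : i ∈ I) (g : G) :
    c i g⁻¹ = - c i g := by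
  have := h.hom i hi g g⁻¹
  rw [mul_inv_cancel, Com_c1 h hi] at this
  exact (neg_eq_of_add_eq_zero_right this.symm).symm

private theorem Com_mul (h : Sys I c F) {U : Finset ι} (hU : U ⊆ I) {g : G}
    (hg : ∀ i ∈ I, c i g = 0) (k : G) : F U (g * k) = F U g + F U k := by
  rw [h.mul U hU]
  have : (U.filter fun i => c i g = 1) = ∅ := by
    apply Finset.filter_eq_empty_iff.mpr
    intro i hi h1
    rw [hg i (hU hi)] at h1
    exact zero_ne_one h1
  rw [this, Finset.powerset_empty, Finset.sum_singleton, Finset.sdiff_empty]

/-- The sum over the nonempty sets. -/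
private theorem Com_mul' (h : Sys I c F) {U : Finset ι} (hU : U ⊆ I) (a b : G) :
    F U (a * b) = F U a + F U b +
      ∑ W ∈ (U.filter fun i => c i a = 1).powerset.erase ∅, F (U \ W) b := by
  rw [h.mul U hU, ← Finset.add_sum_erase _ _ (Finset.empty_mem_powerset _), Finset.sdiff_empty,
    add_assoc]

private theorem Com_two (h : Sys I c F) {U : Finset ι} (hU : U ⊆ I) (g : G) :
    F U g + F U g = 0 := by
  rw [← two_nsmul]; exact h.two U hU g

/-- Commutators. -/
private theorem Com_comm (h : Sys I c F) {U : Finset ι} (hU : U ⊆ I) (a b : G) :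
    (∀ i ∈ I, c i (a * b * a⁻¹ * b⁻¹) = 0) ∧
    F U (a * b * a⁻¹ * b⁻¹) =
      (∑ W ∈ (U.filter fun i => c i a = 1).powerset.erase ∅, F (U \ W) b) +
      ∑ W ∈ (U.filter fun i => c i b = 1).powerset.erase ∅, F (U \ W) a := by
  have hc : ∀ i ∈ I, c i (a * b * a⁻¹ * b⁻¹) = 0 := by
    intro i hi
    rw [h.hom i hi, h.hom i hi, h.hom i hi, Com_cinv h hi, Com_cinv h hi]
    abel
  refine ⟨hc, ?_⟩
  have h1 := Com_mul h hU hc (b * a)
  have h2 : a * b * a⁻¹ * b⁻¹ * (b * a) = a * b := by group
  rw [h2, Com_mul' h hU a b, Com_mul' h hU b a] at h1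
  have h3 := Com_two h hU (a * b * a⁻¹ * b⁻¹)
  set X := F U (a * b * a⁻¹ * b⁻¹)
  set A := ∑ W ∈ (U.filter fun i => c i a = 1).powerset.erase ∅, F (U \ W) b
  set B := ∑ W ∈ (U.filter fun i => c i b = 1).powerset.erase ∅, F (U \ W) a
  have hB : B + B = 0 := by
    simp only [B]
    rw [← Finset.sum_add_distrib]
    refine Finset.sum_eq_zero fun W _ => ?_
    exact Com_two h (Finset.sdiff_subset.trans hU) a
  have h4 : F U a + F U b + A = X + (F U b + F U a + B) := h1
  have h5 : A = X + B := by
    have h6 : F U a + F U b + A = F U a + F U b + (X + B) := by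
      rw [h4]; abel
    exact add_left_cancel h6
  rw [h5, add_assoc, hB, add_zero]

/-- Commutator with an element which has only the character `i`. -/
private theorem Com_step (h : Sys I c F) {U : Finset ι} (hU : U ⊆ I) {i : ι}
    (a b : G) (ha : ∀ j ∈ I, j ≠ i → c j a = 0) (hb : ∀ j ∈ I, c j b = 0) :
    F U (a * b * a⁻¹ * b⁻¹) = if i ∈ U ∧ c i a = 1 then F (U.erase i) b else 0 := by
  rw [(Com_comm h hU a b).2]
  have h1 : (U.filter fun j => c j b = 1) = ∅ := by
    apply Finset.filter_eq_empty_iff.mpr
    intro j hj h1
    rw [hb j (hU hj)] at h1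
    exact zero_ne_one h1
  have h2 : ∑ W ∈ (U.filter fun j => c j b = 1).powerset.erase ∅, F (U \ W) a = 0 := by
    rw [h1, Finset.powerset_empty, Finset.erase_singleton, Finset.sum_empty]
  rw [h2, add_zero]
  by_cases hi : i ∈ U ∧ c i a = 1
  · rw [if_pos hi]
    have h3 : (U.filter fun j => c j a = 1) = {i} := by
      ext j
      simp only [Finset.mem_filter, Finset.mem_singleton]
      constructor
      · rintro ⟨hj, hj1⟩
        by_contra hne
        rw [ha j (hU hj) hne] at hj1
        exact zero_ne_one hj1
      · rintro rfl
        exact hi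
    have h4 : ({i} : Finset ι).powerset.erase ∅ = {{i}} := by
      ext W
      simp only [Finset.mem_erase, Finset.mem_powerset, Finset.mem_singleton]
      rw [Finset.subset_singleton_iff]
      constructor
      · rintro ⟨q1, q2 | q2⟩
        · exact absurd q2 q1
        · exact q2
      · rintro rfl
        exact ⟨Finset.singleton_ne_empty i, Or.inr rfl⟩
    rw [h3, h4, Finset.sum_singleton, Finset.sdiff_singleton_eq_erase]
  · rw [if_neg hi]
    have h3 : (U.filter fun j => c j a = 1) = ∅ := by
      apply Finset.filter_eq_empty_iff.mpr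
      intro j hj h1
      by_cases hji : j = i
      · subst hji; exact hi ⟨hj, h1⟩
      · rw [ha j (hU hj) hji] at h1
        exact zero_ne_one h1
    rw [h3, Finset.powerset_empty, Finset.erase_singleton, Finset.sum_empty]

private theorem Com_empty (h : Sys I c F) (a b : G) : F ∅ (a * b * a⁻¹ * b⁻¹) = 0 := by
  rw [(Com_comm h (Finset.empty_subset I) a b).2]
  simp

/-- The statement for lists contained in `I`. -/
private theorem Com_list (h : Sys I c F) (g : ι → G)
    (hg : ∀ i ∈ I, ∀ j ∈ I, j ≠ i → c j (g i) = 0) (hg0 : ∀ i ∈ I, F ∅ (g i) = 0) (σ : G) :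
    ∀ l : List ι, l.Nodup → l.toFinset ⊆ I → l ≠ [] →
      (∀ j ∈ I, c j (itc g l σ) = 0) ∧
      (∀ U ⊆ l.toFinset, U ≠ l.toFinset → F U (itc g l σ) = 0) ∧
      F l.toFinset (itc g l σ) = if ∀ i ∈ l.toFinset, c i (g i) = 1 then F ∅ σ else 0 := by
  intro l
  induction l with
  | nil => intro _ _ hne; exact absurd rfl hne
  | cons i l ih =>
    intro hnd hsub _
    have hiI : i ∈ I := hsub (by simp)
    have hlI : l.toFinset ⊆ I := fun a ha => hsub (by
      rw [List.toFinset_cons]; exact Finset.mem_insert_of_mem ha)
    obtain ⟨hil, hndl⟩ := List.nodup_cons.mp hnd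
    have hil' : i ∉ l.toFinset := by simpa using hil
    have hc0 : ∀ j ∈ I, c j (itc g (i :: l) σ) = 0 :=
      (Com_comm h (Finset.empty_subset I) (g i) (itc g l σ)).1
    refine ⟨hc0, ?_⟩
    rcases eq_or_ne l [] with rfl | hl
    · -- one element
      constructor
      · intro U hU hne
        have hU0 : U = ∅ := by
          have h1 : U ⊆ {i} := by simpa using hU
          rcases Finset.subset_singleton_iff.mp h1 with h2 | h2
          · exact h2
          · exfalso; apply hne; rw [h2]; simp
        rw [hU0]
        exact Com_empty h (g i) σ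
      · have e1 : ([i] : List ι).toFinset = {i} := by simp
        rw [e1]
        change F {i} (g i * σ * (g i)⁻¹ * σ⁻¹) = _
        rw [(Com_comm h (by simpa using hiI) (g i) σ).2]
        have e2 : ∀ x : G, ∀ y : G, ∑ W ∈ (({i} : Finset ι).filter fun j => c j x = 1).powerset.erase ∅,
            F ({i} \ W) y = if c i x = 1 then F ∅ y else 0 := by
          intro x y
          by_cases hx : c i x = 1
          · rw [if_pos hx]
            have h3 : (({i} : Finset ι).filter fun j => c j x = 1) = {i} := by
              rw [Finset.filter_eq_self]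
              intro j hj
              rw [Finset.mem_singleton.mp hj]; exact hx
            have h4 : ({i} : Finset ι).powerset.erase ∅ = {{i}} := by
              ext W
              simp only [Finset.mem_erase, Finset.mem_powerset, Finset.mem_singleton]
              rw [Finset.subset_singleton_iff]
              constructor
              · rintro ⟨q1, q2 | q2⟩
                · exact absurd q2 q1
                · exact q2
              · rintro rfl
                exact ⟨Finset.singleton_ne_empty i, Or.inr rfl⟩
            rw [h3, h4, Finset.sum_singleton, Finset.sdiff_self]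
          · rw [if_neg hx]
            have h3 : (({i} : Finset ι).filter fun j => c j x = 1) = ∅ := by
              apply Finset.filter_eq_empty_iff.mpr
              intro j hj
              rw [Finset.mem_singleton.mp hj]; exact hx
            rw [h3, Finset.powerset_empty, Finset.erase_singleton, Finset.sum_empty]
        rw [e2, e2, hg0 i hiI]
        simp
    · obtain ⟨q0, q1, q2⟩ := ih hndl hlI hl
      have hstep : ∀ U ⊆ I, F U (itc g (i :: l) σ) =
          if i ∈ U ∧ c i (g i) = 1 then F (U.erase i) (itc g l σ) else 0 := by
        intro U hU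
        exact Com_step h hU (g i) (itc g l σ) (hg i hiI) q0
      constructor
      · intro U hU hne
        rw [hstep U (hU.trans hsub)]
        by_cases hi : i ∈ U ∧ c i (g i) = 1
        · rw [if_pos hi]
          apply q1
          · intro a ha
            have h1 := hU (Finset.mem_of_mem_erase ha)
            rw [List.toFinset_cons, Finset.mem_insert] at h1
            exact h1.resolve_left (Finset.ne_of_mem_erase ha)
          · intro heq
            apply hne
            rw [List.toFinset_cons, ← heq, Finset.insert_erase hi.1]
        · rw [if_neg hi]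
      · rw [hstep _ hsub]
        have h1 : (i :: l).toFinset.erase i = l.toFinset := by
          rw [List.toFinset_cons, Finset.erase_insert hil']
        rw [h1, q2]
        have h2 : i ∈ (i :: l).toFinset := by simp
        by_cases hci : c i (g i) = 1
        · rw [if_pos ⟨h2, hci⟩]
          by_cases hall : ∀ j ∈ l.toFinset, c j (g j) = 1
          · rw [if_pos hall, if_pos]
            intro j hj
            rw [List.toFinset_cons, Finset.mem_insert] at hj
            rcases hj with rfl | hj
            · exact hci
            · exact hall j hj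
          · rw [if_neg hall, if_neg]
            intro hall'
            apply hall
            intro j hj
            exact hall' j (by rw [List.toFinset_cons]; exact Finset.mem_insert_of_mem hj)
        · rw [if_neg (fun hh => hci hh.2), if_neg]
          intro hall'
          exact hci (hall' i h2)

end

theorem tCom : S_Com := by
  intro G N ι _ _ _ I c F h g hg hg0 l hnd hl hne σ
  obtain ⟨q0, q1, q2⟩ := Com_list h g hg hg0 σ l hnd hl.subset hne
  rw [hl] at q1 q2
  exact ⟨⟨q0, fun U hU hUI => q1 U hU hUI⟩, q2⟩

end Pool.Agent.MP72S
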