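import Pool.Agent.Lib.MP_72e2e6_nt.Sm.A.Spec3

/-!
# MP_72e2e6_nt, `Sm/A/Det`: the groups `Dk` and the sets `O` are determined by the obstruction
functionals
-/

namespace Pool.Agent.MP72S

open Finset

private theorem det_div {N : Type} [AddCommGroup N] (h : ∀ x : N, ∃ y : N, 2 • y = x) (n : ℕ) :
    ∀ s : N, ∃ r : N, 2 ^ n • r = s := by
  induction n with
  | zero => exact fun s => ⟨s, by rw [pow_zero, one_smul]⟩
  | succ n ih =>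
    intro s
    obtain ⟨y, hy⟩ := h s
    obtain ⟨r, hr⟩ := ih y
    exact ⟨r, by rw [pow_succ', mul_smul, hr, hy]⟩

private theorem det_aux (hTin : S_Tin) (hDk : S_Dk1) (hOb : S_ObA) (hTre : S_Tre) (hDua : S_Dua)
    {G N P ι : Type} [Group G] [TopologicalSpace G] [IsTopologicalGroup G] [AddCommGroup N]
    [DistribMulAction G N] [Fintype ι] [DecidableEq ι] (D : Dat G N P) (hA : Ax D) (hA2 : Ax2 D)
    (x x' : ι → P) (hx : D.Ok x) (hx' : D.Ok x') (h1 : D.Dk x 1 = D.Dk x' 1) (I : Finset ι)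
    (hν : ∀ ν ∈ D.Dk x 1, ∃ s : N, 2 • s = 0 ∧ ∀ i ∈ I, ν (Sum.inr i) = s) (K : ℕ) (hK : 2 ≤ K)
    (H : ∀ ξ : D.J ι → N, 2 ^ (K - 1) • ξ = 0 → (∀ i ∈ I, 2 ^ (K - 2) • ξ (Sum.inr i) = 0) →
      ((∃ η, D.IsH x ξ η) → ∃ η, D.IsH x' ξ η) ∧ ∀ η η', D.IsH x ξ η → D.IsH x' ξ η' →
        ∀ ν ∈ D.Dk x 1, (∀ i ∈ I, ν (Sum.inr i) = 0) → D.ob x ξ η ν = D.ob x' ξ η' ν) :
    D.Dk x K ≤ D.Dk x' K ∧ D.O x K ⊆ D.O x' K := by
  obtain ⟨k, rfl⟩ : ∃ k, K = k + 2 := ⟨K - 2, by omega⟩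
  rw [show k + 2 - 1 = k + 1 from rfl, show k + 2 - 2 = k from rfl] at H
  obtain ⟨dk1, dkT, -, dkle, -⟩ := hDk (ι := ι) D hA
  have hTz : ∀ (z : ι → P), D.Ok z → ∀ r : N, (fun _ => r : D.J ι → N) ∈ D.Z z := by
    intro z hz r
    obtain ⟨R, hR⟩ := hA.dvs r
    exact ⟨_, hTin D hA z hz r R hR⟩
  have hTm : ∀ s : N, 2 • s = 0 → (fun _ => s : D.J ι → N) ∈ D.T ι := fun s hs => ⟨s, hs, rfl⟩
  obtain ⟨a1, a2, a3, -, a5⟩ := hOb D hA x hx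
  obtain ⟨b1, b2, b3, -, b5⟩ := hOb D hA x' hx'
  -- from the types which vanish on `I` to all types
  have key : ∀ (ξ ξ' : D.J ι → N) (η η' : G → N), D.IsH x ξ η → D.IsH x' ξ' η' →
      (∀ ν ∈ D.Dk x 1, (∀ i ∈ I, ν (Sum.inr i) = 0) → D.ob x ξ η ν = D.ob x' ξ' η' ν) →
      ∀ ν ∈ D.Dk x 1, D.ob x ξ η ν = D.ob x' ξ' η' ν := by
    intro ξ ξ' η η' hη hη' h ν hνm
    obtain ⟨s, hs, hsI⟩ := hν ν hνm
    have hc : (fun _ => s : D.J ι → N) ∈ D.Dk x 1 := dkT x hx 1 le_rfl (hTm s hs)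
    have hd : ν - (fun _ => s : D.J ι → N) ∈ D.Dk x 1 := (D.Dk x 1).sub_mem hνm hc
    have e1 := a1 ξ η hη _ hd _ hc
    have hd' : ν - (fun _ => s : D.J ι → N) ∈ D.Dk x' 1 := h1 ▸ hd
    have hc' : (fun _ => s : D.J ι → N) ∈ D.Dk x' 1 := h1 ▸ hc
    have e2 := b1 ξ' η' hη' _ hd' _ hc'
    rw [sub_add_cancel] at e1 e2
    rw [e1, e2, hTre D hA hA2 x hx ξ η hη _ (hTm s hs),
      hTre D hA hA2 x' hx' ξ' η' hη' _ (hTm s hs), add_zero, add_zero]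
    exact h _ hd fun i hi => by rw [Pi.sub_apply, hsI i hi, sub_self]
  constructor
  · intro g hg
    have hg1 : g ∈ D.Dk x 1 := dkle x (k + 2) (by omega) hg
    obtain ⟨ζ, ⟨hζ, hζk⟩, hζg⟩ := hg
    change 2 ^ (k + 2 - 1) • ζ = g at hζg
    rw [show k + 2 - 1 = k + 1 from rfl] at hζg
    have hζk' : 2 ^ (k + 2) • ζ = 0 := hζk
    obtain ⟨s, hs, hsI⟩ := hν g hg1
    obtain ⟨r, hr⟩ := det_div hA.dvs (k + 1) s
    have hζ' : ζ - (fun _ => r : D.J ι → N) ∈ D.Z x := (D.Z x).sub_mem hζ (hTz x hx r)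
    obtain ⟨c1, c2⟩ := a3 _ hζ'
    have hr2 : 2 ^ (k + 1) • (fun _ => r : D.J ι → N) = fun _ => s := by
      funext j
      exact hr
    have hs2 : 2 • (fun _ => s : D.J ι → N) = 0 := by
      funext j
      exact hs
    have hgz : 2 ^ (k + 1) • (ζ - (fun _ => r : D.J ι → N)) = g - fun _ => s := by
      rw [smul_sub, hζg, hr2]
    have hz1 : 2 ^ (k + 1) • 2 • (ζ - (fun _ => r : D.J ι → N)) = 0 := by
      rw [smul_comm, hgz, smul_sub, hs2, sub_zero, ← hζg, ← mul_smul, ← pow_succ', hζk']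
    have hz2 : ∀ i ∈ I, 2 ^ k • (2 • (ζ - (fun _ => r : D.J ι → N))) (Sum.inr i) = 0 := by
      intro i hi
      have h := congrFun hgz (Sum.inr i)
      rw [Pi.sub_apply, hsI i hi, sub_self] at h
      rw [← h, Pi.smul_apply, Pi.smul_apply, ← mul_smul, ← pow_succ]
    obtain ⟨H1, H2⟩ := H _ hz1 hz2
    obtain ⟨η', hη'⟩ := H1 ⟨_, c1⟩
    have hall := key _ _ _ _ c1 hη' (fun ν h1 h2 => H2 _ _ c1 hη' ν h1 h2)
    obtain ⟨ζ'', hζ'', hζ2⟩ := hDua D hA x' hx' _ η' hη' fun ν hνm => by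
      rw [← h1] at hνm
      rw [← hall ν hνm, c2 ν hνm]
    have hm : g - (fun _ => s : D.J ι → N) ∈ D.Dk x' (k + 2) := by
      refine ⟨ζ'', ⟨hζ'', ?_⟩, ?_⟩
      · change 2 ^ (k + 2) • ζ'' = 0
        rw [show k + 2 = (k + 1) + 1 from rfl, pow_succ, mul_smul, hζ2, hz1]
      · change 2 ^ (k + 2 - 1) • ζ'' = _
        rw [show k + 2 - 1 = k + 1 from rfl, pow_succ, mul_smul, hζ2, ← mul_smul, ← pow_succ, hgz]
    have hc : (fun _ => s : D.J ι → N) ∈ D.Dk x' (k + 2) := dkT x' hx' _ (by omega) (hTm s hs)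
    have h := (D.Dk x' (k + 2)).add_mem hm hc
    rwa [sub_add_cancel] at h
  · rintro g ⟨ξ, η, hξ, hη, hg, hg'⟩
    rw [show k + 2 - 1 = k + 1 from rfl] at hξ
    have hξ1 : 2 ^ k • ξ ∈ D.Dk x 1 := by
      rw [dk1]
      refine ⟨(D.Z x).nsmul_mem ⟨_, hη.hf⟩ _, ?_⟩
      rw [← mul_smul, ← pow_succ', hξ]
    obtain ⟨s, hs, hsI⟩ := hν _ hξ1
    obtain ⟨r, hr⟩ := det_div hA.dvs (k + 1) s
    obtain ⟨c1, c2⟩ := a3 _ (hTz x hx r)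
    obtain ⟨d1, d2⟩ := a2 _ _ _ _ hη c1
    have hr2 : 2 ^ (k + 1) • (fun _ => r : D.J ι → N) = fun _ => s := by
      funext j
      exact hr
    have hs2 : 2 • (fun _ => s : D.J ι → N) = 0 := by
      funext j
      exact hs
    have hz1 : 2 ^ (k + 1) • (ξ + 2 • (fun _ => r : D.J ι → N)) = 0 := by
      rw [smul_add, hξ, smul_comm, hr2, hs2, add_zero]
    have hz2 : ∀ i ∈ I, 2 ^ k • (ξ + 2 • (fun _ => r : D.J ι → N)) (Sum.inr i) = 0 := by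
      intro i hi
      have h := hsI i hi
      rw [Pi.smul_apply] at h
      rw [Pi.add_apply, smul_add, h, Pi.smul_apply, ← mul_smul, ← pow_succ, hr, ← two_nsmul, hs]
    obtain ⟨H1, H2⟩ := H _ hz1 hz2
    obtain ⟨η', hη'⟩ := H1 ⟨_, d1⟩
    have hall := key _ _ _ _ d1 hη' (fun ν h1 h2 => H2 _ _ d1 hη' ν h1 h2)
    refine ⟨_, η', hz1, hη', fun ν hνm => ?_, fun ν hνm => hg' ν (h1 ▸ hνm)⟩
    rw [← h1] at hνm
    rw [hg ν hνm, ← hall ν hνm, d2 ν hνm, c2 ν hνm, add_zero]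

theorem tDet : S_Uq → S_Tin → S_Dk1 → S_ObA → S_Tre → S_Dua → S_Det := by
  intro _ hTin hDk hOb hTre hDua G N P ι _ _ _ _ _ _ _ D hA hA2 x x' hx hx' h1 I hI hν K hK H
  obtain ⟨p1, p2⟩ := det_aux hTin hDk hOb hTre hDua D hA hA2 x x' hx hx' h1 I hν K hK
    fun ξ h2 h3 => ⟨(H ξ h2 h3).1.1, (H ξ h2 h3).2⟩
  obtain ⟨q1, q2⟩ := det_aux hTin hDk hOb hTre hDua D hA hA2 x' x hx' hx h1.symm I
    (fun ν h => hν ν (h1 ▸ h)) K hK
    fun ξ h2 h3 => ⟨(H ξ h2 h3).1.2, fun η η' e e' ν h4 h5 =>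
      ((H ξ h2 h3).2 η' η e' e ν (h1 ▸ h4) h5).symm⟩
  exact ⟨le_antisymm p1 q1, Set.Subset.antisymm p2 q2⟩

end Pool.Agent.MP72S
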