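import Pool.Agent.Lib.MP_72e2e6_nt.Sm.A.Spec1

/-!
# MP_72e2e6_nt, `Sm/A/Dif`: the difference formula
-/

namespace Pool.Agent.MP72S

open Finset

private theorem dif_up {P ι : Type} [DecidableEq ι] (x y : ι → P) (i : ι) (W : Finset ι)
    (hi : i ∉ W) :
    Function.update (mx x y W) i (y i) = mx (Function.update x i (y i)) y W := by
  funext k
  by_cases hk : k = i
  · subst hk
    simp [mx, hi]
  · simp [mx, hk]

private theorem dif_main (hAlt : S_Alt) {P ι N : Type} [DecidableEq ι] [AddCommGroup N]
    (y : ι → P) (c : ι → ZMod 2) (F : (ι → P) → N) (U : Finset ι) : ∀ x : ι → P,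
    ∑ w ∈ U.powerset, (-1 : ℤ) ^ #w • sg (∑ i ∈ w, c i) (F (mx x y w)) =
      ∑ W ∈ (U.filter fun i => c i = 1).powerset, 2 ^ #W • alt (mx x y W) y (U \ W) F := by
  induction U using Finset.induction_on with
  | empty =>
    intro x
    have h0 : mx x y ∅ = x := (hAlt (A := ℤ) x y ∅ (fun _ => 0) (fun _ => 0)).1
    simp [alt, sg_zero', h0]
  | insert i U hi ih =>
    intro x
    have hup := (hAlt (A := ℤ) x y ∅ (fun _ => 0) (fun _ => 0)).2.2.1
    have hL : ∑ w ∈ (insert i U).powerset, (-1 : ℤ) ^ #w • sg (∑ k ∈ w, c k) (F (mx x y w)) =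
        ∑ w ∈ U.powerset, (-1 : ℤ) ^ #w • sg (∑ k ∈ w, c k) (F (mx x y w)) -
          sg (c i) (∑ w ∈ U.powerset, (-1 : ℤ) ^ #w •
            sg (∑ k ∈ w, c k) (F (mx (Function.update x i (y i)) y w))) := by
      rw [Finset.sum_powerset_insert hi, sub_eq_add_neg]
      congr 1
      have hs : ∀ (s : Finset (Finset ι)) (f : Finset ι → N),
          -sg (c i) (∑ w ∈ s, f w) = ∑ w ∈ s, -sg (c i) (f w) := by
        intro s f
        rw [Finset.sum_neg_distrib]
        congr 1
        induction s using Finset.induction_on with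
        | empty => simp [sg_map_zero]
        | insert a s ha ih' => rw [sum_insert ha, sum_insert ha, sg_add, ih']
      rw [hs]
      apply Finset.sum_congr rfl
      intro w hw
      have hiw : i ∉ w := fun h => hi (mem_powerset.1 hw h)
      rw [Finset.card_insert_of_notMem hiw, Finset.sum_insert hiw, ← sg_sg, hup, pow_succ, mul_neg,
        mul_one, neg_smul, sg_zsmul]
    rw [hL, ih x, ih (Function.update x i (y i))]
    have hstep : ∀ W ⊆ U, alt (mx x y W) y (insert i U \ W) F = alt (mx x y W) y (U \ W) F -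
        alt (mx (Function.update x i (y i)) y W) y (U \ W) F := by
      intro W hW
      have hiW : i ∉ W := fun h => hi (hW h)
      rw [insert_sdiff_of_notMem _ hiW, (hAlt (mx x y W) y (U \ W) F F).2.2.2.2.1 i
        (fun h => hi (mem_sdiff.1 h).1), dif_up x y i W hiW]
    rcases zmod2 (c i) with hc | hc
    · have hf : (insert i U).filter (fun k => c k = 1) = U.filter fun k => c k = 1 := by
        rw [filter_insert, if_neg]
        rw [hc]
        exact zero_ne_one
      rw [hf, hc, sg_zero', ← Finset.sum_sub_distrib]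
      apply Finset.sum_congr rfl
      intro W hW
      have hWU : W ⊆ U := (mem_powerset.1 hW).trans (filter_subset _ _)
      rw [hstep W hWU, smul_sub]
    · have hf : (insert i U).filter (fun k => c k = 1) = insert i (U.filter fun k => c k = 1) := by
        rw [filter_insert, if_pos hc]
      have hi' : i ∉ U.filter fun k => c k = 1 := fun h => hi (mem_filter.1 h).1
      rw [hf, hc, sg_one', sub_neg_eq_add, Finset.sum_powerset_insert hi',
        ← Finset.sum_add_distrib, ← Finset.sum_add_distrib]
      apply Finset.sum_congr rfl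
      intro W hW
      have hWU : W ⊆ U := (mem_powerset.1 hW).trans (filter_subset _ _)
      have hiW : i ∉ W := fun h => hi (hWU h)
      have hsd : insert i U \ insert i W = U \ W := by
        ext k
        simp only [mem_sdiff, mem_insert, not_or]
        constructor
        · rintro ⟨h1 | h1, h2, h3⟩
          · exact absurd h1 h2
          · exact ⟨h1, h3⟩
        · rintro ⟨h1, h2⟩
          exact ⟨Or.inr h1, fun h => hi (h ▸ h1), h2⟩
      rw [hstep W hWU, ← hup i W, card_insert_of_notMem hiW, hsd, pow_succ, mul_smul, two_smul,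
        smul_sub, smul_add]
      abel

private theorem dif_chi {G N P ι : Type} [Fintype ι] [DecidableEq ι] (D : Dat G N P)
    (x y : ι → P) (w : Finset ι) (σ : G) :
    D.chi (mx x y w) σ = D.chi x σ + ∑ i ∈ w, (D.ch (x i) σ + D.ch (y i) σ) := by
  have h1 : ∑ i ∈ w, (D.ch (x i) σ + D.ch (y i) σ) =
      ∑ i, if i ∈ w then (D.ch (x i) σ + D.ch (y i) σ) else 0 := by
    rw [Finset.sum_ite_mem, univ_inter]
  rw [Dat.chi, Dat.chi, h1, add_assoc, ← Finset.sum_add_distrib]
  congr 1
  apply Finset.sum_congr rfl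
  intro i _
  by_cases hi : i ∈ w
  · rw [if_pos hi, mx, if_pos hi, ← add_assoc, CharTwo.add_self_eq_zero, zero_add]
  · rw [if_neg hi, mx, if_neg hi, add_zero]

theorem tDif : S_Alt → S_Dif := by
  intro hAlt G N P ι _ _ _ _ _ D ψ x y U σ τ
  have h1 : alt x y U (fun z => ψ z σ + tw (D.chi z) σ (ψ z τ) - ψ z (σ * τ)) =
      alt x y U (fun z => ψ z σ) - alt x y U (fun z => ψ z (σ * τ)) +
        alt x y U (fun z => tw (D.chi z) σ (ψ z τ)) := by
    simp only [alt]
    rw [← Finset.sum_sub_distrib, ← Finset.sum_add_distrib]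
    apply Finset.sum_congr rfl
    intro w _
    rw [smul_sub, smul_add]
    abel
  rw [h1]
  congr 1
  rw [← dif_main hAlt y (fun i => D.ch (x i) σ + D.ch (y i) σ) (fun z => ψ z τ) U x, tw_sum, alt]
  apply Finset.sum_congr rfl
  intro w _
  rw [tw_zsmul]
  congr 1
  rw [tw, tw, dif_chi, sg_smul, sg_sg]

end Pool.Agent.MP72S
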