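import Pool.Agent.Lib.MP_72e2e6_nt.Sm.A.Spec2

/-!
# MP_72e2e6_nt, `Sm/A`, module `Dk1`: elementary facts on `Dk`, `T`
-/

namespace Pool.Agent.MP72S

open Finset

private theorem dk1_dvs {N : Type} [AddCommGroup N] (h : ∀ x : N, ∃ y : N, 2 • y = x) :
    ∀ (k : ℕ) (x : N), ∃ y : N, 2 ^ k • y = x := by
  intro k
  induction k with
  | zero => exact fun x => ⟨x, by rw [pow_zero, one_smul]⟩
  | succ k ih =>
    intro x
    obtain ⟨y, hy⟩ := h x
    obtain ⟨z, hz⟩ := ih y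
    refine ⟨z, ?_⟩
    rw [pow_succ', mul_smul, hz, hy]

private theorem dk1_mem {G N P ι : Type} [Group G] [TopologicalSpace G] [AddCommGroup N]
    [DistribMulAction G N] [Fintype ι] [DecidableEq ι] {D : Dat G N P} {x : ι → P} {k : ℕ}
    {ν : D.J ι → N} : ν ∈ D.Dk x k ↔ ∃ ζ, ζ ∈ D.Z x ∧ 2 ^ k • ζ = 0 ∧ 2 ^ (k - 1) • ζ = ν := by
  unfold Dat.Dk
  rw [AddSubgroup.mem_map]
  constructor
  · rintro ⟨ζ, ⟨h1, h2⟩, h3⟩
    exact ⟨ζ, h1, h2, h3⟩
  · rintro ⟨ζ, h1, h2, h3⟩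
    exact ⟨ζ, ⟨h1, h2⟩, h3⟩

theorem tDk1 : S_Tin → S_Dk1 := by
  intro hTin G N P ι _ _ _ _ _ _ D hD
  have hV : Finite {x : N // 2 • x = 0} := by
    apply Nat.finite_of_card_ne_zero
    rw [hD.four]
    norm_num
  have hJ : Nonempty (D.J ι) := ⟨Sum.inl ⟨D.inf, hD.infS⟩⟩
  have p1 : ∀ (x : ι → P) ν, ν ∈ D.Dk x 1 ↔ ν ∈ D.Z x ∧ 2 • ν = 0 := by
    intro x ν
    rw [dk1_mem]
    constructor
    · rintro ⟨ζ, h1, h2, h3⟩
      rw [Nat.sub_self, pow_zero, one_smul] at h3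
      subst h3
      rw [pow_one] at h2
      exact ⟨h1, h2⟩
    · rintro ⟨h1, h2⟩
      exact ⟨ν, h1, by rw [pow_one]; exact h2, by rw [Nat.sub_self, pow_zero, one_smul]⟩
  have p4 : ∀ (x : ι → P) (k : ℕ), 1 ≤ k → D.Dk x k ≤ D.Dk x 1 := by
    intro x k hk ν hν
    rw [dk1_mem] at hν
    obtain ⟨ζ, h1, h2, rfl⟩ := hν
    rw [p1]
    refine ⟨AddSubgroup.nsmul_mem _ h1 _, ?_⟩
    rw [← mul_smul, ← pow_succ', Nat.sub_add_cancel hk]
    exact h2
  refine ⟨p1, ?_, ?_, p4, ?_, ?_, ?_, ?_, ?_, ?_⟩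
  · rintro x hx k hk _ ⟨s, hs, rfl⟩
    obtain ⟨r, hr⟩ := dk1_dvs hD.dvs (k - 1) s
    obtain ⟨R, hR⟩ := hD.dvs r
    rw [dk1_mem]
    refine ⟨fun _ => r, ⟨_, hTin D hD x hx r R hR⟩, ?_, ?_⟩
    · funext j
      show 2 ^ k • r = 0
      obtain ⟨m, rfl⟩ : ∃ m, k = m + 1 := ⟨k - 1, by omega⟩
      rw [Nat.add_sub_cancel] at hr
      rw [pow_succ', mul_smul, hr, hs]
    · funext j
      exact hr
  · intro x k hk ν hν
    rw [dk1_mem] at hν ⊢
    obtain ⟨ζ, h1, h2, rfl⟩ := hν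
    refine ⟨2 • ζ, AddSubgroup.nsmul_mem _ h1 _, ?_, ?_⟩
    · rw [← mul_smul, ← pow_succ]
      exact h2
    · rw [← mul_smul, ← pow_succ]
      congr 2
      omega
  · intro x k hk
    have hfin : {ν : D.J ι → N | ∀ j, 2 • ν j = 0}.Finite := by
      have h1 : {n : N | 2 • n = 0}.Finite := @Set.toFinite _ _ hV
      have h2 := Set.Finite.pi' (fun _ : D.J ι => h1)
      exact h2
    have hsub : (D.Dk x k : Set (D.J ι → N)) ⊆ {ν | ∀ j, 2 • ν j = 0} := by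
      intro ν hν j
      have h1 := ((p1 x ν).1 (p4 x k hk hν)).2
      exact congrFun h1 j
    exact (hfin.subset hsub).to_subtype
  · rw [← hD.four]
    refine Nat.card_congr
      { toFun := fun t => ⟨(t : D.J ι → N) hJ.some, ?_⟩
        invFun := fun s => ⟨fun _ => s.1, s.1, s.2, rfl⟩
        left_inv := ?_
        right_inv := ?_ }
    · obtain ⟨t, s, hs, rfl⟩ := t
      exact hs
    · rintro ⟨t, s, hs, rfl⟩
      rfl
    · intro s
      rfl
  · intro N₀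
    have h : ∃ y : N, 4 • y = N₀ := by
      obtain ⟨y, hy⟩ := dk1_dvs hD.dvs 2 N₀
      exact ⟨y, by norm_num at hy; exact hy⟩
    unfold quar
    rw [dif_pos h]
    exact h.choose_spec
  · intro N₀
    unfold half
    split_ifs with h h'
    · rw [h, smul_zero]
    · exact h'.choose_spec
    · exact absurd (hD.dvs N₀) h'
  · unfold half
    rw [if_pos rfl]
  · intro x hx
    have hxS := hx.nS
    rintro (s | i) (s' | i') h
    · exact congrArg Sum.inl (Subtype.ext h)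
    · exact absurd (show x i' ∈ D.S by rw [← show s.1 = x i' from h]; exact s.2) (hxS i')
    · exact absurd (show x i ∈ D.S by rw [show x i = s'.1 from h]; exact s'.2) (hxS i)
    · exact congrArg Sum.inr (hx.inj h)

end Pool.Agent.MP72S
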