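import Pool.Agent.Lib.MP_72e2e6_nt.Sm.A.Spec3

/-!
# MP_72e2e6_nt, `Sm/A`: module `Fac`, the face functions form a system
-/

namespace Pool.Agent.MP72S

open Finset

private theorem Fac_congr {P ι A : Type} [DecidableEq ι] [AddCommGroup A] (x y : ι → P)
    (U : Finset ι) (f g : (ι → P) → A) (h : ∀ w ⊆ U, f (mx x y w) = g (mx x y w)) :
    alt x y U f = alt x y U g := by
  unfold alt
  apply sum_congr rfl
  intro w hw
  rw [h w (mem_powerset.mp hw)]

private theorem Fac_lc {G A κ : Type} [TopologicalSpace G] [AddCommGroup A] (s : Finset κ)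
    (a : κ → ℤ) (f : κ → G → A) (h : ∀ k ∈ s, IsLocallyConstant (f k)) :
    IsLocallyConstant (fun σ => ∑ k ∈ s, a k • f k σ) := by
  classical
  induction s using Finset.induction_on with
  | empty =>
      simp only [sum_empty]
      exact IsLocallyConstant.const 0
  | insert k s hk ih =>
      simp only [sum_insert hk]
      have h1 := h k (mem_insert_self _ _)
      have h2 := ih (fun k' hk' => h k' (mem_insert_of_mem hk'))
      exact (h1.comp (fun b => a k • b)).comp₂ h2 (fun a b => a + b)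

private theorem Fac_alt_lc {G N P ι : Type} [TopologicalSpace G] [DecidableEq ι]
    [AddCommGroup N] (x y : ι → P) (U : Finset ι) (f : (ι → P) → G → N)
    (h : ∀ w ⊆ U, IsLocallyConstant (f (mx x y w))) :
    IsLocallyConstant (fun σ => alt x y U (fun z => f z σ)) := by
  unfold alt
  exact Fac_lc _ _ (fun w => f (mx x y w)) (fun w hw => h w (mem_powerset.mp hw))

theorem tFac (hAlt : S_Alt) (hDif : S_Dif) (hGdf : S_Gdf) (hUq : S_Uq) (hLemB : S_LemB)
    (hPar : S_Par) : S_Fac := by
  intro G N P ι _ _ _ _ _ _ D hA x y I hG hI τ hτ hτi t ht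
  classical
  have hn : 1 ≤ #I := card_pos.mpr hI
  obtain ⟨hGf, hGy, hGS, _⟩ := hGdf D x y I hG
  have hmx0 : mx x y ∅ = x := (@hAlt P ι N _ _ x y ∅ (fun _ => 0) (fun _ => 0)).1
  have hmxm : ∀ W w, mx (mx x y W) y w = mx x y (W ∪ w) :=
    (@hAlt P ι N _ _ x y ∅ (fun _ => 0) (fun _ => 0)).2.2.2.1
  have halt0 : ∀ f : (ι → P) → N, alt x y ∅ f = f x := fun f =>
    (@hAlt P ι N _ _ x y ∅ f f).2.1
  have haltn : ∀ (x y : ι → P) (U : Finset ι) (n : ℕ) (f : (ι → P) → N),
      n • alt x y U f = alt x y U (fun z => n • f z) := fun x y U n f =>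
    ((@hAlt P ι N _ _ x y U f f).2.2.2.2.2.2.1 n).symm
  -- the type `τ`
  have hτZ : ∀ w ⊆ I, ∀ m : ℕ, m • τ ∈ D.Z (mx x y w) := by
    intro w hw m
    apply AddSubgroup.nsmul_mem
    rw [← (ht w hw).2]
    exact AddSubgroup.nsmul_mem _ (ht w hw).1 2
  have hcoc : ∀ (z : ι → P) (s : D.J ι → N), s ∈ D.Z z → ∀ (n : ℕ) (σ : G),
      n • D.coc z s σ = D.coc z (n • s) σ := fun z s hs n σ => ((hUq D hA z).2.2.1 s hs n σ).symm
  have hpow : ∀ a b : ℕ, a + b = #I → 2 ^ a • 2 ^ b • τ = 0 := by
    intro a b h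
    rw [smul_smul, ← pow_add, h, hτ]
  have hpowi : ∀ i ∈ I, ∀ a b : ℕ, a + b = #I - 1 → 2 ^ a • (2 ^ b • τ) (Sum.inr i) = 0 := by
    intro i hi a b h
    rw [Pi.smul_apply, smul_smul, ← pow_add, h]
    exact hτi i hi
  have hG' : ∀ U ⊆ I, D.Gd x y U := by
    intro U hU
    have := hGf ∅ (empty_subset _) U hU (disjoint_empty_left _)
    rwa [hmx0] at this
  have hfcI : ∀ σ, D.fc x y I τ t I σ = alt x y I (fun z => D.coc z (t z) σ) := by
    intro σ
    unfold Dat.fc
    rw [if_pos rfl]
  have hfcU : ∀ U, U ≠ I → ∀ σ, D.fc x y I τ t U σ =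
      alt x y U (fun z => D.coc z (2 ^ (#I - 1 - #U) • τ) σ) := by
    intro U hU σ
    unfold Dat.fc
    rw [if_neg hU]
  -- (1) two
  have htwo : ∀ U ⊆ I, ∀ σ, 2 • D.fc x y I τ t U σ = 0 := by
    intro U hU σ
    by_cases h : U = I
    · rw [h, hfcI, haltn]
      rw [Fac_congr x y I (fun z => 2 • D.coc z (t z) σ) (fun z => D.coc z τ σ)]
      · exact hLemB D hA x y I hG #I τ le_rfl hτ hτi (fun w hw => by
          have := hτZ w hw 1
          rwa [one_smul] at this) σ
      · intro w hw
        change 2 • D.coc (mx x y w) (t (mx x y w)) σ = D.coc (mx x y w) τ σ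
        rw [hcoc _ _ (ht w hw).1, (ht w hw).2]
    · have hc : #U < #I := card_lt_card (lt_of_le_of_ne hU h)
      rw [hfcU U h, haltn]
      rw [Fac_congr x y U (fun z => 2 • D.coc z (2 ^ (#I - 1 - #U) • τ) σ)
        (fun z => D.coc z (2 ^ (#I - #U) • τ) σ)]
      · refine hLemB D hA x y U (hG' U hU) #U (2 ^ (#I - #U) • τ) le_rfl
          (hpow _ _ (by omega)) ?_ (fun w hw => hτZ w (hw.trans hU) _) σ
        intro i hi
        have hU0 : 1 ≤ #U := card_pos.mpr ⟨i, hi⟩
        exact hpowi i (hU hi) _ _ (by omega)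
      · intro w hw
        change 2 • D.coc (mx x y w) (2 ^ (#I - 1 - #U) • τ) σ =
          D.coc (mx x y w) (2 ^ (#I - #U) • τ) σ
        rw [hcoc _ _ (hτZ w (hw.trans hU) _), smul_smul]
        have h1 : 2 * 2 ^ (#I - 1 - #U) = 2 ^ (#I - #U) := by
          rw [← pow_succ']
          congr 1
          omega
        rw [h1]
  -- the general step
  have hgen : ∀ (U : Finset ι), U ⊆ I → ∀ ty : (ι → P) → D.J ι → N,
      (∀ w ⊆ U, ty (mx x y w) ∈ D.Z (mx x y w)) →
      (∀ σ, D.fc x y I τ t U σ = alt x y U (fun z => D.coc z (ty z) σ)) →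
      (∀ W ⊆ U, W.Nonempty → ∀ w ⊆ U, W ⊆ w →
        2 ^ #W • ty (mx x y w) = 2 ^ (#I - 1 - #(U \ W)) • τ) →
      ∀ σ σ', D.fc x y I τ t U (σ * σ') = D.fc x y I τ t U σ +
        ∑ W ∈ (U.filter fun i => D.ch (x i) σ + D.ch (y i) σ = 1).powerset,
          D.fc x y I τ t (U \ W) σ' := by
    intro U hU ty hty hfc hW σ σ'
    have h1 := hDif D (fun z => D.coc z (ty z)) x y U σ σ'
    have h2 : alt x y U (fun z => D.coc z (ty z) σ + tw (D.chi z) σ (D.coc z (ty z) σ') -
        D.coc z (ty z) (σ * σ')) = 0 := by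
      rw [Fac_congr x y U _ (fun _ => 0)]
      · unfold alt
        simp
      · intro w hw
        have h3 := (Dat.coc_spec (hty w hw)).u.co σ σ'
        change D.coc (mx x y w) (ty (mx x y w)) σ + tw (D.chi (mx x y w)) σ
          (D.coc (mx x y w) (ty (mx x y w)) σ') - D.coc (mx x y w) (ty (mx x y w)) (σ * σ') = 0
        rw [h3, sub_self]
    have h3 : ∀ W ∈ (U.filter fun i => D.ch (x i) σ + D.ch (y i) σ = 1).powerset,
        2 ^ #W • alt (mx x y W) y (U \ W) (fun z => D.coc z (ty z) σ') =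
          D.fc x y I τ t (U \ W) σ' := by
      intro W hWm
      have hWU : W ⊆ U := (mem_powerset.mp hWm).trans (filter_subset _ _)
      rcases W.eq_empty_or_nonempty with hW0 | hW0
      · rw [hW0, card_empty, pow_zero, one_smul, hmx0, sdiff_empty, hfc]
      · have hWc : 1 ≤ #W := card_pos.mpr hW0
        have hWI : #W ≤ #I := card_le_card (hWU.trans hU)
        have hUW : #(U \ W) = #U - #W := card_sdiff_of_subset hWU
        have hUI : #U ≤ #I := card_le_card hU
        have hWUc : #W ≤ #U := card_le_card hWU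
        have hne : U \ W ≠ I := by
          intro h
          have := congrArg Finset.card h
          omega
        rw [hfcU _ hne, haltn]
        rw [Fac_congr (mx x y W) y (U \ W) _
          (fun z => D.coc z (2 ^ (#I - 1 - #(U \ W)) • τ) σ')]
        · refine hPar D hA x y I hG (U \ W) (sdiff_subset.trans hU) W (hWU.trans hU)
            sdiff_disjoint (2 ^ (#I - 1 - #(U \ W)) • τ) (hpow _ _ (by omega)) ?_
            (fun w hw => hτZ w hw _) σ'
          intro i hi
          exact hpowi i hi _ _ (by omega)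
        · intro w hw
          change 2 ^ #W • D.coc (mx (mx x y W) y w) (ty (mx (mx x y W) y w)) σ' =
            D.coc (mx (mx x y W) y w) (2 ^ (#I - 1 - #(U \ W)) • τ) σ'
          have hwU : W ∪ w ⊆ U := union_subset hWU (hw.trans sdiff_subset)
          rw [hmxm, hcoc _ _ (hty _ hwU), hW W hWU hW0 _ hwU subset_union_left]
    have h4 : 2 • (∑ W ∈ (U.filter fun i => D.ch (x i) σ + D.ch (y i) σ = 1).powerset,
        D.fc x y I τ t (U \ W) σ') = 0 := by
      rw [smul_sum]
      apply sum_eq_zero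
      intro W _
      exact htwo _ (sdiff_subset.trans hU) σ'
    rw [h2, sum_congr rfl h3, tw_two hA.tri h4, ← hfc, ← hfc] at h1
    have h5 : D.fc x y I τ t U σ + (∑ W ∈ (U.filter fun i => D.ch (x i) σ +
        D.ch (y i) σ = 1).powerset, D.fc x y I τ t (U \ W) σ') -
        D.fc x y I τ t U (σ * σ') = 0 := by
      rw [h1]
      abel
    exact (sub_eq_zero.mp h5).symm
  have hinf : ∀ i, x i ≠ D.inf := by
    intro i h
    have h1 := (hG.ok ∅ (empty_subset _)).nS i
    rw [hmx0, h] at h1
    exact h1 hA.infS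
  refine ⟨⟨htwo, ?_, ?_⟩, ?_, ?_⟩
  · -- hom
    intro i hi σ σ'
    have h1 : y i ≠ D.inf := by
      intro h
      have h2 := hGS i hi
      rw [h] at h2
      exact h2 hA.infS
    rw [(hA.chc _ (hinf i)).mul, (hA.chc _ h1).mul]
    abel
  · -- mul
    intro U hU
    by_cases h : U = I
    · refine hgen U hU t (fun w hw => (ht w (hw.trans hU)).1) ?_ ?_
      · intro σ
        rw [h]
        exact hfcI σ
      · intro W hW hW0 w hw _
        have hWc : 1 ≤ #W := card_pos.mpr hW0
        have hUW : #(U \ W) = #U - #W := card_sdiff_of_subset hW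
        have hWUc : #W ≤ #U := card_le_card hW
        have h1 : 2 ^ #W = 2 ^ (#I - 1 - #(U \ W)) * 2 := by
          rw [← pow_succ]
          congr 1
          rw [hUW, h]
          rw [h] at hWUc
          omega
        rw [h1, mul_smul, (ht w (hw.trans hU)).2]
    · have hc : #U < #I := card_lt_card (lt_of_le_of_ne hU h)
      refine hgen U hU (fun _ => 2 ^ (#I - 1 - #U) • τ) (fun w hw => hτZ w (hw.trans hU) _)
        (hfcU U h) ?_
      intro W hW hW0 w hw _
      have hUW : #(U \ W) = #U - #W := card_sdiff_of_subset hW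
      have hWUc : #W ≤ #U := card_le_card hW
      rw [smul_smul, ← pow_add]
      congr 2
      omega
  · -- locally constant
    intro U hU
    by_cases h : U = I
    · have h1 : D.fc x y I τ t U = fun σ => alt x y I (fun z => D.coc z (t z) σ) := by
        funext σ
        rw [h]
        exact hfcI σ
      rw [h1]
      exact Fac_alt_lc x y I (fun z => D.coc z (t z))
        (fun w hw => (Dat.coc_spec (ht w hw).1).u.lc)
    · have h1 : D.fc x y I τ t U =
          fun σ => alt x y U (fun z => D.coc z (2 ^ (#I - 1 - #U) • τ) σ) := by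
        funext σ
        exact hfcU U h σ
      rw [h1]
      exact Fac_alt_lc x y U (fun z => D.coc z (2 ^ (#I - 1 - #U) • τ))
        (fun w hw => (Dat.coc_spec (hτZ w (hw.trans hU) _)).u.lc)
  · intro σ
    rw [hfcU ∅ (fun h => hI.ne_empty h.symm), halt0, card_empty, Nat.sub_zero]

end Pool.Agent.MP72S
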