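import Pool.Agent.Lib.MP_72e2e6_nt.Sm.A.Spec3

namespace Pool.Agent.MP72S

open Finset

private lemma finT_dif {G N ι : Type} [Group G] [TopologicalSpace G] [AddCommGroup N]
    [DecidableEq ι] {I : Finset ι} {c : ι → G → ZMod 2} {F F' : Finset ι → G → N}
    (h : Sys I c F) (h' : Sys I c F') {U : Finset ι} (hU : U ⊆ I)
    (hl : IsLocallyConstant (F U)) (hl' : IsLocallyConstant (F' U))
    (he : ∀ U' ⊂ U, F U' = F' U') : IsHo fun σ => F U σ - F' U σ := by
  refine ⟨hl.sub hl', ?_, ?_⟩
  · intro σ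
    rw [smul_sub, h.two U hU, h'.two U hU, sub_zero]
  · intro σ τ
    rw [h.mul U hU, h'.mul U hU]
    have key : ∑ W ∈ (U.filter fun i => c i σ = 1).powerset, F (U \ W) τ -
        ∑ W ∈ (U.filter fun i => c i σ = 1).powerset, F' (U \ W) τ = F U τ - F' U τ := by
      rw [← Finset.sum_sub_distrib, Finset.sum_eq_single ∅]
      · rw [Finset.sdiff_empty]
      · intro W hW hne
        have hWU : W ⊆ U := (Finset.mem_powerset.mp hW).trans (Finset.filter_subset _ _)
        have hss : U \ W ⊂ U := by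
          refine (Finset.ssubset_iff_subset_ne).mpr ⟨Finset.sdiff_subset, ?_⟩
          intro h0
          obtain ⟨i, hi⟩ := Finset.nonempty_iff_ne_empty.mpr hne
          have h1 : i ∈ U \ W := by rw [h0]; exact hWU hi
          exact (Finset.mem_sdiff.mp h1).2 hi
        rw [he _ hss, sub_self]
      · intro h0
        exact absurd (Finset.empty_mem_powerset _) h0
    rw [← key]
    abel

theorem tFinT (hHom : S_Hom) : S_FinT := by
  intro G N P ι _ _ _ _ _ D hD I c A
  set S : Set (Finset ι → G → N) := {F | Sys I c F ∧ (∀ U ⊆ I, IsLocallyConstant (F U) ∧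
      ∀ v, v ∉ A → F U (D.tau v) = 0) ∧ ∀ U, ¬ U ⊆ I → F U = 0} with hS
  have hH := (hHom D hD).2.2 A
  set H : Set (G → N) := {θ | IsHo θ ∧ ∀ v, v ∉ A → θ (D.tau v) = 0} with hHd
  have hC : ∀ U : Finset ι, U ⊆ I → ((fun F : Finset ι → G → N => F U) '' S).Finite := by
    intro U
    induction U using Finset.strongInduction with
    | H U ih =>
      intro hU
      -- the restriction to proper subsets
      let r : (Finset ι → G → N) → ({U' // U' ∈ U.ssubsets} → G → N) := fun F U' => F U'.1
      have hr : (r '' S).Finite := by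
        have h1 : {f : {U' // U' ∈ U.ssubsets} → G → N |
            ∀ U' : {U' // U' ∈ U.ssubsets}, f U' ∈ (fun F : Finset ι → G → N => F U'.1) '' S}.Finite :=
          Set.Finite.pi' fun U' => ih U'.1 (Finset.mem_ssubsets.mp U'.2)
            ((Finset.mem_ssubsets.mp U'.2).subset.trans hU)
        refine h1.subset ?_
        rintro _ ⟨F, hF, rfl⟩ U'
        exact ⟨F, hF, rfl⟩
      have h2 : (⋃ p ∈ r '' S, {g : G → N | ∃ F ∈ S, r F = p ∧ F U = g}).Finite := by
        refine hr.biUnion ?_
        rintro p ⟨F0, hF0, hp⟩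
        refine (hH.image (fun θ => F0 U + θ)).subset ?_
        rintro g ⟨F, hF, hrF, rfl⟩
        refine ⟨fun σ => F U σ - F0 U σ, ⟨?_, ?_⟩, ?_⟩
        · refine finT_dif hF.1 hF0.1 hU (hF.2.1 U hU).1 (hF0.2.1 U hU).1 ?_
          intro U' hU'
          have := congrFun (hrF.trans hp.symm) ⟨U', Finset.mem_ssubsets.mpr hU'⟩
          exact this
        · intro v hv
          change F U (D.tau v) - F0 U (D.tau v) = 0
          rw [(hF.2.1 U hU).2 v hv, (hF0.2.1 U hU).2 v hv, sub_zero]
        · funext σ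
          simp
      refine h2.subset ?_
      rintro _ ⟨F, hF, rfl⟩
      simp only [Set.mem_iUnion]
      exact ⟨r F, ⟨F, hF, rfl⟩, F, hF, rfl, rfl⟩
  -- the restriction to the subsets of I
  let r : (Finset ι → G → N) → ({U' // U' ∈ I.powerset} → G → N) := fun F U' => F U'.1
  have hr : (r '' S).Finite := by
    have h1 : {f : {U' // U' ∈ I.powerset} → G → N |
        ∀ U' : {U' // U' ∈ I.powerset}, f U' ∈ (fun F : Finset ι → G → N => F U'.1) '' S}.Finite :=
      Set.Finite.pi' fun U' => hC U'.1 (Finset.mem_powerset.mp U'.2)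
    refine h1.subset ?_
    rintro _ ⟨F, hF, rfl⟩ U'
    exact ⟨F, hF, rfl⟩
  refine Set.Finite.of_finite_image hr ?_
  intro F hF F' hF' h
  funext U
  by_cases hU : U ⊆ I
  · exact congrFun h ⟨U, Finset.mem_powerset.mpr hU⟩
  · rw [hF.2.2 U hU, hF'.2.2 U hU]

end Pool.Agent.MP72S
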