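import Pool.Agent.Lib.MP_72e2e6_nt.Sm.A.Spec2

namespace Pool.Agent.MP72S

open Finset

private theorem Gam_cnt {A : Type} [AddCommGroup A] (W Y : AddSubgroup A) (hYW : Y ≤ W)
    (h2 : ∀ w ∈ W, 2 • w = 0) [Finite W] (O : Set (A → ZMod 2)) (hO : O.Finite)
    (hc : Nat.card Y * O.ncard < Nat.card W) :
    ∃ γ : A → ZMod 2, (∀ ν ∈ W, ∀ ν' ∈ W, γ (ν + ν') = γ ν + γ ν') ∧ (∀ ν ∈ Y, γ ν = 0) ∧
      (∀ ν, ν ∉ W → γ ν = 0) ∧ γ ∉ O := by
  classical
  by_contra hcon
  push Not at hcon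
  let Q := W ⧸ Y.addSubgroupOf W
  have : Finite Q := inferInstance
  have h2Q : ∀ q : Q, 2 • q = 0 := by
    intro q
    induction q using QuotientAddGroup.induction_on with
    | H w =>
      have : (2 : ℕ) • w = 0 := Subtype.ext (h2 w.1 w.2)
      rw [← QuotientAddGroup.mk_nsmul, this, QuotientAddGroup.mk_zero]
  let : Module (ZMod 2) Q := AddCommGroup.zmodModule h2Q
  have : Module.Finite (ZMod 2) Q := Module.Finite.of_finite
  have : Fact (Nat.Prime 2) := ⟨Nat.prime_two⟩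
  let F : Module.Dual (ZMod 2) Q → A → ZMod 2 := fun φ ν =>
    if h : ν ∈ W then φ (QuotientAddGroup.mk (⟨ν, h⟩ : W)) else 0
  have hF : ∀ φ, F φ ∈ O := by
    intro φ
    refine hcon (F φ) ?_ ?_ ?_
    · intro ν hν ν' hν'
      have h3 : ν + ν' ∈ W := W.add_mem hν hν'
      simp only [F, dif_pos hν, dif_pos hν', dif_pos h3]
      rw [← map_add]
      rfl
    · intro ν hν
      simp only [F, dif_pos (hYW hν)]
      have : (QuotientAddGroup.mk (⟨ν, hYW hν⟩ : W) : Q) = 0 := by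
        rw [QuotientAddGroup.eq_zero_iff]
        exact hν
      rw [this, map_zero]
    · intro ν hν
      simp only [F, dif_neg hν]
  have hinj : Function.Injective F := by
    intro φ φ' h
    ext q
    induction q using QuotientAddGroup.induction_on with
    | H w =>
      have := congrFun h w.1
      simpa only [F, dif_pos w.2] using this
  have h1 : Nat.card (Module.Dual (ZMod 2) Q) ≤ O.ncard := by
    have : Finite O := hO
    rw [← Nat.card_coe_set_eq]
    exact Nat.card_le_card_of_injective (fun φ => (⟨F φ, hF φ⟩ : O))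
      (fun a b h => hinj (congrArg Subtype.val h))
  have h3 : Nat.card (Module.Dual (ZMod 2) Q) = Nat.card Q := by
    rw [Module.natCard_eq_pow_finrank (K := ZMod 2), Subspace.dual_finrank_eq,
      ← Module.natCard_eq_pow_finrank (K := ZMod 2)]
  have h4 : Nat.card W = Nat.card Q * Nat.card (Y.addSubgroupOf W) :=
    AddSubgroup.card_eq_card_quotient_mul_card_addSubgroup _
  have h5 : Nat.card (Y.addSubgroupOf W) = Nat.card Y :=
    Nat.card_congr (AddSubgroup.addSubgroupOfEquivOfLe hYW).toEquiv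
  rw [h4, h5, ← h3] at hc
  have : Nat.card Y * O.ncard < O.ncard * Nat.card Y :=
    lt_of_lt_of_le hc (Nat.mul_le_mul_right _ h1)
  rw [mul_comm] at this
  exact lt_irrefl _ this

theorem tGam : S_Dk1 → S_Cou → S_Gam := by
  intro hDk1 hCou G N P ι _ _ _ _ _ _ D hAx x hx k hk h16 f hf hfT
  classical
  obtain ⟨hd1, hd2, -, hd4, hd5, hd6, -⟩ := hDk1 (ι := ι) D hAx
  obtain ⟨hO, hOc⟩ := hCou (ι := ι) D hAx x hx k hk
  have := hd5 x 1 le_rfl
  have hT1 : D.T ι ≤ D.Dk x 1 := hd2 x hx 1 le_rfl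
  have hf1 : f ∈ D.Dk x 1 := hd4 x k hk hf
  have h2W : ∀ w ∈ D.Dk x 1, 2 • w = 0 := fun w hw => ((hd1 x w).1 hw).2
  have : Finite (D.T ι) := Nat.finite_of_card_ne_zero (by rw [hd6]; norm_num)
  let Y : AddSubgroup (D.J ι → N) := D.T ι ⊔ AddSubgroup.zmultiples f
  have hYW : Y ≤ D.Dk x 1 := sup_le hT1 (by rwa [AddSubgroup.zmultiples_le])
  have hYc : Nat.card Y ≤ 8 := by
    have hs : ∀ y : Y, ∃ p : D.T ι × Bool, p.1.1 + (if p.2 then f else 0) = y.1 := by
      rintro ⟨y, hy⟩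
      obtain ⟨t, ht, z, hz, rfl⟩ := AddSubgroup.mem_sup.1 hy
      obtain ⟨n, rfl⟩ := AddSubgroup.mem_zmultiples_iff.1 hz
      have h2f : (2 : ℤ) • f = 0 := by
        have := h2W f hf1
        rw [two_zsmul, ← two_nsmul, this]
      rcases Int.even_or_odd' n with ⟨m, rfl | rfl⟩
      · exact ⟨(⟨t, ht⟩, false), by simp [mul_comm 2 m, mul_smul, h2f]⟩
      · exact ⟨(⟨t, ht⟩, true), by simp [add_smul, mul_comm 2 m, mul_smul, h2f]⟩
    choose p hp using hs
    have hpi : Function.Injective p := by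
      intro a b h
      apply Subtype.ext
      rw [← hp a, ← hp b, h]
    calc Nat.card Y ≤ Nat.card (D.T ι × Bool) := Nat.card_le_card_of_injective p hpi
      _ = 8 := by rw [Nat.card_prod, hd6]; simp
  have hW0 : 0 < Nat.card (D.Dk x 1) := Nat.card_pos
  have hc : Nat.card Y * (D.O x k).ncard < Nat.card (D.Dk x 1) := by
    have h1 : (D.O x k).ncard * 16 ≤ Nat.card (D.Dk x 1) :=
      le_trans (Nat.mul_le_mul_left _ h16) hOc
    have h2 : Nat.card Y * (D.O x k).ncard ≤ 8 * (D.O x k).ncard := Nat.mul_le_mul_right _ hYc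
    omega
  obtain ⟨γ, g1, g2, g3, g4⟩ := Gam_cnt (D.Dk x 1) Y hYW h2W (D.O x k) hO hc
  exact ⟨γ, g1, fun ν hν => g2 ν (AddSubgroup.mem_sup_left hν),
    g2 f (AddSubgroup.mem_sup_right (AddSubgroup.mem_zmultiples f)), g3, g4⟩

end Pool.Agent.MP72S
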