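import Pool.Agent.Lib.MP_72e2e6_nt.Sm.A.Spec1

/-!
# MP_72e2e6_nt, `Sm/A/Hom`: homomorphisms to `V`
-/

namespace Pool.Agent.MP72S

open Finset

private def homBr {N : Type} [AddCommGroup N] (a : ZMod 2) (u : N) : N := if a = 0 then 0 else u

private theorem homBr_add {N : Type} [AddCommGroup N] (a b : ZMod 2) {u : N} (hu : 2 • u = 0) :
    homBr (a + b) u = homBr a u + homBr b u := by
  rw [two_nsmul] at hu
  rcases zmod2 a with rfl | rfl <;> rcases zmod2 b with rfl | rfl
  · simp [homBr]
  · simp [homBr]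
  · simp [homBr]
  · rw [show (1 : ZMod 2) + 1 = 0 from rfl, homBr, if_pos rfl, homBr, if_neg one_ne_zero, hu]

private theorem homBr_two {N : Type} [AddCommGroup N] (a : ZMod 2) {u : N} (hu : 2 • u = 0) :
    2 • homBr a u = 0 := by
  unfold homBr
  split_ifs
  · exact smul_zero _
  · exact hu

private theorem hom_lc {G N : Type} [TopologicalSpace G] [AddCommGroup N] {κ : Type}
    (s : Finset κ) (f : κ → G → N) (hf : ∀ k ∈ s, IsLocallyConstant (f k)) :
    IsLocallyConstant fun σ => ∑ k ∈ s, f k σ := by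
  classical
  induction s using Finset.induction_on with
  | empty =>
    simp only [sum_empty]
    exact IsLocallyConstant.const (0 : N)
  | insert a s ha ih =>
    simp only [sum_insert ha]
    exact (hf a (mem_insert_self a s)).comp₂ (ih fun k hk => hf k (mem_insert_of_mem hk))
      (fun a b => a + b)

theorem tHom : S_Hom := by
  intro G N P _ _ _ _ D hA
  have h1 : ∀ θ : G → N, IsHo θ → (∀ v, θ (D.tau v) = 0) → θ (D.phi D.inf) = 0 →
      ∀ σ, θ σ = 0 := by
    intro θ hθ ht hp σ
    apply hA.e_nd _ (hθ.two σ)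
    intro s hs
    have he0 : D.e 0 s = 0 := by
      have := hA.e_add 0 0 s (smul_zero _) (smul_zero _) hs
      rw [add_zero] at this
      exact left_eq_add.1 this
    apply hA.uni (fun σ => D.e (θ σ) s)
    · refine ⟨hθ.lc.comp fun a => D.e a s, fun σ τ => ?_⟩
      simp only [hθ.mul]
      exact hA.e_add _ _ _ (hθ.two σ) (hθ.two τ) hs
    · intro v
      simp only [ht v, he0]
    · simp only [hp, he0]
  refine ⟨h1, ?_, ?_⟩
  · intro A u c hinf hu hc
    have hne : ∀ v ∈ A, v ≠ D.inf := fun v hv h => hinf (h ▸ hv)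
    refine ⟨fun σ => ∑ v ∈ A, homBr (D.ch v σ) (u v) + homBr (D.cst σ) c, ⟨?_, ?_, ?_⟩, ?_, ?_, ?_⟩
    · refine IsLocallyConstant.comp₂ (hom_lc A (fun v σ => homBr (D.ch v σ) (u v)) ?_) ?_
        (fun a b => a + b)
      · intro v hv
        exact (hA.chc v (hne v hv)).lc.comp fun a => homBr a (u v)
      · exact hA.cstc.lc.comp fun a => homBr a c
    · intro σ
      rw [smul_add, homBr_two _ hc, add_zero, Finset.smul_sum]
      exact Finset.sum_eq_zero fun v _ => homBr_two _ (hu v)
    · intro σ τ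
      rw [hA.cstc.mul, homBr_add _ _ hc]
      have : ∑ v ∈ A, homBr (D.ch v (σ * τ)) (u v) =
          ∑ v ∈ A, homBr (D.ch v σ) (u v) + ∑ v ∈ A, homBr (D.ch v τ) (u v) := by
        rw [← Finset.sum_add_distrib]
        apply Finset.sum_congr rfl
        intro v hv
        rw [(hA.chc v (hne v hv)).mul, homBr_add _ _ (hu v)]
      rw [this]
      abel
    · intro w hw
      beta_reduce
      rw [hA.cst_tau, homBr, if_pos rfl, add_zero, Finset.sum_eq_single w]
      · rw [hA.ch_tau w (hne w hw), homBr, if_neg one_ne_zero]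
      · intro v hv hvw
        rw [hA.ch_tau' v w (hne v hv) (hne w hw) hvw, homBr, if_pos rfl]
      · intro h
        exact absurd hw h
    · intro w hw hwi
      beta_reduce
      rw [hA.cst_tau, homBr, if_pos rfl, add_zero]
      apply Finset.sum_eq_zero
      intro v hv
      rw [hA.ch_tau' v w (hne v hv) hwi (fun h => hw (h ▸ hv)), homBr, if_pos rfl]
    · beta_reduce
      rw [hA.cst_inf, homBr, if_neg one_ne_zero, Finset.sum_eq_zero, zero_add]
      intro v hv
      rw [hA.ch_inf v (hne v hv), homBr, if_pos rfl]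
  · intro A
    have hV : {a : N | 2 • a = 0}.Finite := by
      have : Finite {x : N // 2 • x = 0} := Nat.finite_of_card_ne_zero (by rw [hA.four]; norm_num)
      exact Set.finite_coe_iff.1 this
    apply Set.Finite.of_injOn (f := fun θ : G → N => ((fun v : A => θ (D.tau v)), θ (D.phi D.inf)))
      (t := (Set.pi Set.univ fun _ : A => {a : N | 2 • a = 0}) ×ˢ {a : N | 2 • a = 0})
    · intro θ hθ
      exact ⟨fun v _ => hθ.1.two _, hθ.1.two _⟩
    · intro θ hθ θ' hθ' heq
      have he := Prod.mk.injEq _ _ _ _ ▸ heq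
      funext σ
      have hd : IsHo fun σ => θ σ - θ' σ := by
        refine ⟨hθ.1.lc.comp₂ hθ'.1.lc (fun a b => a - b), fun σ => ?_, fun σ τ => ?_⟩
        · rw [smul_sub, hθ.1.two, hθ'.1.two, sub_zero]
        · rw [hθ.1.mul, hθ'.1.mul]
          abel
      apply sub_eq_zero.1
      apply h1 _ hd
      · intro v
        by_cases hv : v ∈ A
        · have := congrFun he.1 ⟨v, hv⟩
          exact sub_eq_zero.2 this
        · simp only [hθ.2 v hv, hθ'.2 v hv, sub_zero]
      · exact sub_eq_zero.2 he.2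
    · exact (Set.Finite.pi fun _ => hV).prod hV

end Pool.Agent.MP72S
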