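import Pool.Agent.Lib.MP_72e2e6_nt.Sm.A.Spec2

/-!
# MP_72e2e6_nt, `Sm/A/Iso`: isotropy of the local images
-/

set_option autoImplicit false

namespace Pool.Agent.MP72S

section

variable {G N P : Type} [Group G] [TopologicalSpace G] [AddCommGroup N] [DistribMulAction G N]
  {D : Dat G N P}

private theorem iso_v (hA : Ax D) (g : G) {R : N} (hR : 4 • R = 0) : 2 • (g • R - R) = 0 := by
  have h2 : 2 • (2 • R) = 0 := by rw [smul_smul]; exact hR
  rw [smul_sub, ← smul_comm g 2 R, hA.tri g _ h2, sub_self]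

/-- `τ ^ 4` is trivial on the elements killed by `8`. -/
private theorem iso_four (hA : Ax D) (g : G) {x : N} (hx : 8 • x = 0) : g ^ 4 • x = x := by
  have h4 : 2 • (4 • x) = 0 := by rw [smul_smul]; exact hx
  have hy : 4 • (g • x - x) = 0 := by
    rw [smul_sub, ← smul_comm g 4 x, hA.tri g _ h4, sub_self]
  have hz : 2 • (g • (g • x - x) - (g • x - x)) = 0 := iso_v hA g hy
  obtain ⟨y, hydef⟩ : ∃ y, y = g • x - x := ⟨_, rfl⟩
  rw [← hydef] at hy hz
  obtain ⟨z, hzdef⟩ : ∃ z, z = g • y - y := ⟨_, rfl⟩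
  rw [← hzdef] at hz
  have e1 : g • x = x + y := by rw [hydef]; abel
  have e2 : g • y = y + z := by rw [hzdef]; abel
  have e3 : g • z = z := hA.tri g z hz
  have e4 : g ^ 4 • x = g • g • g • g • x := by
    rw [pow_succ, pow_succ, pow_succ, pow_one, mul_smul, mul_smul, mul_smul]
  have e5 : g • g • g • g • x = x + 4 • y + 6 • z := by
    simp only [e1, e2, e3, smul_add]
    abel
  have e6 : 6 • z = 0 := by
    rw [show (6 : ℕ) = 3 * 2 from rfl, mul_smul, hz, smul_zero]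
  rw [e4, e5, hy, e6, add_zero, add_zero]

private theorem iso_pow (hA : Ax D) (v : P) {x : N} (hx : 8 • x = 0) :
    D.tau v ^ D.nq v • x = D.tau v • x := by
  obtain ⟨k, hk⟩ : ∃ k, D.nq v = 4 * k + 1 := ⟨D.nq v / 4, by have := hA.q4 v; omega⟩
  have h1 : ∀ k : ℕ, D.tau v ^ (4 * k) • x = x := by
    intro k
    induction k with
    | zero => rw [mul_zero, pow_zero, one_smul]
    | succ k ih => rw [Nat.mul_succ, pow_add, mul_smul, iso_four hA _ hx, ih]
  rw [hk, pow_succ', mul_smul, h1]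

private theorem iso_comm (hA : Ax D) (v : P) {s : N} (hs : 8 • s = 0) :
    D.phi v • (D.tau v • s - s) - (D.tau v • s - s) =
      D.tau v • (D.phi v • s - s) - (D.phi v • s - s) := by
  have h1 : D.phi v • D.tau v • s = D.tau v • D.phi v • s := by
    rw [← mul_smul, hA.rel v, mul_smul, iso_pow hA v]
    rw [← smul_comm (D.phi v) 8 s, hs, smul_zero]
  rw [smul_sub, smul_sub, h1]
  abel

private theorem iso_zero {χ : G → ZMod 2} {g : G} (h : χ g = 0) (x : N) :
    tw χ g x - x = g • x - x := by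
  rw [tw, h, sg_zero']

private theorem iso_neg {x : N} (h : 2 • x = 0) : -x = x := by
  rw [two_nsmul] at h
  exact neg_eq_of_add_eq_zero_left h

private theorem iso_one (hA : Ax D) {χ : G → ZMod 2} {g : G} (h : χ g = 1) {x : N}
    (hx : 4 • x = 0) : tw χ g x - x = (g • x - x) + 2 • x := by
  rw [tw, h, sg_one']
  have h1 := iso_neg (iso_v hA g hx)
  have h2 : 2 • (2 • x) = 0 := by rw [smul_smul]; exact hx
  have h3 := iso_neg h2
  have h4 : -(g • x) - x = -(g • x - x) + -(2 • x) := by rw [two_nsmul]; abel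
  rw [h4, h1, h3]

private theorem iso_key (hA : Ax D) (hM : S_Msa) (χ : G → ZMod 2) (t f : G) {R R' S S' : N}
    (hR : 4 • R = 0) (hS : 4 • S = 0) (hS' : 4 • S' = 0)
    (h1 : 2 • S = tw χ f R' - R') (h2 : 2 • S' = tw χ t R' - R')
    (h3 : tw χ t S - S = tw χ f S' - S') :
    D.e (tw χ t R - R) (tw χ f R' - R') + D.e (tw χ f R - R) (tw χ t R' - R') = 0 := by
  rw [← h1, ← h2, (hM D hA χ t R S hR hS).2.2.2, (hM D hA χ f R S' hR hS').2.2.2, h3]
  exact CharTwo.add_self_eq_zero _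

end

theorem tIso : S_Msa → S_Iso := by
  intro hM G N P _ _ _ _ D hA χ v R R' hR hR'
  obtain ⟨s, hs⟩ := hA.dvs R'
  have hs8 : 8 • s = 0 := by
    rw [show (8 : ℕ) = 4 * 2 from rfl, mul_smul, hs, hR']
  have hc := iso_comm hA v hs8
  obtain ⟨w, hw⟩ : ∃ w, w = D.phi v • s - s := ⟨_, rfl⟩
  obtain ⟨u, hu⟩ : ∃ u, u = D.tau v • s - s := ⟨_, rfl⟩
  rw [← hw, ← hu] at hc
  have hw2 : 2 • w = D.phi v • R' - R' := by
    rw [hw, smul_sub, ← smul_comm (D.phi v) 2 s, hs]
  have hu2 : 2 • u = D.tau v • R' - R' := by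
    rw [hu, smul_sub, ← smul_comm (D.tau v) 2 s, hs]
  have hw4 : 4 • w = 0 := by
    rw [show (4 : ℕ) = 2 * 2 from rfl, mul_smul, hw2, iso_v hA _ hR']
  have hu4 : 4 • u = 0 := by
    rw [show (4 : ℕ) = 2 * 2 from rfl, mul_smul, hu2, iso_v hA _ hR']
  have hw4' : 4 • (w + R') = 0 := by rw [smul_add, hw4, hR', add_zero]
  have hu4' : 4 • (u + R') = 0 := by rw [smul_add, hu4, hR', add_zero]
  rcases zmod2 (χ (D.tau v)) with ht | ht <;> rcases zmod2 (χ (D.phi v)) with hf | hf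
  · refine iso_key hA hM χ _ _ hR hw4 hu4 ?_ ?_ ?_
    · rw [iso_zero hf, hw2]
    · rw [iso_zero ht, hu2]
    · rw [iso_zero hf, iso_zero ht, hc]
  · refine iso_key hA hM χ _ _ hR hw4' hu4 ?_ ?_ ?_
    · rw [iso_one hA hf hR', smul_add, hw2]
    · rw [iso_zero ht, hu2]
    · rw [iso_zero ht, iso_one hA hf hu4, hc, hu2, smul_add]
      abel
  · refine iso_key hA hM χ _ _ hR hw4 hu4' ?_ ?_ ?_
    · rw [iso_zero hf, hw2]
    · rw [iso_one hA ht hR', smul_add, hu2]
    · rw [iso_zero hf, iso_one hA ht hw4, hw2, smul_add]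
      have h5 : D.phi v • u = D.tau v • w - w + u := by rw [← hc]; abel
      rw [h5]
      abel
  · refine iso_key hA hM χ _ _ hR hw4' hu4' ?_ ?_ ?_
    · rw [iso_one hA hf hR', smul_add, hw2]
    · rw [iso_one hA ht hR', smul_add, hu2]
    · rw [iso_one hA ht hw4', iso_one hA hf hu4', smul_add, smul_add, smul_add, smul_add, hw2, hu2]
      have h5 : D.phi v • u = D.tau v • w - w + u := by rw [← hc]; abel
      rw [h5]
      abel

end Pool.Agent.MP72S
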