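import Pool.Agent.Lib.MP_72e2e6_nt.Sm.A.Spec2

/-!
# MP_72e2e6_nt, `Sm/A`: the local invariant of a coboundary
-/

namespace Pool.Agent.MP72S

open Finset

private theorem ivd_sum {G : Type} [Group G] (l : G → ZMod 2) (t : G) (m : ℕ) :
    ∑ i ∈ range m, (l (t ^ (i + 1)) + l t - l (t ^ (i + 1) * t)) =
      m * l t + l t - l (t ^ (m + 1)) := by
  induction m with
  | zero => simp
  | succ m ih =>
    rw [sum_range_succ, ih, ← pow_succ]
    push_cast
    ring

theorem tIvd : S_Ivd := by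
  intro G N P _ _ _ _ D hD l v
  have hq := hD.q4 v
  have hrel := hD.rel v
  obtain ⟨m, hm⟩ : ∃ m, D.nq v = 2 * m + 1 := ⟨D.nq v / 2, by omega⟩
  unfold Dat.iv
  rw [ivd_sum]
  beta_reduce
  rw [hrel]
  have h1 : D.nq v - 1 + 1 = D.nq v := by omega
  have h2 : ((D.nq v - 1 : ℕ) : ZMod 2) = 0 := by
    rw [hm]
    have h3 : 2 * m + 1 - 1 = 2 * m := by omega
    rw [h3]
    push_cast
    have h4 : (2 : ZMod 2) = 0 := rfl
    rw [h4, zero_mul]
  rw [h1, h2]
  ring

end Pool.Agent.MP72S
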