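import Pool.Agent.Lib.MP_72e2e6_nt.Sm.A.Spec1

/-!
# MP_72e2e6_nt, `Sm/A/LemB`: alternating sums of Selmer cocycles over good cubes vanish
-/

namespace Pool.Agent.MP72S

open Finset

private theorem LemB_lc_sum {X A κ : Type} [TopologicalSpace X] [AddCommGroup A] (s : Finset κ)
    (f : κ → X → A) (h : ∀ i ∈ s, IsLocallyConstant (f i)) :
    IsLocallyConstant (fun x => ∑ i ∈ s, f i x) := by
  classical
  induction s using Finset.induction_on with
  | empty =>
    simp only [sum_empty]
    exact IsLocallyConstant.const (0 : A)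
  | insert i s hi ih =>
    have h1 := ih fun k hk => h k (mem_insert_of_mem hk)
    have h2 := h i (mem_insert_self i s)
    have h3 := h2.comp₂ h1 (fun a b => a + b)
    simpa [sum_insert hi] using h3

private theorem LemB_congr {P ι A : Type} [DecidableEq ι] [AddCommGroup A] (x y : ι → P)
    (U : Finset ι) (f g : (ι → P) → A) (h : ∀ w ⊆ U, f (mx x y w) = g (mx x y w)) :
    alt x y U f = alt x y U g := by
  unfold alt
  exact sum_congr rfl fun w hw => by rw [h w (mem_powerset.mp hw)]

private theorem LemB_zero {P ι A : Type} [DecidableEq ι] [AddCommGroup A] (x y : ι → P)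
    (U : Finset ι) (f : (ι → P) → A) (h : ∀ w ⊆ U, f (mx x y w) = 0) :
    alt x y U f = 0 := by
  unfold alt
  exact sum_eq_zero fun w hw => by rw [h w (mem_powerset.mp hw), smul_zero]

private theorem LemB_const (hAlt : S_Alt) {P ι A : Type} [DecidableEq ι] [AddCommGroup A]
    (x y : ι → P) (U : Finset ι) (f : (ι → P) → A) (a : A) (h : ∀ w ⊆ U, f (mx x y w) = a)
    (hU : U.Nonempty ∨ a = 0) : alt x y U f = 0 := by
  rcases hU with hU | rfl
  · rw [LemB_congr x y U f (fun _ => a) h]
    exact (hAlt x y U f f).2.2.2.2.2.2.2 a hU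
  · exact LemB_zero x y U f h

private theorem LemB_pow {A : Type} [AddCommGroup A] {t : A} {j a : ℕ} (h : 2 ^ j • t = 0)
    (hj : j ≤ a) : 2 ^ a • t = 0 := by
  obtain ⟨b, rfl⟩ := Nat.exists_eq_add_of_le hj
  rw [pow_add, mul_comm, mul_smul, h, smul_zero]

theorem tLemB : S_Alt → S_Dif → S_Gdf → S_Hom → S_Uq → S_Tai → S_Chi → S_Lfx → S_LemB := by
  intro hAlt hDif hGdf hHom hUq hTai hChi hLfx G N P ι _ _ _ _ _ _ D hD x y U hG j
  induction j using Nat.strong_induction_on generalizing x y U with
  | _ j IH =>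
  intro t hj ht hti hZ
  have hsp : ∀ w ⊆ U, D.IsZ (mx x y w) t (D.coc (mx x y w) t) := fun w hw =>
    D.coc_spec (hZ w hw)
  have hmx0 : mx x y ∅ = x := (hAlt x y U (fun _ => (0 : ℤ)) (fun _ => 0)).1
  have hmxi : ∀ i w, mx (Function.update x i (y i)) y w = mx x y (insert i w) :=
    (hAlt x y U (fun _ => (0 : ℤ)) (fun _ => 0)).2.2.1
  have hmxu : ∀ W w, mx (mx x y W) y w = mx x y (W ∪ w) :=
    (hAlt x y U (fun _ => (0 : ℤ)) (fun _ => 0)).2.2.2.1
  rcases Nat.eq_zero_or_pos j with rfl | hj1
  · intro σ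
    have ht0 : t = 0 := by simpa using ht
    subst ht0
    exact LemB_zero _ _ _ _ fun w _ => (hUq D hD _).2.2.2.1 σ
  have hUne : U.Nonempty := card_pos.mp (lt_of_lt_of_le hj1 hj)
  -- the values at higher levels
  have key : ∀ W ⊆ U, W.Nonempty → ∀ τ,
      2 ^ #W • alt (mx x y W) y (U \ W) (fun z => D.coc z t τ) = 0 := by
    intro W hW hWn τ
    have h1 := (hAlt (mx x y W) y (U \ W) (fun z => D.coc z t τ) (fun z => D.coc z t τ)).2.2.2.2.2.2.1
      (2 ^ #W)
    rw [← h1]
    have h2 : alt (mx x y W) y (U \ W) (fun z => 2 ^ #W • D.coc z t τ) =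
        alt (mx x y W) y (U \ W) (fun z => D.coc z (2 ^ #W • t) τ) := by
      refine LemB_congr _ _ _ _ _ fun w hw => ?_
      rw [hmxu]
      exact ((hUq D hD _).2.2.1 t (hZ _ (union_subset hW (hw.trans sdiff_subset))) _ τ).symm
    rw [h2]
    have hcW : 1 ≤ #W := card_pos.mpr hWn
    have hcU : #(U \ W) = #U - #W := card_sdiff_of_subset hW
    refine IH (j - #W) (by omega) (mx x y W) y (U \ W)
      ((hGdf D x y U hG).1 W hW (U \ W) sdiff_subset disjoint_sdiff) (2 ^ #W • t) ?_ ?_ ?_ ?_ τ
    · rw [hcU]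
      omega
    · rw [← mul_smul, ← pow_add]
      exact LemB_pow ht (by omega)
    · intro i hi
      rw [Pi.smul_apply, ← mul_smul, ← pow_add]
      exact LemB_pow (hti i (mem_sdiff.mp hi).1) (by omega)
    · intro w hw
      rw [hmxu]
      exact (D.Z _).nsmul_mem (hZ _ (union_subset hW (hw.trans sdiff_subset))) _
  -- (i)
  have htwo : ∀ σ, 2 • alt x y U (fun z => D.coc z t σ) = 0 := by
    intro σ
    have h1 := (hAlt x y U (fun z => D.coc z t σ) (fun z => D.coc z t σ)).2.2.2.2.2.2.1 2
    rw [← h1]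
    have h2 : alt x y U (fun z => 2 • D.coc z t σ) = alt x y U (fun z => D.coc z (2 • t) σ) :=
      LemB_congr _ _ _ _ _ fun w hw => ((hUq D hD _).2.2.1 t (hZ w hw) 2 σ).symm
    rw [h2]
    refine IH (j - 1) (by omega) x y U hG (2 • t) (by omega) ?_ ?_ ?_ σ
    · have : (2 : ℕ) ^ (j - 1) * 2 = 2 ^ j := by
        rw [← pow_succ]
        congr 1
        omega
      rw [← mul_smul, this, ht]
    · intro i hi
      have : (2 : ℕ) ^ (j - 1 - 1) * 2 = 2 ^ (j - 1 - 1 + 1) := (pow_succ _ _).symm
      rw [Pi.smul_apply, ← mul_smul, this]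
      exact LemB_pow (hti i hi) (by omega)
    · intro w hw
      exact (D.Z _).nsmul_mem (hZ w hw) _
  -- (ii)
  have hmul : ∀ σ τ, alt x y U (fun z => D.coc z t (σ * τ)) =
      alt x y U (fun z => D.coc z t σ) + alt x y U (fun z => D.coc z t τ) := by
    intro σ τ
    have h1 := hDif D (fun z => D.coc z t) x y U σ τ
    have h2 : alt x y U (fun z => D.coc z t σ + tw (D.chi z) σ (D.coc z t τ) -
        D.coc z t (σ * τ)) = 0 := by
      refine LemB_zero _ _ _ _ fun w hw => ?_
      rw [(hsp w hw).u.co σ τ, sub_self]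
    have h3 : (∑ W ∈ (U.filter fun i => D.ch (x i) σ + D.ch (y i) σ = 1).powerset,
          2 ^ #W • alt (mx x y W) y (U \ W) fun z => D.coc z t τ) =
        alt x y U (fun z => D.coc z t τ) := by
      rw [sum_eq_single_of_mem ∅ (empty_mem_powerset _)]
      · rw [card_empty, pow_zero, one_smul, sdiff_empty, hmx0]
      · intro W hW hWn
        exact key W ((mem_powerset.mp hW).trans (filter_subset _ _)) (nonempty_iff_ne_empty.mpr hWn) τ
    rw [h2, h3, tw_two hD.tri (htwo τ)] at h1
    have h4 := h1.symm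
    rw [sub_add_eq_add_sub, sub_eq_zero] at h4
    exact h4.symm
  -- the local agreement
  have hagree : ∀ (v : P) (jj : D.J ι), (∀ w ⊆ U, D.pl (mx x y w) jj = v) →
      (∀ w ⊆ U, D.chi (mx x y w) (D.tau v) = D.chi x (D.tau v)) →
      (∀ w ⊆ U, D.chi (mx x y w) (D.phi v) = D.chi x (D.phi v)) →
      ∀ w ⊆ U, D.coc (mx x y w) t (D.tau v) = D.coc x t (D.tau v) ∧
        D.coc (mx x y w) t (D.phi v) = D.coc x t (D.phi v) := by
    intro v jj hpl ht1 ht2 w hw
    obtain ⟨Q, hQ, hL⟩ := (hsp w hw).lo jj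
    have h0 := hsp ∅ (empty_subset U)
    have hp0 := hpl ∅ (empty_subset U)
    rw [hmx0] at h0 hp0
    obtain ⟨Q', hQ', hL'⟩ := h0.lo jj
    rw [hpl w hw] at hL
    rw [hp0] at hL'
    exact hLfx D hD _ _ v Q Q' _ _ hL hL' (hQ.trans hQ'.symm) (ht1 w hw) (ht2 w hw)
  have hvan : ∀ (v : P) (jj : D.J ι), (∀ w ⊆ U, D.pl (mx x y w) jj = v) →
      (∀ w ⊆ U, D.chi (mx x y w) (D.tau v) = D.chi x (D.tau v)) →
      (∀ w ⊆ U, D.chi (mx x y w) (D.phi v) = D.chi x (D.phi v)) →
      alt x y U (fun z => D.coc z t (D.tau v)) = 0 ∧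
        alt x y U (fun z => D.coc z t (D.phi v)) = 0 := by
    intro v jj hpl ht1 ht2
    have h := hagree v jj hpl ht1 ht2
    exact ⟨LemB_const hAlt _ _ _ _ _ (fun w hw => (h w hw).1) (Or.inl hUne),
      LemB_const hAlt _ _ _ _ _ (fun w hw => (h w hw).2) (Or.inl hUne)⟩
  have hS : ∀ v ∈ D.S, alt x y U (fun z => D.coc z t (D.tau v)) = 0 ∧
        alt x y U (fun z => D.coc z t (D.phi v)) = 0 := by
    intro v hv
    refine hvan v (Sum.inl ⟨v, hv⟩) (fun w _ => rfl) (fun w hw => ?_) (fun w hw => ?_)
    · exact ((hChi D hD x y U hG w hw).1 v hv).1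
    · exact ((hChi D hD x y U hG w hw).1 v hv).2
  have hok0 : D.Ok x := by
    have := hG.ok ∅ (empty_subset U)
    rwa [hmx0] at this
  have hlast : ∀ i ∈ U, (U.erase i).Nonempty ∨ -t (Sum.inr i) = 0 := by
    intro i hi
    rcases (U.erase i).eq_empty_or_nonempty with he | hne
    · right
      have h1 : #(U.erase i) = #U - 1 := card_erase_of_mem hi
      rw [he, card_empty] at h1
      have h2 : j - 1 = 0 := by omega
      have h3 := hti i hi
      rw [h2, pow_zero, one_smul] at h3
      rw [h3, neg_zero]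
    · exact Or.inl hne
  have htau : ∀ v, alt x y U (fun z => D.coc z t (D.tau v)) = 0 := by
    intro v
    by_cases hv : v ∈ D.S
    · exact (hS v hv).1
    by_cases hx : ∃ i, v = x i
    · obtain ⟨i, rfl⟩ := hx
      by_cases hi : i ∈ U
      · have hU' : U = insert i (U.erase i) := (insert_erase hi).symm
        rw [hU', (hAlt x y (U.erase i) (fun z => D.coc z t (D.tau (x i)))
          (fun z => D.coc z t (D.tau (x i)))).2.2.2.2.1 i (notMem_erase i U)]
        rw [LemB_const hAlt x y (U.erase i) _ (-t (Sum.inr i)) ?_ (hlast i hi),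
          LemB_zero (Function.update x i (y i)) y (U.erase i) _ ?_, sub_zero]
        · intro w hw
          rw [hmxi]
          have hwU : insert i w ⊆ U := insert_subset hi (hw.trans (erase_subset i U))
          refine (hsp _ hwU).u.ur _ ?_
          rintro ⟨jj, hjj⟩
          rcases jj with s | jj
          · exact hv (by rw [← hjj]; exact s.2)
          · by_cases hji : jj ∈ insert i w
            · have h1 : D.pl (mx x y (insert i w)) (Sum.inr jj) = y jj := if_pos hji
              rw [h1] at hjj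
              exact (hGdf D x y U hG).2.1 jj (hwU hji) i hjj
            · have h1 : D.pl (mx x y (insert i w)) (Sum.inr jj) = x jj := if_neg hji
              rw [h1] at hjj
              have h2 := hok0.inj hjj
              subst h2
              exact hji (mem_insert_self _ _)
        · intro w hw
          have hiw : i ∉ w := fun h => notMem_erase i U (hw h)
          have hwU : w ⊆ U := hw.trans (erase_subset i U)
          have h1 := (hTai D hD (mx x y w) (hG.ok w hwU)).2.2.2.2.1 i t _ (hsp w hwU)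
          have h2 : mx x y w i = x i := if_neg hiw
          rw [h2] at h1
          exact h1
      · refine (hvan (x i) (Sum.inr i) (fun w hw => if_neg fun h => hi (hw h)) (fun w hw => ?_)
          (fun w hw => ?_)).1
        · exact ((hChi D hD x y U hG w hw).2.1 i fun h => hi (hw h)).1
        · exact ((hChi D hD x y U hG w hw).2.1 i fun h => hi (hw h)).2
    by_cases hy : ∃ i ∈ U, v = y i
    · obtain ⟨i, hi, rfl⟩ := hy
      have hU' : U = insert i (U.erase i) := (insert_erase hi).symm
      rw [hU', (hAlt x y (U.erase i) (fun z => D.coc z t (D.tau (y i)))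
        (fun z => D.coc z t (D.tau (y i)))).2.2.2.2.1 i (notMem_erase i U)]
      rw [LemB_zero x y (U.erase i) _ ?_,
        LemB_const hAlt (Function.update x i (y i)) y (U.erase i) _ (-t (Sum.inr i)) ?_ (hlast i hi),
        sub_zero]
      · intro w hw
        rw [hmxi]
        have hwU : insert i w ⊆ U := insert_subset hi (hw.trans (erase_subset i U))
        have h1 := (hTai D hD (mx x y (insert i w)) (hG.ok _ hwU)).2.2.2.2.1 i t _ (hsp _ hwU)
        have h2 : mx x y (insert i w) i = y i := if_pos (mem_insert_self i w)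
        rw [h2] at h1
        exact h1
      · intro w hw
        have hiw : i ∉ w := fun h => notMem_erase i U (hw h)
        have hwU : w ⊆ U := hw.trans (erase_subset i U)
        refine (hsp _ hwU).u.ur _ ?_
        rintro ⟨jj, hjj⟩
        rcases jj with s | jj
        · exact hv (by rw [← hjj]; exact s.2)
        · by_cases hji : jj ∈ w
          · have h1 : D.pl (mx x y w) (Sum.inr jj) = y jj := if_pos hji
            rw [h1] at hjj
            have hne : i ≠ jj := fun h => hiw (h ▸ hji)
            exact (hGdf D x y U hG).2.2.2 i hi jj (hwU hji) hne hjj.symm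
          · have h1 : D.pl (mx x y w) (Sum.inr jj) = x jj := if_neg hji
            rw [h1] at hjj
            exact (hGdf D x y U hG).2.1 i hi jj hjj.symm
    · refine LemB_zero _ _ _ _ fun w hw => (hsp w hw).u.ur _ ?_
      rintro ⟨jj, hjj⟩
      rcases jj with s | jj
      · exact hv (by rw [← hjj]; exact s.2)
      · by_cases hji : jj ∈ w
        · have h1 : D.pl (mx x y w) (Sum.inr jj) = y jj := if_pos hji
          rw [h1] at hjj
          exact hy ⟨jj, hw hji, hjj.symm⟩
        · have h1 : D.pl (mx x y w) (Sum.inr jj) = x jj := if_neg hji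
          rw [h1] at hjj
          exact hx ⟨jj, hjj.symm⟩
  have hHo : IsHo fun σ => alt x y U (fun z => D.coc z t σ) := by
    refine ⟨?_, htwo, hmul⟩
    have h1 := LemB_lc_sum U.powerset (fun w σ => (-1 : ℤ) ^ #w • D.coc (mx x y w) t σ)
      (fun w hw => (hsp w (mem_powerset.mp hw)).u.lc.comp (fun a => (-1 : ℤ) ^ #w • a))
    exact h1
  exact (hHom D hD).1 _ hHo htau (hS _ hD.infS).2

end Pool.Agent.MP72S
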