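import Pool.Agent.Lib.MP_72e2e6_nt.Sm.A.Spec1

/-!
# MP_72e2e6_nt, `Sm/A/LemD`: completion of a cube
-/

namespace Pool.Agent.MP72S

open Finset

private theorem LemD_lc_sum {X A κ : Type} [TopologicalSpace X] [AddCommGroup A] (s : Finset κ)
    (f : κ → X → A) (h : ∀ i ∈ s, IsLocallyConstant (f i)) :
    IsLocallyConstant (fun x => ∑ i ∈ s, f i x) := by
  classical
  induction s using Finset.induction_on with
  | empty =>
    simp only [sum_empty]
    exact IsLocallyConstant.const (0 : A)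
  | insert i s hi ih =>
    have h1 := ih fun k hk => h k (mem_insert_of_mem hk)
    have h2 := h i (mem_insert_self i s)
    have h3 := h2.comp₂ h1 (fun a b => a + b)
    simpa [sum_insert hi] using h3

private theorem LemD_congr {P ι A : Type} [DecidableEq ι] [AddCommGroup A] (x y : ι → P)
    (U : Finset ι) (f g : (ι → P) → A) (h : ∀ w ⊆ U, f (mx x y w) = g (mx x y w)) :
    alt x y U f = alt x y U g := by
  unfold alt
  exact sum_congr rfl fun w hw => by rw [h w (mem_powerset.mp hw)]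

private theorem LemD_pow {A : Type} [AddCommGroup A] {t : A} {j a : ℕ} (h : 2 ^ j • t = 0)
    (hj : j ≤ a) : 2 ^ a • t = 0 := by
  obtain ⟨b, rfl⟩ := Nat.exists_eq_add_of_le hj
  rw [pow_add, mul_comm, mul_smul, h, smul_zero]

private theorem LemD_half {P ι A : Type} [DecidableEq ι] [AddCommGroup A] (hAlt : S_Alt)
    (x y : ι → P) (U : Finset ι) (hU : U.Nonempty) (Q : Finset ι → A) (a : A)
    (hQ : ∀ w ⊆ U, w.Nonempty → 2 • Q w = a) :
    2 • (-∑ w ∈ U.powerset.erase ∅, (-1 : ℤ) ^ #w • Q w) = a := by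
  have h1 : ∑ w ∈ U.powerset, (-1 : ℤ) ^ #w • a = 0 :=
    (hAlt x y U (fun _ => a) (fun _ => a)).2.2.2.2.2.2.2 a hU
  have h2 := sum_erase_eq_sub (s := U.powerset) (a := ∅)
    (f := fun w => (-1 : ℤ) ^ #w • a) (empty_mem_powerset U)
  rw [h1, card_empty, pow_zero, one_smul, zero_sub] at h2
  have h3 : 2 • (∑ w ∈ U.powerset.erase ∅, (-1 : ℤ) ^ #w • Q w) =
      ∑ w ∈ U.powerset.erase ∅, (-1 : ℤ) ^ #w • a := by
    rw [smul_sum]
    refine sum_congr rfl fun w hw => ?_
    rw [mem_erase, mem_powerset] at hw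
    rw [smul_comm, hQ w hw.2 (nonempty_iff_ne_empty.mpr hw.1)]
  rw [smul_neg, h3, h2, neg_neg]

theorem tLemD : S_Alt → S_Gdf → S_Uq → S_Tai → S_Chi → S_LemB → S_Cmp → S_CmL → S_LemD := by
  intro hAlt hGdf hUq hTai hChi hLemB hCmp hCmL G N P ι _ _ _ _ _ _ D hD x y U hG hUne t ht hti hZ
  have hn1 : 1 ≤ #U := card_pos.mpr hUne
  rcases Nat.eq_or_lt_of_le hn1 with hn | hn
  · rw [← hn] at ht
    have ht0 : t = 0 := by simpa using ht
    rw [ht0]
    exact zero_mem _
  have hsp : ∀ w ⊆ U, w.Nonempty → D.IsZ (mx x y w) t (D.coc (mx x y w) t) := fun w hw hwn =>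
    D.coc_spec (hZ w hw hwn)
  have hmxi : ∀ i w, mx (Function.update x i (y i)) y w = mx x y (insert i w) :=
    (hAlt x y U (fun _ => (0 : ℤ)) (fun _ => 0)).2.2.1
  have hmxu : ∀ W w, mx (mx x y W) y w = mx x y (W ∪ w) :=
    (hAlt x y U (fun _ => (0 : ℤ)) (fun _ => 0)).2.2.2.1
  have hupd : ∀ i, Function.update x i (y i) = mx x y {i} := by
    intro i
    have h1 := hmxi i ∅
    rw [(hAlt (Function.update x i (y i)) y U (fun _ => (0 : ℤ)) (fun _ => 0)).1] at h1
    simpa using h1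
  -- the values at higher levels
  have key : ∀ W ⊆ U, W.Nonempty → ∀ τ,
      2 ^ #W • alt (mx x y W) y (U \ W) (fun z => D.coc z t τ) = 0 := by
    intro W hW hWn τ
    have h1 := (hAlt (mx x y W) y (U \ W) (fun z => D.coc z t τ) (fun z => D.coc z t τ)).2.2.2.2.2.2.1
      (2 ^ #W)
    rw [← h1]
    have hne : ∀ w, (W ∪ w).Nonempty := fun w => hWn.mono subset_union_left
    have h2 : alt (mx x y W) y (U \ W) (fun z => 2 ^ #W • D.coc z t τ) =
        alt (mx x y W) y (U \ W) (fun z => D.coc z (2 ^ #W • t) τ) := by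
      refine LemD_congr _ _ _ _ _ fun w hw => ?_
      rw [hmxu]
      exact ((hUq D hD _).2.2.1 t (hZ _ (union_subset hW (hw.trans sdiff_subset)) (hne w)) _ τ).symm
    rw [h2]
    have hcW : 1 ≤ #W := card_pos.mpr hWn
    have hcU : #(U \ W) = #U - #W := card_sdiff_of_subset hW
    refine hLemB D hD (mx x y W) y (U \ W)
      ((hGdf D x y U hG).1 W hW (U \ W) sdiff_subset disjoint_sdiff) (#U - 1 - #W)
      (2 ^ #W • t) ?_ ?_ ?_ ?_ τ
    · rw [hcU]
      omega
    · rw [← mul_smul, ← pow_add]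
      exact LemD_pow ht (by omega)
    · intro i hi
      rw [Pi.smul_apply, ← mul_smul, ← pow_add]
      exact LemD_pow (hti i (mem_sdiff.mp hi).1) (by omega)
    · intro w hw
      rw [hmxu]
      exact (D.Z _).nsmul_mem (hZ _ (union_subset hW (hw.trans sdiff_subset)) (hne w)) _
  have hface : ∀ i ∈ U, ∀ g,
      alt (Function.update x i (y i)) y (U.erase i) (fun z => D.coc z t g) = 0 := by
    intro i hi g
    have hc : #(U.erase i) = #U - 1 := card_erase_of_mem hi
    refine hLemB D hD (Function.update x i (y i)) y (U.erase i) ?_ (#U - 1) t ?_ ht ?_ ?_ g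
    · rw [hupd]
      exact (hGdf D x y U hG).1 {i} (singleton_subset_iff.mpr hi) (U.erase i) (erase_subset i U)
        (disjoint_singleton_left.mpr (notMem_erase i U))
    · rw [hc]
    · intro k hk
      exact LemD_pow (hti k (mem_of_mem_erase hk)) (by omega)
    · intro w hw
      rw [hmxi]
      exact hZ _ (insert_subset hi (hw.trans (erase_subset i U))) (insert_nonempty i w)
  have hex : ∀ (w : Finset ι) (j : D.J ι), ∃ Q : N, w ⊆ U → w.Nonempty →
      2 • Q = t j ∧ D.Lo (mx x y w) (D.pl (mx x y w) j) Q (D.coc (mx x y w) t) := by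
    intro w j
    by_cases h : w ⊆ U ∧ w.Nonempty
    · obtain ⟨Q, hQ⟩ := (hsp w h.1 h.2).lo j
      exact ⟨Q, fun _ _ => hQ⟩
    · exact ⟨0, fun h1 h2 => absurd ⟨h1, h2⟩ h⟩
  choose Q hQ using hex
  obtain ⟨c1, c2, -, c4, c5⟩ := hCmL D hD x y U hG (fun z => D.coc z t) Q
    (fun w hw hwn => (hsp w hw hwn).u) (fun w hw hwn j _ => (hQ w j hw hwn).2)
  refine ⟨cmp x y U (fun z => D.coc z t), ⟨⟨?_, ?_, ⟨#U - 1, fun σ => ?_⟩, fun v hv => ?_⟩,
    fun j => ?_⟩⟩
  · have h1 := LemD_lc_sum (U.powerset.erase ∅)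
      (fun w σ => (-1 : ℤ) ^ #w • D.coc (mx x y w) t σ) (fun w hw => ?_)
    · exact h1.comp (fun a => -a)
    · rw [mem_erase, mem_powerset] at hw
      exact (hsp w hw.2 (nonempty_iff_ne_empty.mpr hw.1)).u.lc.comp (fun a => (-1 : ℤ) ^ #w • a)
  · exact hCmp D (fun z => D.coc z t) x y U hG.ne (fun w hw hwn => (hsp w hw hwn).u.co) key
  · unfold cmp
    rw [smul_neg, smul_sum, sum_eq_zero, neg_zero]
    intro w hw
    rw [mem_erase, mem_powerset] at hw
    rw [smul_comm, (hUq D hD _).2.2.2.2 t (hZ w hw.2 (nonempty_iff_ne_empty.mpr hw.1)) _ ht,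
      smul_zero]
  · by_cases h : ∃ i ∈ U, v = y i
    · obtain ⟨i, hi, rfl⟩ := h
      rw [c4 i hi]
      exact hface i hi _
    · exact c5 v hv fun i hi h' => h ⟨i, hi, h'⟩
  · by_cases h : ∃ i ∈ U, j = Sum.inr i
    · obtain ⟨i, hi, rfl⟩ := h
      have hne : (U.erase i).Nonempty := by
        rw [← card_pos, card_erase_of_mem hi]
        omega
      refine ⟨-∑ w ∈ (U.erase i).powerset.erase ∅, (-1 : ℤ) ^ #w • Q w (Sum.inr i),
        LemD_half hAlt x y (U.erase i) hne (fun w => Q w (Sum.inr i)) _ fun w hw hwn =>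
          (hQ w _ (hw.trans (erase_subset i U)) hwn).1, ?_⟩
      have h1 : ∀ g, g = D.tau (x i) ∨ g = D.phi (x i) → cmp x y U (fun z => D.coc z t) g =
          tw (D.chi x) g
            (-∑ w ∈ (U.erase i).powerset.erase ∅, (-1 : ℤ) ^ #w • Q w (Sum.inr i)) -
          (-∑ w ∈ (U.erase i).powerset.erase ∅, (-1 : ℤ) ^ #w • Q w (Sum.inr i)) := by
        intro g hg
        have h2 := c2 i hi g hg ?_
        · rw [hface i hi g, add_zero] at h2
          exact h2
        · intro w hw hwn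
          have hwU : w ⊆ U := hw.trans (erase_subset i U)
          have hiw : i ∉ w := fun h => notMem_erase i U (hw h)
          have h3 := (hQ w (Sum.inr i) hwU hwn).2
          have h4 : D.pl (mx x y w) (Sum.inr i) = x i := if_neg hiw
          rw [h4] at h3
          have h5 := (hChi D hD x y U hG w hwU).2.1 i hiw
          rcases hg with rfl | rfl
          · have h6 := h3.1
            unfold tw at h6 ⊢
            rw [h5.1] at h6
            exact h6
          · have h6 := h3.2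
            unfold tw at h6 ⊢
            rw [h5.2] at h6
            exact h6
      exact ⟨h1 _ (Or.inl rfl), h1 _ (Or.inr rfl)⟩
    · have hj : ∀ i ∈ U, j ≠ Sum.inr i := fun i hi h' => h ⟨i, hi, h'⟩
      exact ⟨_, LemD_half hAlt x y U hUne (fun w => Q w j) _ fun w hw hwn => (hQ w j hw hwn).1,
        c1 j hj⟩

end Pool.Agent.MP72S
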