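import Pool.Agent.Lib.MP_72e2e6_nt.Sm.A.Spec2

/-!
# MP_72e2e6_nt, `Sm/A/LemE`: completion of halves
-/

namespace Pool.Agent.MP72S

open Finset

section

variable {G N P : Type} [Group G] [TopologicalSpace G] [AddCommGroup N] [DistribMulAction G N]
  {D : Dat G N P}

private theorem lemE_e0 (hA : Ax D) {s : N} (hs : 2 • s = 0) : D.e 0 s = 0 := by
  have := hA.e_add 0 0 s (smul_zero _) (smul_zero _) hs
  rw [add_zero] at this
  exact left_eq_add.1 this

private theorem lemE_e0' (hA : Ax D) {s : N} (hs : 2 • s = 0) : D.e s 0 = 0 := by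
  rw [hA.e_sym s 0 hs (smul_zero _), lemE_e0 hA hs]

private theorem lemE_sum2 {κ : Type} (s : Finset κ) (f : κ → N) (hf : ∀ k ∈ s, 2 • f k = 0) :
    2 • ∑ k ∈ s, f k = 0 := by
  rw [Finset.smul_sum]
  exact Finset.sum_eq_zero hf

private theorem lemE_esum (hA : Ax D) {κ : Type} (s : Finset κ) (f : κ → N)
    (hf : ∀ k ∈ s, 2 • f k = 0) {c : N} (hc : 2 • c = 0) :
    D.e (∑ k ∈ s, f k) c = ∑ k ∈ s, D.e (f k) c := by
  classical
  induction s using Finset.induction_on with
  | empty => simp [lemE_e0 hA hc]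
  | insert a s ha ih =>
    rw [sum_insert ha, sum_insert ha, hA.e_add _ _ _ (hf a (mem_insert_self a s))
      (lemE_sum2 s f fun k hk => hf k (mem_insert_of_mem hk)) hc,
      ih fun k hk => hf k (mem_insert_of_mem hk)]

private theorem lemE_sgn {a : N} (ha : 2 • a = 0) (n : ℕ) : -((-1 : ℤ) ^ n • a) = a := by
  have h1 : -a = a := by
    rw [two_nsmul] at ha
    exact neg_eq_of_add_eq_zero_left ha
  rcases neg_one_pow_eq_or ℤ n with h | h <;> rw [h]
  · rw [one_smul, h1]
  · rw [neg_smul, one_smul, neg_neg]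

private theorem lemE_lc {κ : Type} (s : Finset κ) (f : κ → G → N)
    (hf : ∀ k ∈ s, IsLocallyConstant (f k)) : IsLocallyConstant fun σ => ∑ k ∈ s, f k σ := by
  classical
  induction s using Finset.induction_on with
  | empty =>
    simp only [sum_empty]
    exact IsLocallyConstant.const (0 : N)
  | insert a s ha ih =>
    simp only [sum_insert ha]
    exact (hf a (mem_insert_self a s)).comp₂ (ih fun k hk => hf k (mem_insert_of_mem hk))
      (fun a b => a + b)

end

section

variable {G N P ι : Type} [Group G] [TopologicalSpace G] [AddCommGroup N] [DistribMulAction G N]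
  [Fintype ι] [DecidableEq ι] {D : Dat G N P}

omit [DecidableEq ι] in
/-- The defect of a half has values in `V`. -/
private theorem lemE_df (hA : Ax D) (hq : ∀ N₀ : N, 4 • quar N₀ = N₀) (z : ι → P)
    (ξ : D.J ι → N) (η : G → N) (hz : D.IsZ z ξ fun σ => 2 • η σ) (j : D.J ι) (g : G)
    (hg : g = D.tau (D.pl z j) ∨ g = D.phi (D.pl z j)) : 2 • D.df z ξ η j g = 0 := by
  obtain ⟨Q, hQ, hl⟩ := hz.lo j
  have h1 : 2 • η g = tw (D.chi z) g Q - Q := by
    rcases hg with rfl | rfl
    · exact hl.1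
    · exact hl.2
  have h2 : 2 • (Q - 2 • quar (ξ j)) = 0 := by
    rw [smul_sub, hQ, ← mul_smul]
    exact sub_eq_zero.2 (hq (ξ j)).symm
  have h3 := tw_two (χ := D.chi z) (σ := g) hA.tri h2
  rw [tw_sub, tw_nsmul] at h3
  rw [Dat.df, smul_sub, h1, smul_sub, sub_eq_zero]
  have h4 : tw (D.chi z) g Q - Q - (2 • tw (D.chi z) g (quar (ξ j)) - 2 • quar (ξ j)) =
      tw (D.chi z) g Q - 2 • tw (D.chi z) g (quar (ξ j)) - (Q - 2 • quar (ξ j)) := by abel
  rw [← sub_eq_zero, h4, h3, sub_self]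

theorem tLemE : S_Alt → S_Gdf → S_Hom → S_Uq → S_Tai → S_Chi → S_LemB → S_Cmp → S_CmL →
    S_LemD → S_Rcv → S_Dk1 → S_ObA → S_LemE := by
  intro hAlt hGdf hHom hUq _ hChi hB hCmp _ hLD hRcv hDk _ G N P ι _ _ _ _ _ _ D hA x y U hG hn ξ
    hξ hξi η hη
  classical
  have hUne : U.Nonempty := card_pos.1 (by omega)
  have h0 : mx x y ∅ = x := (hAlt (A := ℤ) x y ∅ (fun _ => 0) (fun _ => 0)).1
  have hmm : ∀ W w, mx (mx x y W) y w = mx x y (W ∪ w) :=
    (hAlt (A := ℤ) x y U (fun _ => 0) (fun _ => 0)).2.2.2.1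
  obtain ⟨hface, hyx, hyS, -⟩ := hGdf D x y U hG
  have hmem : ∀ w ∈ U.powerset.erase ∅, w ⊆ U ∧ w.Nonempty := by
    intro w hw
    rw [mem_erase, mem_powerset] at hw
    exact ⟨hw.2, nonempty_iff_ne_empty.2 hw.1⟩
  have hsplit : ∀ {A : Type} [AddCommGroup A] (f : (ι → P) → A), alt x y U f = f x +
      ∑ w ∈ U.powerset.erase ∅, (-1 : ℤ) ^ #w • f (mx x y w) := by
    intro A _ f
    rw [alt, ← Finset.add_sum_erase _ _ (empty_mem_powerset U), h0]
    simp
  have hokx : D.Ok x := h0 ▸ hG.ok ∅ (empty_subset U)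
  -- (1)
  have hξx : ξ ∈ D.Z x := hLD D hA x y U hG hUne ξ hξ hξi fun w hw hwn => ⟨_, (hη w hw hwn).hf⟩
  have hξZ : ∀ w ⊆ U, ξ ∈ D.Z (mx x y w) := by
    intro w hw
    rcases w.eq_empty_or_nonempty with rfl | hwn
    · rwa [h0]
    · exact ⟨_, (hη w hw hwn).hf⟩
  have h2η : ∀ w ⊆ U, w.Nonempty → ∀ σ, 2 • η (mx x y w) σ = D.coc (mx x y w) ξ σ :=
    fun w hw hwn σ => ((hUq D hA (mx x y w)).1 ξ _ (hη w hw hwn).hf σ).symm
  -- (2)
  have h2η₁ : ∀ σ, 2 • cmp x y U η σ = D.coc x ξ σ := by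
    intro σ
    have hb := hB D hA x y U hG (#U - 1) ξ (Nat.sub_le _ _) hξ (fun i hi => by
      rw [Nat.sub_sub]
      exact hξi i hi) hξZ σ
    rw [hsplit] at hb
    rw [cmp, smul_neg, Finset.smul_sum]
    have h1 : ∑ w ∈ U.powerset.erase ∅, 2 • (-1 : ℤ) ^ #w • η (mx x y w) σ =
        ∑ w ∈ U.powerset.erase ∅, (-1 : ℤ) ^ #w • D.coc (mx x y w) ξ σ := by
      apply Finset.sum_congr rfl
      intro w hw
      rw [smul_comm, h2η w (hmem w hw).1 (hmem w hw).2]
    rw [h1]
    exact neg_eq_of_add_eq_zero_left hb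
  -- (3)
  have hco : IsCo (D.chi x) (cmp x y U η) := by
    apply hCmp D η x y U hG.ne fun w hw hwn => (hη w hw hwn).u.co
    intro W hW hWn σ
    have hWc : 1 ≤ #W := card_pos.2 hWn
    have hWU : #W ≤ #U := card_le_card hW
    have hUW : #(U \ W) = #U - #W := by rw [card_sdiff_of_subset hW]
    have hg := hface W hW (U \ W) sdiff_subset disjoint_sdiff
    have hb := hB D hA (mx x y W) y (U \ W) hg (#U - #W) (2 ^ (#W - 1) • ξ) hUW.ge
      (by rw [← mul_smul, ← pow_add, show #U - #W + (#W - 1) = #U - 1 by omega]; exact hξ)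
      (fun i hi => by
        have hi' := mem_sdiff.1 hi
        have : 1 ≤ #(U \ W) := card_pos.2 ⟨i, hi⟩
        rw [Pi.smul_apply, ← mul_smul, ← pow_add,
          show #U - #W - 1 + (#W - 1) = #U - 2 by omega]
        exact hξi i hi'.1)
      (fun w hw => by
        rw [hmm]
        exact (D.Z _).nsmul_mem (hξZ _ (union_subset hW (hw.trans sdiff_subset))) _) σ
    have h1 : 2 ^ #W • alt (mx x y W) y (U \ W) (fun z => η z σ) =
        alt (mx x y W) y (U \ W) (fun z => D.coc z (2 ^ (#W - 1) • ξ) σ) := by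
      rw [alt, alt, Finset.smul_sum]
      apply Finset.sum_congr rfl
      intro w hw
      have hw' : W ∪ w ⊆ U := union_subset hW ((mem_powerset.1 hw).trans sdiff_subset)
      rw [hmm, (hUq D hA (mx x y (W ∪ w))).2.2.1 ξ (hξZ _ hw') _ σ,
        ← h2η _ hw' (hWn.mono subset_union_left), ← mul_smul (2 ^ (#W - 1)) 2, ← pow_succ,
        Nat.sub_add_cancel hWc, smul_comm]
    rw [h1]
    exact hb
  -- (5)
  have hyr : ∀ i ∈ U, y i ∉ Set.range (D.pl x) := by
    rintro i hi ⟨j, hj⟩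
    rcases j with s | k
    · exact hyS i hi (hj ▸ s.2)
    · exact hyx i hi k hj.symm
  have hu2 : ∀ i ∈ U, 2 • cmp x y U η (D.tau (y i)) = 0 := by
    intro i hi
    rw [h2η₁, (Dat.coc_spec hξx).u.ur _ (hyr i hi)]
  have hinfr : D.inf ∈ Set.range (D.pl x) := ⟨Sum.inl ⟨D.inf, hA.infS⟩, rfl⟩
  obtain ⟨θ, hθ, hθ1, hθ2, -⟩ := (hHom D hA).2.1 (U.image y)
    (fun v => if v ∈ U.image y then cmp x y U η (D.tau v) else 0) 0
    (by
      intro h
      obtain ⟨i, hi, hi'⟩ := mem_image.1 h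
      exact hyr i hi (hi'.symm ▸ hinfr))
    (by
      intro v
      beta_reduce
      split_ifs with h
      · obtain ⟨i, hi, rfl⟩ := mem_image.1 h
        exact hu2 i hi
      · exact smul_zero _)
    (smul_zero _)
  have hθy : ∀ i ∈ U, θ (D.tau (y i)) = cmp x y U η (D.tau (y i)) := by
    intro i hi
    have h := hθ1 (y i) (mem_image_of_mem y hi)
    rw [h, if_pos (mem_image_of_mem y hi)]
  have hθ0 : ∀ v, v ∉ Set.range (D.pl x) → (∀ i ∈ U, v ≠ y i) → θ (D.tau v) = 0 := by
    intro v hv hv'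
    apply hθ2 v
    · intro h
      obtain ⟨i, hi, hi'⟩ := mem_image.1 h
      exact hv' i hi hi'.symm
    · rintro rfl
      exact hv hinfr
  -- (7)
  have hlc : IsLocallyConstant (cmp x y U η) := by
    have h1 : IsLocallyConstant fun σ => ∑ w ∈ U.powerset.erase ∅,
        (-1 : ℤ) ^ #w • η (mx x y w) σ := by
      apply lemE_lc
      intro w hw
      exact (hη w (hmem w hw).1 (hmem w hw).2).u.lc.comp fun a => (-1 : ℤ) ^ #w • a
    exact h1.comp fun a => -a
  have hU : D.IsU x fun σ => cmp x y U η σ + θ σ := by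
    refine ⟨hlc.comp₂ hθ.lc (fun a b => a + b), fun σ τ => ?_, ?_, fun v hv => ?_⟩
    · rw [hco σ τ, hθ.mul, tw_add, tw_two hA.tri (hθ.two τ)]
      abel
    · obtain ⟨k, hk⟩ := (Dat.coc_spec hξx).u.bd
      refine ⟨k + 1, fun σ => ?_⟩
      rw [pow_succ, mul_smul, smul_add, h2η₁, hθ.two, add_zero, hk]
    · by_cases hvy : ∃ i ∈ U, v = y i
      · obtain ⟨i, hi, rfl⟩ := hvy
        rw [hθy i hi, ← two_nsmul, hu2 i hi]
      · push Not at hvy
        rw [hθ0 v hv hvy, add_zero, cmp, neg_eq_zero]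
        apply Finset.sum_eq_zero
        intro w hw
        rw [(hη w (hmem w hw).1 (hmem w hw).2).u.ur v, smul_zero]
        rintro ⟨j, hj⟩
        rcases j with s | k
        · exact hv ⟨Sum.inl s, hj⟩
        · by_cases hk : k ∈ w
          · apply hvy k ((hmem w hw).1 hk)
            rw [← hj]
            exact if_pos hk
          · apply hv
            refine ⟨Sum.inr k, ?_⟩
            rw [← hj]
            exact (if_neg hk).symm
  have h2η' : (fun σ => 2 • (cmp x y U η σ + θ σ)) = D.coc x ξ := by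
    funext σ
    rw [smul_add, h2η₁, hθ.two, add_zero]
  have hH : D.IsH x ξ fun σ => cmp x y U η σ + θ σ := by
    refine ⟨hU, ?_⟩
    rw [h2η']
    exact Dat.coc_spec hξx
  refine ⟨_, hH, fun ν hνw hνi => ?_⟩
  obtain ⟨hDk1, -, -, -, -, -, hquar, -, -, hinj⟩ := hDk (ι := ι) D hA
  -- (8)
  have hνZ : ∀ w ⊆ U, ν ∈ D.Z (mx x y w) ∧ 2 • ν = 0 := fun w hw => (hDk1 _ _).1 (hνw w hw)
  have hν2 : 2 • ν = 0 := (hνZ ∅ (empty_subset U)).2
  have hνx : ν ∈ D.Z x := by
    have := (hνZ ∅ (empty_subset U)).1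
    rwa [h0] at this
  have hceq : ∀ w ⊆ U, ∀ σ, D.coc (mx x y w) ν σ = D.coc x ν σ := by
    intro w
    induction w using Finset.induction_on with
    | empty =>
      intro _ σ
      rw [h0]
    | insert i w hi ih =>
      intro hw σ
      have hwU : w ⊆ U := (subset_insert i w).trans hw
      have hiU : i ∈ U := hw (mem_insert_self i w)
      rw [← ih hwU σ]
      have hg := hface w hwU {i} (singleton_subset_iff.2 hiU) (disjoint_singleton_right.2 hi)
      have hb := hB D hA (mx x y w) y {i} hg 1 ν (by simp) (by simpa using hν2)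
        (fun k hk => by
          rw [mem_singleton.1 hk, hνi i hiU, smul_zero])
        (fun w' hw' => by
          rw [hmm]
          exact (hνZ _ (union_subset hwU (hw'.trans (singleton_subset_iff.2 hiU)))).1) σ
      rw [alt, show ({i} : Finset ι) = insert i ∅ from rfl,
        Finset.sum_powerset_insert (notMem_empty i)] at hb
      simp only [powerset_empty, sum_singleton, card_empty, pow_zero, one_smul, hmm, union_empty,
        card_insert_of_notMem (notMem_empty i), zero_add, pow_one, neg_smul] at hb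
      rw [union_comm, insert_union, empty_union] at hb
      exact (add_neg_eq_zero.1 hb).symm
  have hc2 : ∀ σ, 2 • D.coc x ν σ = 0 := by
    intro σ
    have := (hUq D hA x).2.2.2.2 ν hνx 1 (by simpa using hν2) σ
    simpa using this
  -- the cocycle of ν vanishes at the places in U
  have hv0 : ∀ w ⊆ U, ∀ i ∈ U, D.coc x ν (D.tau (mx x y w i)) = 0 ∧
      D.coc x ν (D.phi (mx x y w i)) = 0 := by
    intro w hw i hi
    obtain ⟨Q, hQ, hl⟩ := (Dat.coc_spec (hνZ w hw).1).lo (Sum.inr i)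
    rw [hνi i hi] at hQ
    have hpl : D.pl (mx x y w) (Sum.inr i) = mx x y w i := rfl
    rw [hpl] at hl
    constructor
    · rw [← hceq w hw, hl.1, tw_two hA.tri hQ, sub_self]
    · rw [← hceq w hw, hl.2, tw_two hA.tri hQ, sub_self]
  have hHo : IsHo (D.coc x ν) := by
    refine ⟨(Dat.coc_spec hνx).u.lc, hc2, fun σ τ => ?_⟩
    rw [(Dat.coc_spec hνx).u.co σ τ, tw_two hA.tri (hc2 τ)]
  -- (9)
  have hrec : ∑ j, D.lp θ (D.coc x ν) (D.pl x j) = 0 := by
    have h1 := hRcv D hA θ (D.coc x ν) (univ.image (D.pl x) ∪ U.image y) hθ hHo (by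
      intro v hv
      rw [mem_union, not_or] at hv
      have hvr : v ∉ Set.range (D.pl x) := by
        rintro ⟨j, hj⟩
        exact hv.1 (mem_image.2 ⟨j, mem_univ j, hj⟩)
      have hvy : ∀ i ∈ U, v ≠ y i := by
        rintro i hi rfl
        exact hv.2 (mem_image_of_mem y hi)
      rw [Dat.lp, hθ0 v hvr hvy, (Dat.coc_spec hνx).u.ur v hvr, lemE_e0 hA (hc2 _),
        lemE_e0' hA (hθ.two _), add_zero])
    rw [← Finset.sum_subset (subset_union_left (s₁ := univ.image (D.pl x)) (s₂ := U.image y)),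
      Finset.sum_image fun a _ b _ h => hinj x hokx h] at h1
    · exact h1
    · intro v hv hv'
      have hv'' : v ∈ U.image y := by
        rcases mem_union.1 hv with h | h
        · exact absurd h hv'
        · exact h
      obtain ⟨i, hi, rfl⟩ := mem_image.1 hv''
      have h2 := hv0 {i} (singleton_subset_iff.2 hi) i hi
      have h3 : mx x y {i} i = y i := by simp [mx]
      rw [h3] at h2
      rw [Dat.lp, h2.1, h2.2, lemE_e0' hA (hθ.two _), lemE_e0' hA (hθ.two _), add_zero]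
  -- (10)
  have hzx : D.IsZ x ξ fun σ => 2 • cmp x y U η σ := by
    have : (fun σ => 2 • cmp x y U η σ) = D.coc x ξ := funext h2η₁
    rw [this]
    exact Dat.coc_spec hξx
  have hV1 : ∀ j g, (g = D.tau (D.pl x j) ∨ g = D.phi (D.pl x j)) →
      2 • D.df x ξ (cmp x y U η) j g = 0 := fun j g hg => lemE_df hA hquar x ξ _ hzx j g hg
  have hob : D.ob x ξ (fun σ => cmp x y U η σ + θ σ) ν =
      ∑ j, D.lp (D.df x ξ (cmp x y U η) j) (D.coc x ν) (D.pl x j) := by
    have h1 : ∀ j, D.lp (D.df x ξ (fun σ => cmp x y U η σ + θ σ) j) (D.coc x ν) (D.pl x j) =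
        D.lp (D.df x ξ (cmp x y U η) j) (D.coc x ν) (D.pl x j) +
          D.lp θ (D.coc x ν) (D.pl x j) := by
      intro j
      have h2 : ∀ g, D.df x ξ (fun σ => cmp x y U η σ + θ σ) j g =
          D.df x ξ (cmp x y U η) j g + θ g := by
        intro g
        rw [Dat.df, Dat.df]
        abel
      rw [Dat.lp, Dat.lp, Dat.lp, h2, h2, hA.e_add _ _ _ (hV1 j _ (Or.inl rfl)) (hθ.two _) (hc2 _),
        hA.e_add _ _ _ (hV1 j _ (Or.inr rfl)) (hθ.two _) (hc2 _)]
      abel
    rw [Dat.ob, Finset.sum_congr rfl fun j _ => h1 j, Finset.sum_add_distrib, hrec, add_zero]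
  rw [hob]
  have hobw : ∑ w ∈ U.powerset.erase ∅, D.ob (mx x y w) ξ (η (mx x y w)) ν =
      ∑ j, ∑ w ∈ U.powerset.erase ∅,
        D.lp (D.df (mx x y w) ξ (η (mx x y w)) j) (D.coc (mx x y w) ν) (D.pl (mx x y w) j) := by
    rw [Finset.sum_comm]
    rfl
  rw [hobw]
  apply Finset.sum_congr rfl
  intro j _
  by_cases hj : ∃ i ∈ U, j = Sum.inr i
  · -- places in U
    obtain ⟨i, hi, rfl⟩ := hj
    have h1 : D.lp (D.df x ξ (cmp x y U η) (Sum.inr i)) (D.coc x ν) (D.pl x (Sum.inr i)) = 0 := by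
      have h2 := hv0 ∅ (empty_subset U) i hi
      rw [h0] at h2
      have h3 : D.pl x (Sum.inr i) = x i := rfl
      have h4 := hV1 (Sum.inr i) _ (Or.inl rfl)
      have h5 := hV1 (Sum.inr i) _ (Or.inr rfl)
      rw [h3] at h4 h5
      rw [Dat.lp, h3, h2.1, h2.2, lemE_e0' hA h4, lemE_e0' hA h5, add_zero]
    rw [h1]
    symm
    apply Finset.sum_eq_zero
    intro w hw
    obtain ⟨hwU, hwn⟩ := hmem w hw
    have h2 := hv0 w hwU i hi
    have h3 : D.pl (mx x y w) (Sum.inr i) = mx x y w i := rfl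
    have h4 := lemE_df hA hquar (mx x y w) ξ _ (hη w hwU hwn).hf (Sum.inr i) _ (Or.inl rfl)
    have h5 := lemE_df hA hquar (mx x y w) ξ _ (hη w hwU hwn).hf (Sum.inr i) _ (Or.inr rfl)
    rw [h3] at h4 h5
    rw [Dat.lp, h3, hceq w hwU, hceq w hwU, h2.1, h2.2, lemE_e0' hA h4, lemE_e0' hA h5, add_zero]
  · -- other places
    have hpl : ∀ w ⊆ U, D.pl (mx x y w) j = D.pl x j := by
      intro w hw
      rcases j with s | k
      · rfl
      · have hk : k ∉ w := fun h => hj ⟨k, hw h, rfl⟩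
        exact if_neg hk
    have hchi : ∀ w ⊆ U, ∀ g, (g = D.tau (D.pl x j) ∨ g = D.phi (D.pl x j)) →
        D.chi (mx x y w) g = D.chi x g := by
      intro w hw g hg
      rcases j with s | k
      · have := (hChi D hA x y U hG w hw).1 s.1 s.2
        rcases hg with rfl | rfl
        · exact this.1
        · exact this.2
      · have hk : k ∉ w := fun h => hj ⟨k, hw h, rfl⟩
        have := (hChi D hA x y U hG w hw).2.1 k hk
        rcases hg with rfl | rfl
        · exact this.1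
        · exact this.2
    have hdf2 : ∀ w ⊆ U, w.Nonempty → ∀ g, (g = D.tau (D.pl x j) ∨ g = D.phi (D.pl x j)) →
        2 • D.df (mx x y w) ξ (η (mx x y w)) j g = 0 := by
      intro w hw hwn g hg
      apply lemE_df hA hquar (mx x y w) ξ _ (hη w hw hwn).hf j g
      rw [hpl w hw]
      exact hg
    have hs1 : ∑ w ∈ U.powerset.erase ∅, (-1 : ℤ) ^ #w = -1 := by
      have h1 := Finset.sum_powerset_neg_one_pow_card_of_nonempty hUne
      rw [← Finset.add_sum_erase _ _ (empty_mem_powerset U)] at h1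
      simp only [card_empty, pow_zero] at h1
      omega
    have hdf : ∀ g, (g = D.tau (D.pl x j) ∨ g = D.phi (D.pl x j)) →
        D.df x ξ (cmp x y U η) j g =
          ∑ w ∈ U.powerset.erase ∅, D.df (mx x y w) ξ (η (mx x y w)) j g := by
      intro g hg
      have h1 : ∑ w ∈ U.powerset.erase ∅, D.df (mx x y w) ξ (η (mx x y w)) j g =
          ∑ w ∈ U.powerset.erase ∅,
            -((-1 : ℤ) ^ #w • D.df (mx x y w) ξ (η (mx x y w)) j g) := by
        apply Finset.sum_congr rfl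
        intro w hw
        exact (lemE_sgn (hdf2 w (hmem w hw).1 (hmem w hw).2 g hg) _).symm
      rw [h1]
      have h2 : ∀ w ∈ U.powerset.erase ∅,
          -((-1 : ℤ) ^ #w • D.df (mx x y w) ξ (η (mx x y w)) j g) =
          -((-1 : ℤ) ^ #w • η (mx x y w) g) +
            (-1 : ℤ) ^ #w • (tw (D.chi x) g (quar (ξ j)) - quar (ξ j)) := by
        intro w hw
        rw [Dat.df, tw, tw, hchi w (hmem w hw).1 g hg, smul_sub]
        abel
      rw [Finset.sum_congr rfl h2, Finset.sum_add_distrib, Finset.sum_neg_distrib,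
        ← Finset.sum_smul, hs1, Dat.df, cmp, neg_smul, one_smul]
      abel
    have hl1 := Or.inl (b := D.tau (D.pl x j) = D.phi (D.pl x j)) (rfl : D.tau (D.pl x j) = _)
    rw [Dat.lp, hdf _ (Or.inl rfl), hdf _ (Or.inr rfl),
      lemE_esum hA _ _ (fun w hw => hdf2 w (hmem w hw).1 (hmem w hw).2 _ (Or.inl rfl)) (hc2 _),
      lemE_esum hA _ _ (fun w hw => hdf2 w (hmem w hw).1 (hmem w hw).2 _ (Or.inr rfl)) (hc2 _),
      ← Finset.sum_add_distrib]
    apply Finset.sum_congr rfl
    intro w hw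
    rw [Dat.lp, hpl w (hmem w hw).1, hceq w (hmem w hw).1, hceq w (hmem w hw).1]

end

end Pool.Agent.MP72S
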