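import Pool.Agent.Lib.MP_72e2e6_nt.Sm.A.Spec1

/-!
# MP_72e2e6_nt, `Sm/A/Lfx`: local agreement of cocycles (helper91)
-/

namespace Pool.Agent.MP72S

open Finset

private theorem lfx_aux {G N : Type} [Group G] [AddCommGroup N] [DistribMulAction G N]
    (htri : ∀ (σ : G) (x : N), 2 • x = 0 → σ • x = x) {χ χ' : G → ZMod 2} {g : G}
    (h : χ g = χ' g) {Q Q' : N} (hQ : 2 • Q = 2 • Q') : tw χ g Q - Q = tw χ' g Q' - Q' := by
  have h1 : 2 • (Q - Q') = 0 := by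
    rw [smul_sub, hQ, sub_self]
  have h2 : tw χ g (Q - Q') = Q - Q' := tw_two htri h1
  have h3 : tw χ' g Q' = tw χ g Q' := by
    rw [tw, tw, h]
  rw [tw_sub] at h2
  rw [h3]
  have h4 : tw χ g Q = Q - Q' + tw χ g Q' := by
    rw [← h2]
    abel
  rw [h4]
  abel

theorem tLfx : S_Lfx := by
  intro G N P ι _ _ _ _ _ _ D hA x x' v Q Q' ψ ψ' h h' hQ h1 h2
  refine ⟨?_, ?_⟩
  · rw [h.1, h'.1]
    exact lfx_aux hA.tri h1 hQ
  · rw [h.2, h'.2]
    exact lfx_aux hA.tri h2 hQ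

end Pool.Agent.MP72S
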