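import Pool.Agent.Lib.MP_72e2e6_nt.Sm.A.Spec2

/-!
# `Sm/A/LinD`: two maximal isotropic subspaces over `F_2`
-/

namespace Pool.Agent.MP72S

open Module

private theorem linD_max {W : Type} [AddCommGroup W] [Module (ZMod 2) W] [Finite W]
    (β : LinearMap.BilinForm (ZMod 2) W) (hn : β.Nondegenerate) (X : Submodule (ZMod 2) W)
    (hX : ∀ a ∈ X, ∀ b ∈ X, β a b = 0) (hc : Nat.card X ^ 2 = Nat.card W) :
    β.orthogonal X = X := by
  have hfX : Nat.card X = Nat.card (ZMod 2) ^ finrank (ZMod 2) X := natCard_eq_pow_finrank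
  have hfW : Nat.card W = Nat.card (ZMod 2) ^ finrank (ZMod 2) W := natCard_eq_pow_finrank
  have h2 : finrank (ZMod 2) X * 2 = finrank (ZMod 2) W := by
    rw [hfX, hfW, ← pow_mul, Nat.card_zmod] at hc
    exact Nat.pow_right_injective le_rfl hc
  have hle : X ≤ β.orthogonal X := by
    intro a ha
    rw [LinearMap.BilinForm.mem_orthogonal_iff]
    intro b hb
    exact hX b hb a ha
  refine (Submodule.eq_of_le_of_finrank_le hle ?_).symm
  rw [LinearMap.BilinForm.finrank_orthogonal hn]
  omega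

theorem tLinD : S_LinD := by
  intro W _ _ B h2 hadd hsym hnd X L hX hL hcX hcL a ha
  let _ : Module (ZMod 2) W := AddCommGroup.zmodModule h2
  have hadd' : ∀ a b c, B a (b + c) = B a b + B a c := fun a b c => by
    rw [hsym, hadd, hsym b, hsym c]
  let f : W →+ W →+ ZMod 2 := AddMonoidHom.mk' (fun a => AddMonoidHom.mk' (B a) (hadd' a))
    (fun a b => by ext c; exact hadd a b c)
  let β : LinearMap.BilinForm (ZMod 2) W :=
    AddMonoidHom.toZModLinearMap 2 (AddMonoidHom.mk'
      (fun a => AddMonoidHom.toZModLinearMap 2 (f a)) (fun a b => by ext c; exact hadd a b c))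
  have hβ : ∀ a b, β a b = B a b := fun _ _ => rfl
  have hn : β.Nondegenerate := by
    refine ⟨fun a h => hnd a fun b => ?_, fun a h => hnd a fun b => ?_⟩
    · exact h b
    · rw [hsym]; exact h b
  have hr : β.IsRefl := by
    intro a b h
    rw [hβ] at h ⊢
    rw [hsym]; exact h
  let X' : Submodule (ZMod 2) W := AddSubgroup.toZModSubmodule 2 X
  let L' : Submodule (ZMod 2) W := AddSubgroup.toZModSubmodule 2 L
  have eX : β.orthogonal X' = X' := linD_max β hn X' hX hcX
  have eL : β.orthogonal L' = L' := linD_max β hn L' hL hcL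
  have hle : β.orthogonal (X' ⊔ L') ≤ X' ⊓ L' := by
    have h1 : X' ≤ X' ⊔ L' := le_sup_left
    have h2 : L' ≤ X' ⊔ L' := le_sup_right
    exact le_inf ((LinearMap.BilinForm.orthogonal_le h1).trans_eq eX)
      ((LinearMap.BilinForm.orthogonal_le h2).trans_eq eL)
  have hmem : a ∈ X' ⊔ L' := by
    rw [← LinearMap.BilinForm.orthogonal_orthogonal hn hr (X' ⊔ L'),
      LinearMap.BilinForm.mem_orthogonal_iff]
    intro w hw
    have := ha w (hle hw)
    change β w a = 0
    rw [hβ, hsym]
    exact this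
  obtain ⟨b, hb, c, hc, rfl⟩ := Submodule.mem_sup.1 hmem
  exact ⟨b, hb, c, hc, rfl⟩

end Pool.Agent.MP72S
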