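import Pool.Agent.Lib.MP_72e2e6_nt.Sm.A.Spec2

/-!
# MP_72e2e6_nt, `Sm/A/Msa`: the maps `M_g` are selfadjoint
-/

set_option autoImplicit false

namespace Pool.Agent.MP72S

private theorem msa_v {G N P : Type} [Group G] [TopologicalSpace G] [AddCommGroup N]
    [DistribMulAction G N] {D : Dat G N P} (hA : Ax D) (g : G) {R : N} (hR : 4 • R = 0) :
    2 • (g • R - R) = 0 := by
  have h2 : 2 • (2 • R) = 0 := by rw [smul_smul]; exact hR
  rw [smul_sub, ← smul_comm g 2 R, hA.tri g _ h2, sub_self]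

private theorem msa_neg {N : Type} [AddCommGroup N] {x : N} (h : 2 • x = 0) : -x = x := by
  rw [two_nsmul] at h
  exact neg_eq_of_add_eq_zero_left h

private theorem msa_one {G N P : Type} [Group G] [TopologicalSpace G] [AddCommGroup N]
    [DistribMulAction G N] {D : Dat G N P} (hA : Ax D) (g : G) {R : N} (hR : 4 • R = 0) :
    -(g • R) - R = (g • R - R) + 2 • R := by
  have h1 := msa_neg (msa_v hA g hR)
  have h2 : 2 • (2 • R) = 0 := by rw [smul_smul]; exact hR
  have h3 := msa_neg h2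
  have h4 : -(g • R) - R = -(g • R - R) + -(2 • R) := by rw [two_nsmul]; abel
  rw [h4, h1, h3]

theorem tMsa : S_Msa := by
  intro G N P _ _ _ _ D hA χ g R R' hR hR'
  have h2 : 2 • (2 • R) = 0 := by rw [smul_smul]; exact hR
  have h2' : 2 • (2 • R') = 0 := by rw [smul_smul]; exact hR'
  have hv : ∀ g' : G, 2 • (tw χ g' R - R) = 0 := fun g' => by
    rw [smul_sub, ← tw_nsmul, tw_two hA.tri h2, sub_self]
  refine ⟨hv g, ?_, ?_, ?_⟩
  · intro h
    have h3 : 2 • (R - R') = 0 := by rw [smul_sub, h, sub_self]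
    have h4 := tw_two (χ := χ) (σ := g) hA.tri h3
    rw [tw_sub] at h4
    rw [sub_eq_sub_iff_add_eq_add] at h4 ⊢
    rw [h4]
    abel
  · intro g' hg
    rw [tw_mul hg]
    have h5 : tw χ g' R = R + (tw χ g' R - R) := by abel
    have h6 : tw χ g (tw χ g' R) = tw χ g R + (tw χ g' R - R) := by
      conv_lhs => rw [h5]
      rw [tw_add, tw_two hA.tri (hv g')]
    rw [h6]
    abel
  · have hs := hA.sa g R R' hR hR'
    rcases zmod2 (χ g) with h | h
    · rw [tw, tw, h, sg_zero', sg_zero']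
      exact hs
    · rw [tw, tw, h, sg_one', sg_one', msa_one hA g hR, msa_one hA g hR',
        hA.e_add _ _ _ (msa_v hA g hR) h2 h2', hs,
        hA.e_sym (2 • R) (g • R' - R' + 2 • R') h2
          (by rw [smul_add, msa_v hA g hR', h2', add_zero]),
        hA.e_add _ _ _ (msa_v hA g hR') h2' h2,
        hA.e_sym (2 • R) _ h2 (msa_v hA g hR'), hA.e_sym (2 • R) _ h2 h2']

end Pool.Agent.MP72S
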