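import Pool.Agent.Lib.MP_72e2e6_nt.Sm.A.Spec3

namespace Pool.Agent.MP72S

open Finset

section

variable {G N ι : Type} [Group G] [AddCommGroup N] [DecidableEq ι] {I : Finset ι}
    {c : ι → G → ZMod 2} {F : Finset ι → G → N}

private theorem Nrm_c1 (h : Sys I c F) {i : ι} (hi : i ∈ I) : c i 1 = 0 := by
  have := h.hom i hi 1 1
  rw [mul_one] at this
  have h2 : c i 1 + 0 = c i 1 + c i 1 := by rw [add_zero]; exact this
  exact (add_left_cancel h2).symm

private theorem Nrm_mul (h : Sys I c F) {U : Finset ι} (hU : U ⊆ I) {g : G}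
    (hg : ∀ i ∈ I, c i g = 0) (k : G) : F U (g * k) = F U g + F U k := by
  rw [h.mul U hU]
  have : (U.filter fun i => c i g = 1) = ∅ := by
    apply Finset.filter_eq_empty_iff.mpr
    intro i hi h1
    rw [hg i (hU hi)] at h1
    exact zero_ne_one h1
  rw [this, Finset.powerset_empty, Finset.sum_singleton, Finset.sdiff_empty]

private theorem Nrm_one (h : Sys I c F) {U : Finset ι} (hU : U ⊆ I) : F U 1 = 0 := by
  have := Nrm_mul h hU (g := 1) (fun i hi => Nrm_c1 h hi) 1
  rw [mul_one] at this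
  have h2 : F U 1 + 0 = F U 1 + F U 1 := by rw [add_zero]; exact this
  exact (add_left_cancel h2).symm

private theorem Nrm_cinv (h : Sys I c F) {i : ι} (hi : i ∈ I) (g : G) :
    c i g⁻¹ = - c i g := by
  have := h.hom i hi g g⁻¹
  rw [mul_inv_cancel, Nrm_c1 h hi] at this
  exact (neg_eq_of_add_eq_zero_right this.symm).symm

private theorem Nrm_cconj (h : Sys I c F) {i : ι} (hi : i ∈ I) (g k : G) :
    c i (k * g * k⁻¹) = c i g := by
  rw [h.hom i hi, h.hom i hi, Nrm_cinv h hi]
  abel

private theorem Nrm_conj (h : Sys I c F) {U : Finset ι} (hU : U ⊆ I) {g : G}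
    (hg : g ∈ sysK I c F) (k : G) : F U (k * g * k⁻¹) = F U g := by
  have h1 : F U (k * g) = F U k + F U g := by
    rw [h.mul U hU]
    congr 1
    rw [Finset.sum_eq_single ∅]
    · rw [Finset.sdiff_empty]
    · intro W hW hne
      rw [Finset.mem_powerset] at hW
      refine hg.2 (U \ W) (Finset.sdiff_subset.trans hU) ?_
      intro heq
      obtain ⟨a, ha⟩ := Finset.nonempty_iff_ne_empty.mpr hne
      have haU : a ∈ U := (Finset.mem_filter.mp (hW ha)).1
      have : a ∈ U \ W := by rw [heq]; exact hU haU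
      exact (Finset.mem_sdiff.mp this).2 ha
    · intro h0
      exact absurd (Finset.empty_mem_powerset _) h0
  have h2 : F U ((k * g * k⁻¹) * k) = F U (k * g * k⁻¹) + F U k :=
    Nrm_mul h hU (fun i hi => by rw [Nrm_cconj h hi]; exact hg.1 i hi) k
  rw [inv_mul_cancel_right, h1] at h2
  rw [add_comm] at h2
  exact (add_right_cancel h2).symm

end

theorem tNrm : S_Nrm := by
  intro G N ι _ _ _ I c F h
  let K : Subgroup G :=
    { carrier := sysK I c F
      mul_mem' := by
        rintro a b ⟨ha, ha'⟩ ⟨hb, hb'⟩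
        refine ⟨fun i hi => by rw [h.hom i hi, ha i hi, hb i hi, add_zero], fun U hU hne => ?_⟩
        rw [Nrm_mul h hU ha, ha' U hU hne, hb' U hU hne, add_zero]
      one_mem' := ⟨fun i hi => Nrm_c1 h hi, fun U hU _ => Nrm_one h hU⟩
      inv_mem' := by
        rintro a ⟨ha, ha'⟩
        refine ⟨fun i hi => by rw [Nrm_cinv h hi, ha i hi, neg_zero], fun U hU hne => ?_⟩
        have := Nrm_mul h hU ha a⁻¹
        rw [mul_inv_cancel, Nrm_one h hU, ha' U hU hne, zero_add] at this
        exact this.symm }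
  have hK : ∀ g, g ∈ K ↔ g ∈ sysK I c F := fun g => Iff.rfl
  refine ⟨K, ?_, rfl, ?_, ?_, ?_⟩
  · constructor
    intro g hg k
    rw [hK] at hg ⊢
    refine ⟨fun i hi => by rw [Nrm_cconj h hi]; exact hg.1 i hi, fun U hU hne => ?_⟩
    rw [Nrm_conj h hU hg]
    exact hg.2 U hU hne
  · intro g hg k _
    exact Nrm_mul h (Finset.Subset.refl I) ((hK g).mp hg).1 k
  · intro g hg k
    exact Nrm_conj h (Finset.Subset.refl I) ((hK g).mp hg) k
  · intro _ hc hF
    have h1 : (K : Set G) = (⋂ i ∈ (I : Set ι), {g | c i g = 0}) ∩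
        ⋂ U ∈ ((I.powerset.erase I : Finset (Finset ι)) : Set (Finset ι)), {g | F U g = 0} := by
      ext g
      simp only [SetLike.mem_coe, hK, sysK, Set.mem_ofPred_eq, Set.mem_inter_iff, Set.mem_iInter,
        Finset.mem_erase, Finset.mem_powerset]
      constructor
      · rintro ⟨q1, q2⟩
        exact ⟨q1, fun U hU => q2 U hU.2 hU.1⟩
      · rintro ⟨q1, q2⟩
        exact ⟨q1, fun U hU hne => q2 U ⟨hne, hU⟩⟩
    rw [h1]
    apply IsOpen.inter
    · exact (Finset.finite_toSet I).isOpen_biInter fun i hi => (hc i hi).isOpen_fiber 0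
    · refine (Finset.finite_toSet _).isOpen_biInter fun U hU => ?_
      have hU' := Finset.mem_powerset.mp (Finset.mem_of_mem_erase (Finset.mem_coe.mp hU))
      exact (hF U hU').isOpen_fiber 0

end Pool.Agent.MP72S
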