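import Pool.Agent.Lib.MP_72e2e6_nt.Sm.A.Spec3

/-!
# MP_72e2e6_nt, `Sm/A/O1`: level one
-/

namespace Pool.Agent.MP72S

open Finset

theorem tO1 : S_Dk1 → S_ObA → S_O1 := by
  intro _ hOb G N P ι _ _ _ _ _ _ D hA x hx
  obtain ⟨-, -, h3, -, h5⟩ := hOb D hA x hx
  obtain ⟨h0, h0'⟩ := h3 0 (D.Z x).zero_mem
  rw [smul_zero] at h0 h0'
  ext g
  rw [Set.mem_singleton_iff]
  constructor
  · rintro ⟨ξ, η, hξ, hη, hg, hg'⟩
    have hξ0 : ξ = 0 := by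
      rw [show (1 : ℕ) - 1 = 0 from rfl, pow_zero, one_smul] at hξ
      exact hξ
    subst hξ0
    funext ν
    by_cases hν : ν ∈ D.Dk x 1
    · rw [hg ν hν, h5 0 η _ hη h0 ν hν, h0' ν hν, Pi.zero_apply]
    · rw [hg' ν hν, Pi.zero_apply]
  · rintro rfl
    exact ⟨0, _, smul_zero _, h0, fun ν hν => by rw [h0' ν hν, Pi.zero_apply],
      fun ν _ => rfl⟩

end Pool.Agent.MP72S
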