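import Pool.Agent.Lib.MP_72e2e6_nt.Sm.A.Spec1

/-!
# MP_72e2e6_nt, `Sm/A/Par`: parallel faces
-/

namespace Pool.Agent.MP72S

open Finset

theorem tPar : S_Alt → S_Gdf → S_LemB → S_Par := by
  intro hAlt hGdf hB G N P ι _ _ _ _ _ _ D hA x y U₀ hG U hU W hW hUW t ht hti htZ σ
  have hmm : ∀ W w, mx (mx x y W) y w = mx x y (W ∪ w) :=
    (hAlt (A := ℤ) x y U (fun _ => 0) (fun _ => 0)).2.2.2.1
  induction W using Finset.induction_on with
  | empty => rw [(hAlt (A := ℤ) x y U (fun _ => 0) (fun _ => 0)).1]
  | insert i W hi ih =>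
    have hiU₀ : i ∈ U₀ := hW (mem_insert_self i W)
    have hWU₀ : W ⊆ U₀ := (subset_insert i W).trans hW
    have hiU : i ∉ U := fun h => (Finset.disjoint_left.1 hUW h) (mem_insert_self i W)
    have hUW' : Disjoint U W := hUW.mono_right (subset_insert i W)
    have ih' := ih hWU₀ hUW'
    rw [← ih']
    have hBU : insert i U ⊆ U₀ := insert_subset hiU₀ hU
    have hdis : Disjoint W (insert i U) := by
      rw [Finset.disjoint_left]
      intro k hk hk'
      rcases mem_insert.1 hk' with rfl | hk'
      · exact hi hk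
      · exact (Finset.disjoint_left.1 hUW' hk') hk
    have hg := (hGdf D x y U₀ hG).1 W hWU₀ (insert i U) hBU hdis
    have hcard : #(insert i U) = #U + 1 := card_insert_of_notMem hiU
    have h0 := hB D hA (mx x y W) y (insert i U) hg (#U + 1) t hcard.ge ht
      (fun k hk => by
        rw [Nat.add_sub_cancel]
        exact hti k (hBU hk))
      (fun w hw => by
        rw [hmm]
        exact htZ _ (union_subset hWU₀ (hw.trans hBU))) σ
    rw [(hAlt (mx x y W) y U (fun z => D.coc z t σ) (fun _ => 0)).2.2.2.2.1 i hiU] at h0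
    have hup : Function.update (mx x y W) i (y i) = mx x y (insert i W) := by
      funext k
      by_cases hk : k = i
      · subst hk
        simp [mx]
      · simp [mx, hk]
    rw [hup] at h0
    exact (sub_eq_zero.1 h0).symm

end Pool.Agent.MP72S
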