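import Pool.Agent.Lib.MP_72e2e6_nt.Sm.A.Spec3

/-!
# MP_72e2e6_nt, `Sm/A/Psi0`: values of the face functions
-/

namespace Pool.Agent.MP72S

open Finset

private theorem psi0_aux (hAlt : S_Alt) (hChi : S_Chi) (hLfx : S_Lfx)
    {G N P ι : Type} [Group G] [TopologicalSpace G] [AddCommGroup N] [DistribMulAction G N]
    [Fintype ι] [DecidableEq ι] (D : Dat G N P) (hA : Ax D) (x y : ι → P) (U : Finset ι)
    (hG : D.Gd x y U) (F' : Finset ι) (hF : F' ⊆ U) (b : ι) (hb : b ∉ F') (τ : D.J ι → N)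
    (hZ : ∀ w ⊆ F', τ ∈ D.Z (mx x y w)) (he : F' = ∅ → τ (Sum.inr b) = 0) (g : G)
    (hg : g = D.tau (x b) ∨ g = D.phi (x b)) :
    alt x y F' (fun z => D.coc z τ g) = 0 := by
  have h0 : mx x y ∅ = x := (hAlt (A := ℤ) x y ∅ (fun _ => 0) (fun _ => 0)).1
  rcases F'.eq_empty_or_nonempty with rfl | hne
  · rw [(hAlt x y ∅ (fun z => D.coc z τ g) (fun _ => 0)).2.1]
    have hx : τ ∈ D.Z x := by
      have := hZ ∅ (empty_subset _)
      rwa [h0] at this
    obtain ⟨Q, hQ, hl⟩ := (Dat.coc_spec hx).lo (Sum.inr b)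
    rw [he rfl] at hQ
    have hpl : D.pl x (Sum.inr b) = x b := rfl
    rw [hpl] at hl
    rcases hg with rfl | rfl
    · rw [hl.1, tw_two hA.tri hQ, sub_self]
    · rw [hl.2, tw_two hA.tri hQ, sub_self]
  · have hx : τ ∈ D.Z x := by
      have := hZ ∅ (empty_subset _)
      rwa [h0] at this
    obtain ⟨Q, hQ, hl⟩ := (Dat.coc_spec hx).lo (Sum.inr b)
    have hpl : D.pl x (Sum.inr b) = x b := rfl
    rw [hpl] at hl
    have hs : alt x y F' (fun z => D.coc z τ g) = alt x y F' (fun _ => D.coc x τ g) := by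
      rw [alt, alt]
      apply Finset.sum_congr rfl
      intro w hw
      have hwF := mem_powerset.1 hw
      have hbw : b ∉ w := fun h => hb (hwF h)
      obtain ⟨Q', hQ', hl'⟩ := (Dat.coc_spec (hZ w hwF)).lo (Sum.inr b)
      have hpl' : D.pl (mx x y w) (Sum.inr b) = x b := if_neg hbw
      rw [hpl'] at hl'
      have hc := (hChi D hA x y U hG w (hwF.trans hF)).2.1 b hbw
      have h1 := hLfx D hA (mx x y w) x (x b) Q' Q _ _ hl' hl (by rw [hQ, hQ']) hc.1 hc.2
      congr 1
      rcases hg with rfl | rfl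
      · exact h1.1
      · exact h1.2
    rw [hs]
    exact (hAlt x y F' (fun _ => (0 : N)) (fun _ => 0)).2.2.2.2.2.2.2 _ hne

theorem tPsi0 : S_Alt → S_Gdf → S_Uq → S_Tai → S_Chi → S_Lfx → S_Par → S_Psi0 := by
  intro hAlt _ _ _ hChi hLfx hPar
  refine ⟨?_, ?_, ?_⟩
  · intro G N P ι _ _ _ _ _ _ D hA x y U b hG hb hU τ hτ hτi hZ t F' hF hF'
    have hFU : F' ⊆ U := hF.trans (erase_subset _ _)
    have hbF : b ∉ F' := fun h => (mem_erase.1 (hF h)).1 rfl
    have hc : #(U.erase b) = #U - 1 := card_erase_of_mem hb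
    have hlt : #F' < #(U.erase b) := card_lt_card (hF.ssubset_of_ne hF')
    have hmx : mx x y {b} = Function.update x b (y b) := by
      funext k
      by_cases hk : k = b
      · subst hk
        simp [mx]
      · simp [mx, hk]
    rw [Dat.fc, if_neg hF', ← hmx]
    have hp := hPar D hA x y U hG F' hFU {b} (singleton_subset_iff.2 hb)
      (disjoint_singleton_right.2 hbF) (2 ^ (#(U.erase b) - 1 - #F') • τ)
      (by
        rw [← mul_smul, ← pow_add,
          show #F' + 1 + (#(U.erase b) - 1 - #F') = #U - 1 by omega]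
        exact hτ)
      (fun i hi => by
        rw [Pi.smul_apply, ← mul_smul, ← pow_add,
          show #F' + (#(U.erase b) - 1 - #F') = #U - 2 by omega]
        exact hτi i hi)
      (fun w hw => (D.Z _).nsmul_mem (hZ w hw) _) (D.phi (x b))
    rw [hp]
    apply psi0_aux hAlt hChi hLfx D hA x y U hG F' hFU b hbF _
      (fun w hw => (D.Z _).nsmul_mem (hZ w (hw.trans hFU)) _) _ _ (Or.inr rfl)
    rintro rfl
    rw [Pi.smul_apply, card_empty, show #(U.erase b) - 1 - 0 = #U - 2 by omega]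
    exact hτi b hb
  · intro G N P ι _ _ _ _ _ _ D hA x y I b hG hb hI τ hτ hτb hZ t F' hF hF'
    have hbF : b ∉ F' := fun h => hb (hF h)
    have hlt : #F' < #I := card_lt_card (hF.ssubset_of_ne hF')
    have h1 : ∀ g, (g = D.tau (x b) ∨ g = D.phi (x b)) → D.fc x y I τ t F' g = 0 := by
      intro g hg
      rw [Dat.fc, if_neg hF']
      apply psi0_aux hAlt hChi hLfx D hA x y I hG F' hF b hbF _
        (fun w hw => (D.Z _).nsmul_mem (hZ w (hw.trans hF)) _) _ _ hg
      rintro rfl
      rw [Pi.smul_apply, card_empty, Nat.sub_zero]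
      exact hτb
    exact ⟨h1 _ (Or.inr rfl), h1 _ (Or.inl rfl)⟩
  · intro G N P ι _ _ _ _ _ _ D hA x y I hG τ t hZ F' hF v hvS hvx hvy
    have hr : ∀ w ⊆ I, v ∉ Set.range (D.pl (mx x y w)) := by
      rintro w hw ⟨j, hj⟩
      rcases j with s | k
      · exact hvS (hj ▸ s.2)
      · by_cases hk : k ∈ w
        · apply hvy k (hw hk)
          rw [← hj]
          exact if_pos hk
        · apply hvx k
          rw [← hj]
          exact if_neg hk
    rw [Dat.fc]
    split_ifs with h
    · rw [alt]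
      apply Finset.sum_eq_zero
      intro w hw
      have hwI := mem_powerset.1 hw
      rw [(Dat.coc_spec (hZ w hwI).2).u.ur v (hr w hwI), smul_zero]
    · rw [alt]
      apply Finset.sum_eq_zero
      intro w hw
      have hwI := (mem_powerset.1 hw).trans hF
      rw [(Dat.coc_spec ((D.Z _).nsmul_mem (hZ w hwI).1 _)).u.ur v (hr w hwI), smul_zero]

end Pool.Agent.MP72S
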