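import Pool.Agent.Lib.MP_72e2e6_nt.Sm.A.Spec3

namespace Pool.Agent.MP72S

open Finset

theorem tRat : S_Rat := by
  intro G α C _ _ _ _ Gb K c g κ hc hg hg1 hg0 hκ hne
  classical
  let f : Gb →* Multiplicative (α → ZMod 2) :=
    { toFun := fun h => Multiplicative.ofAdd fun a => c a h.1
      map_one' := by
        apply Multiplicative.toAdd.injective
        funext a
        change c a 1 = 0
        have := hc a 1 1
        rw [mul_one] at this
        have h2 : c a 1 + 0 = c a 1 + c a 1 := by rw [add_zero]; exact this
        exact (add_left_cancel h2).symm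
      map_mul' := by
        intro x y
        apply Multiplicative.toAdd.injective
        funext a
        exact hc a x.1 y.1 }
  have hf : ∀ (h : Gb) (a : α), Multiplicative.toAdd (f h) a = c a h.1 := fun _ _ => rfl
  have hsurj : Function.Surjective f := by
    rw [← MonoidHom.range_eq_top, eq_top_iff]
    intro v _
    -- v is the product of the unit vectors
    let R : AddSubgroup (α → ZMod 2) := Subgroup.toAddSubgroup' f.range
    have hR : ∀ w : α → ZMod 2, w ∈ R ↔ Multiplicative.ofAdd w ∈ f.range := fun w => Iff.rfl
    have hunit : ∀ a, Pi.single a (1 : ZMod 2) ∈ R := by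
      intro a
      rw [hR]
      refine ⟨⟨g a, hg a⟩, ?_⟩
      apply Multiplicative.toAdd.injective
      funext a'
      change c a' (g a) = Pi.single (M := fun _ => ZMod 2) a 1 a'
      by_cases h : a' = a
      · subst h; rw [hg1, Pi.single_eq_same]
      · rw [hg0 a a' h, Pi.single_eq_of_ne h]
    have hall : ∀ w : α → ZMod 2, w ∈ R := by
      intro w
      have h1 : w = ∑ a, Pi.single (M := fun _ => ZMod 2) a (w a) :=
        (Finset.univ_sum_single w).symm
      rw [h1]
      refine R.sum_mem fun a _ => ?_
      rcases zmod2 (w a) with h | h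
      · rw [h, Pi.single_zero]; exact R.zero_mem
      · rw [h]; exact hunit a
    exact (hR (Multiplicative.toAdd v)).mp (hall _)
  set k := K.subgroupOf Gb with hk
  have h1 : (k.map f).index ∣ k.index := Subgroup.index_map_dvd k hsurj
  have hk0 : k.index ≠ 0 := hne
  have h2 : (k.map f).index ≤ K.relIndex Gb := Nat.le_of_dvd (Nat.pos_of_ne_zero hk0) h1
  have h3 : Nat.card (k.map f) * (k.map f).index = Nat.card (Multiplicative (α → ZMod 2)) :=
    Subgroup.card_mul_index _
  have h4 : Nat.card (Multiplicative (α → ZMod 2)) = 2 ^ Fintype.card α := by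
    rw [Nat.card_congr Multiplicative.toAdd, Nat.card_eq_fintype_card, Fintype.card_fun]
    simp [ZMod.card]
  have h5 : Nat.card (k.map f) ≤ 2 ^ Fintype.card C := by
    have h6 : Nat.card (C → ZMod 2) = 2 ^ Fintype.card C := by
      rw [Nat.card_eq_fintype_card, Fintype.card_fun]
      simp [ZMod.card]
    rw [← h6]
    have hfac : ∀ v : k.map f, ∀ a a', κ a = κ a' → Multiplicative.toAdd v.1 a =
        Multiplicative.toAdd v.1 a' := by
      rintro ⟨v, h, hh, rfl⟩ a a' haa
      change c a h.1 = c a' h.1
      exact hκ h.1 (Subgroup.mem_subgroupOf.mp hh) a a' haa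
    let Φ : k.map f → (C → ZMod 2) := fun v e =>
      if h : ∃ a, κ a = e then Multiplicative.toAdd v.1 h.choose else 0
    refine Nat.card_le_card_of_injective Φ ?_
    intro v v' hvv
    apply Subtype.ext
    apply Multiplicative.toAdd.injective
    funext a
    have h7 := congrFun hvv (κ a)
    have hex : ∃ a', κ a' = κ a := ⟨a, rfl⟩
    simp only [Φ, dif_pos hex] at h7
    rw [hfac v a _ hex.choose_spec.symm, hfac v' a _ hex.choose_spec.symm]
    exact h7
  calc 2 ^ Fintype.card α = Nat.card (k.map f) * (k.map f).index := by rw [h3, h4]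
    _ ≤ 2 ^ Fintype.card C * K.relIndex Gb := Nat.mul_le_mul h5 h2

end Pool.Agent.MP72S
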