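import Pool.Agent.Lib.MP_72e2e6_nt.Sm.Defs

/-!
# MP_72e2e6_nt, `Sm/A`: cubes and cocycles, statements with proofs, part 1

Used statements are hypotheses of the modules. `D.T ι`, `tor`, `mulN`, `Dk` are in `Sm/Defs.lean`.
Elements of order two: `htri` (`Ax.tri`) and `sg_two`, `tw_two` say that they are fixed by the
twisted action. `V` is the group of the `s : N` with `2 • s = 0`; for `s` in `V` we have `-s = s`.
-/

namespace Pool.Agent.MP72S

open Finset

/-- Module `Alt`. PROOF. `mx x y ∅ = x`. `mx (update x i (y i)) y w = mx x y (insert i w)`. The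
powerset of `insert i U` is the disjoint union of the powerset of `U` and of its image under
`insert i` (`Finset.sum_powerset_insert`), `#(insert i w) = #w + 1` for `w ⊆ U`. For the last
statement: the sum of `(-1) ^ #w` over the subsets of `U` is zero if `U` is not empty
(`Finset.sum_powerset_neg_one_pow_card`, or induction). `mx_mx`: case distinction. -/
def S_Alt : Prop :=
  ∀ {P ι A : Type} [DecidableEq ι] [AddCommGroup A] (x y : ι → P) (U : Finset ι)
    (f g : (ι → P) → A),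
    mx x y ∅ = x ∧ alt x y ∅ f = f x ∧
    (∀ i w, mx (Function.update x i (y i)) y w = mx x y (insert i w)) ∧
    (∀ W w, mx (mx x y W) y w = mx x y (W ∪ w)) ∧
    (∀ i, i ∉ U → alt x y (insert i U) f = alt x y U f - alt (Function.update x i (y i)) y U f) ∧
    alt x y U (fun z => f z + g z) = alt x y U f + alt x y U g ∧
    (∀ n : ℕ, alt x y U (fun z => n • f z) = n • alt x y U f) ∧
    (∀ a : A, U.Nonempty → alt x y U (fun _ => a) = 0)

/-- Module `Dif` (the difference formula). PROOF. `alt` is additive. `chi (mx x y w) σ = chi x σ +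
∑_{i ∈ w} c i`, `c i = ch (x i) σ + ch (y i) σ` (characteristic two), so `tw (chi (mx x y w)) σ m
= sg (chi x σ) (sg (∑_{i ∈ w} c i) (σ • m))` (`sg_sg`), and `sg a` and `σ •` are additive. So it
remains to show, for every `f`,
`∑_{w ⊆ U} (-1)^#w sg (∑_{i ∈ w} c i) (f (mx x y w)) = ∑_{W ⊆ T} 2^#W alt (mx x y W) y (U \ W) f`,
`T = {i ∈ U | c i = 1}`. Induction on `U`, for all `x`. For `insert i U`, `i ∉ U`, and
`x' = update x i (y i)` the left side is `L(U, x) - sg (c i) (L(U, x'))`. If `c i = 0` this is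
`L(U,x) - L(U,x')` and the right side is `R(U,x) - R(U,x')` by `Alt` (for `W ⊆ U` without `i`:
`alt (mx x y W) y (insert i U \ W) = alt (mx x y W) y (U \ W) - alt (mx x' y W) y (U \ W)`, since
`update (mx x y W) i (y i) = mx x' y W` for `i ∉ W`). If `c i = 1` it is `L(U,x) + L(U,x') =
(L(U,x) - L(U,x')) + 2 L(U,x')`; the first part are the `W` without `i`, the second the
`insert i W` (`mx x y (insert i W) = mx x' y W`). -/
def S_Dif : Prop :=
  ∀ {G N P ι : Type} [Group G] [AddCommGroup N] [DistribMulAction G N] [Fintype ι] [DecidableEq ι]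
    (D : Dat G N P) (ψ : (ι → P) → G → N) (x y : ι → P) (U : Finset ι) (σ τ : G),
    alt x y U (fun z => ψ z σ + tw (D.chi z) σ (ψ z τ) - ψ z (σ * τ)) =
      alt x y U (fun z => ψ z σ) - alt x y U (fun z => ψ z (σ * τ)) +
        tw (D.chi x) σ (∑ W ∈ (U.filter fun i => D.ch (x i) σ + D.ch (y i) σ = 1).powerset,
          2 ^ #W • alt (mx x y W) y (U \ W) fun z => ψ z τ)

/-- Module `Gdf` (faces of good cubes). PROOF. `mx (mx x y A) y w = mx x y (A ∪ w)`. For `i ∈ B`
(so `i ∉ A`) `mx x y A i = x i`. `mx x y A j` is `x j` or (if `j ∈ A`) `y j`, so that `sx` for the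
face follows from `sx` or `sy`. The second statement: `mx x y {i} = update x i (y i)`. The third:
`x i ≠ y j` for `j ≠ i` in `U`: injectivity of `mx x y {j}`; `x i ∉ D.S`, `y i ∉ D.S` (`nS`). -/
def S_Gdf : Prop :=
  ∀ {G N P ι : Type} [Group G] [TopologicalSpace G] [AddCommGroup N] [DistribMulAction G N]
    [Fintype ι] [DecidableEq ι] (D : Dat G N P) (x y : ι → P) (U : Finset ι), D.Gd x y U →
    (∀ A ⊆ U, ∀ B ⊆ U, Disjoint A B → D.Gd (mx x y A) y B) ∧
    (∀ i ∈ U, ∀ j, y i ≠ x j) ∧ (∀ i ∈ U, y i ∉ D.S) ∧ (∀ i ∈ U, ∀ j ∈ U, i ≠ j → y i ≠ y j)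

/-- Module `Hom` (homomorphisms to `V` are determined by their values at the inertia generators and
at `φ_∞`; existence with given values). PROOF. (1) For `s ∈ V` the function `σ ↦ e (θ σ) s` is a
character in the sense of `IsCh` (`e_add`); by `uni` it vanishes, and `e_nd` gives `θ σ = 0`.
(2) `θ σ = ∑_{v ∈ A} [ch v σ = 1] u v + [cst σ = 1] c`, where `[a = 1] u` is `if a = 0 then 0
else u`; this is a homomorphism in `σ` for `u ∈ V` (`2 u = 0`), locally constant (finite sum of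
compositions of locally constant functions), `θ (τ_w) = u w` for `w ∈ A` and zero for `w ∉ A`,
`w ≠ ∞`, and `θ (φ_∞) = c` since `ch v (φ_∞) = 0`, `cst (φ_∞) = 1`. (3) finiteness: by (1) `θ` is
determined by its values in `V` (four elements) at the `τ_v`, `v ∈ A`, and at `φ_∞`. -/
def S_Hom : Prop :=
  ∀ {G N P : Type} [Group G] [TopologicalSpace G] [AddCommGroup N] [DistribMulAction G N]
    (D : Dat G N P), Ax D →
    (∀ θ : G → N, IsHo θ → (∀ v, θ (D.tau v) = 0) → θ (D.phi D.inf) = 0 → ∀ σ, θ σ = 0) ∧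
    (∀ (A : Finset P) (u : P → N) (c : N), D.inf ∉ A → (∀ v, 2 • u v = 0) → 2 • c = 0 →
      ∃ θ : G → N, IsHo θ ∧ (∀ v ∈ A, θ (D.tau v) = u v) ∧
        (∀ v, v ∉ A → v ≠ D.inf → θ (D.tau v) = 0) ∧ θ (D.phi D.inf) = c) ∧
    (∀ A : Finset P, {θ : G → N | IsHo θ ∧ ∀ v, v ∉ A → θ (D.tau v) = 0}.Finite)

/-- Module `Inj` (a Selmer cocycle of type zero vanishes). PROOF. By `lo` and `tri` we have
`ψ (τ_v) = 0 = ψ (φ_v)` at all places `v = pl x j` (`2 Q = 0`, so `tw Q = Q`), also `ψ (τ_v) = 0`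
at all other places (`ur`). Let `2^k ψ = 0` (`bd`). Induction on `k`: `θ = 2^(k-1) ψ` has values in
`V`, so it is a homomorphism (`tw_two`), vanishes at all `τ_v` and at `φ_∞` (`inf ∈ S`), so `θ = 0`
by `Hom` (1). -/
def S_Inj : Prop :=
  ∀ {G N P ι : Type} [Group G] [TopologicalSpace G] [AddCommGroup N] [DistribMulAction G N]
    [Fintype ι] [DecidableEq ι] (D : Dat G N P), Ax D → ∀ (x : ι → P) (ψ : G → N),
    D.IsZ x 0 ψ → ∀ σ, ψ σ = 0

/-- Module `Uq` (uniqueness of the cocycle, additivity). PROOF. The difference of two cocycles of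
the same type has type zero (`IsZ.add`, `IsZ.neg`) and vanishes by `Inj`. All statements follow,
with `coc_spec`; `2^k coc x t` has type `2^k t`. -/
def S_Uq : Prop :=
  ∀ {G N P ι : Type} [Group G] [TopologicalSpace G] [AddCommGroup N] [DistribMulAction G N]
    [Fintype ι] [DecidableEq ι] (D : Dat G N P), Ax D → ∀ (x : ι → P),
    (∀ t (ψ : G → N), D.IsZ x t ψ → ∀ σ, D.coc x t σ = ψ σ) ∧
    (∀ t ∈ D.Z x, ∀ t' ∈ D.Z x, ∀ σ, D.coc x (t + t') σ = D.coc x t σ + D.coc x t' σ) ∧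
    (∀ t ∈ D.Z x, ∀ (n : ℕ) (σ : G), D.coc x (n • t) σ = n • D.coc x t σ) ∧
    (∀ σ, D.coc x 0 σ = 0) ∧
    (∀ t ∈ D.Z x, ∀ k : ℕ, 2 ^ k • t = 0 → ∀ σ, 2 ^ k • D.coc x t σ = 0)

/-- Module `Tin` (the diagonal types are Selmer types). PROOF. `ψ σ = tw (chi x) σ R - R` with
`2 R = s` (`dvs`): it is a cocycle (`chi x` is a homomorphism, `tw_mul`), locally constant (`act`
and the characters), killed by `2^(k+1)` if `2^k s = 0`, unramified at `v ∉ range (pl x)`
(`chi x (τ_v) = 0` by `ch0_tau`, `ch_tau'`: `v ∉ S`, `v ≠ x i`; and `τ_v` acts trivially), and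
`lo` holds with `Q = R` at all places. -/
def S_Tin : Prop :=
  ∀ {G N P ι : Type} [Group G] [TopologicalSpace G] [AddCommGroup N] [DistribMulAction G N]
    [Fintype ι] [DecidableEq ι] (D : Dat G N P), Ax D → ∀ (x : ι → P), D.Ok x →
    ∀ s R : N, 2 • R = s →
      D.IsZ x (fun _ => s) fun σ => tw (D.chi x) σ R - R

/-- Module `Tai` (values of the character and of the cocycles at the inertia generators). PROOF.
`chi x (τ_v) = ch0 (τ_v) + ∑ ch (x i) (τ_v)`; `ch0_tau`, `ch_tau`, `ch_tau'` (the `x i` are distinct,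
not in `S`, so different from infinity). For the last statement: `tw Q - Q = -Q - Q = - t (inr i)`
by `unr`. -/
def S_Tai : Prop :=
  ∀ {G N P ι : Type} [Group G] [TopologicalSpace G] [AddCommGroup N] [DistribMulAction G N]
    [Fintype ι] [DecidableEq ι] (D : Dat G N P), Ax D → ∀ (x : ι → P), D.Ok x →
    (∀ i, D.chi x (D.tau (x i)) = 1) ∧
    (∀ v, v ∉ Set.range (D.pl x) → D.chi x (D.tau v) = 0) ∧
    (∀ σ τ, D.chi x (σ * τ) = D.chi x σ + D.chi x τ) ∧ IsLocallyConstant (D.chi x) ∧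
    (∀ i t (ψ : G → N), D.IsZ x t ψ → ψ (D.tau (x i)) = -t (Sum.inr i)) ∧
    (∀ i Q (ψ : G → N), D.Lo x (x i) Q ψ → ψ (D.tau (x i)) = -(2 • Q))

/-- Module `Chi` (the character is the same at the places of a good cube). PROOF.
`chi (mx x y w) σ = chi x σ + ∑_{i ∈ w} (ch (x i) σ + ch (y i) σ)`, and each summand vanishes at the
elements in question by `sS`, `sx`, `sy`, and at the `τ`'s of places outside `S` by `ch_tau'` (the
places are distinct by `Gdf` and injectivity). (2): `j ∈ U` and `w` does not contain `j`.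
(3): `j ∈ U` and `w` contains `j`, at the place `y j`; compare with the vertex `{j}`. -/
def S_Chi : Prop :=
  ∀ {G N P ι : Type} [Group G] [TopologicalSpace G] [AddCommGroup N] [DistribMulAction G N]
    [Fintype ι] [DecidableEq ι] (D : Dat G N P), Ax D → ∀ (x y : ι → P) (U : Finset ι),
    D.Gd x y U → ∀ w ⊆ U,
    (∀ s ∈ D.S, D.chi (mx x y w) (D.tau s) = D.chi x (D.tau s) ∧
      D.chi (mx x y w) (D.phi s) = D.chi x (D.phi s)) ∧
    (∀ j, j ∉ w → D.chi (mx x y w) (D.tau (x j)) = D.chi x (D.tau (x j)) ∧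
      D.chi (mx x y w) (D.phi (x j)) = D.chi x (D.phi (x j))) ∧
    (∀ j ∈ w, D.chi (mx x y w) (D.tau (y j)) = D.chi (mx x y {j}) (D.tau (y j)) ∧
      D.chi (mx x y w) (D.phi (y j)) = D.chi (mx x y {j}) (D.phi (y j)))

/-- Module `Lfx` (local agreement of cocycles). PROOF. If `2 Q = 2 Q'` then `Q - Q' ∈ V` is fixed by
the twisted action, so `tw Q - Q = tw Q' - Q'` (the characters agree at the element). -/
def S_Lfx : Prop :=
  ∀ {G N P ι : Type} [Group G] [TopologicalSpace G] [AddCommGroup N] [DistribMulAction G N]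
    [Fintype ι] [DecidableEq ι] (D : Dat G N P), Ax D → ∀ (x x' : ι → P) (v : P) (Q Q' : N)
    (ψ ψ' : G → N), D.Lo x v Q ψ → D.Lo x' v Q' ψ' → 2 • Q = 2 • Q' →
    D.chi x (D.tau v) = D.chi x' (D.tau v) → D.chi x (D.phi v) = D.chi x' (D.phi v) →
    ψ (D.tau v) = ψ' (D.tau v) ∧ ψ (D.phi v) = ψ' (D.phi v)

/-- Module `LemB`. PROOF. Strong induction on `j`, for all cubes. `j = 0`: `t = 0`, `coc z 0 = 0`.
Let `j ≥ 1` and `Φ σ = alt x y U (coc z t σ)`. (i) `2 Φ = alt (coc z (2 t)) = 0` by induction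
(`2^(j-1) (2 t) = 0`, `2^(j-2) (2 t (inr i)) = 0`, or `j = 1` and `2 t = 0`, `coc z 0 = 0`). (ii) By
`Dif` (the left side vanishes, since the `coc (mx x y w) t`, `w ⊆ U`, are cocycles) and since
`2^#W alt (mx x y W) y (U \ W) (coc z t) = alt (mx x y W) y (U \ W) (coc z (2^#W t)) = 0` for
`W ≠ ∅` by induction (level `j - #W ≤ #U - #W`, the cube is good by `Gdf`; if `#W ≥ j` then
`2^#W t = 0`), `Φ` is a cocycle; it has values in `V`, so it is a homomorphism. It is locally
constant. (iii) `Φ (τ_v) = 0` for all `v` and `Φ (φ_∞) = 0`, so `Φ = 0` by `Hom`. The set `U` is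
not empty (`1 ≤ j ≤ #U`). If `v ∈ S`: all `coc (mx x y w) t` have the same values at `τ_v` and `φ_v`
(`Lfx`, `Chi`), so `alt = 0` by the last part of `Alt`. If `v = x i`, `i ∉ U`: the same. If
`v = x i`, `i ∈ U`: `coc (mx x y w) t (τ_v) = -t (inr i)` if `i ∉ w` (`Tai`) and `0` if `i ∈ w`
(`ur`; `x i` is not a place of `mx x y w`), so `Φ (τ_v) = -(∑_{w ⊆ U \ {i}} (-1)^#w) t (inr i)`,
which is zero if `U ≠ {i}`; if `U = {i}` then `j = 1` and `t (inr i) = 0`. If `v = y i`, `i ∈ U`: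
the same with `i ∈ w` and `i ∉ w` exchanged. All other `v`: all values are zero (`ur`). -/
def S_LemB : Prop :=
  ∀ {G N P ι : Type} [Group G] [TopologicalSpace G] [AddCommGroup N] [DistribMulAction G N]
    [Fintype ι] [DecidableEq ι] (D : Dat G N P), Ax D → ∀ (x y : ι → P) (U : Finset ι),
    D.Gd x y U → ∀ (j : ℕ) (t : D.J ι → N), j ≤ #U → 2 ^ j • t = 0 →
    (∀ i ∈ U, 2 ^ (j - 1) • t (Sum.inr i) = 0) → (∀ w ⊆ U, t ∈ D.Z (mx x y w)) →
    ∀ σ, alt x y U (fun z => D.coc z t σ) = 0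

/-- Module `Par` (parallel faces). PROOF. Induction on `W`: for `W = insert i W'` apply `LemB` to the
good cube `(mx x y W', y, insert i U)` (`Gdf`) with `j = #U + 1` and the recursion of `Alt`:
`alt (mx x y W') y U = alt (update (mx x y W') i (y i)) y U` and
`update (mx x y W') i (y i) = mx x y W`. -/
def S_Par : Prop :=
  ∀ {G N P ι : Type} [Group G] [TopologicalSpace G] [AddCommGroup N] [DistribMulAction G N]
    [Fintype ι] [DecidableEq ι] (D : Dat G N P), Ax D → ∀ (x y : ι → P) (U₀ : Finset ι),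
    D.Gd x y U₀ → ∀ U ⊆ U₀, ∀ W ⊆ U₀, Disjoint U W → ∀ t : D.J ι → N, 2 ^ (#U + 1) • t = 0 →
    (∀ i ∈ U₀, 2 ^ #U • t (Sum.inr i) = 0) → (∀ w ⊆ U₀, t ∈ D.Z (mx x y w)) →
    ∀ σ, alt (mx x y W) y U (fun z => D.coc z t σ) = alt x y U (fun z => D.coc z t σ)

/-- The function at the base vertex for which the alternating sum over the cube vanishes. -/
def cmp {G N P ι : Type} [AddCommGroup N] [DecidableEq ι] (x y : ι → P) (U : Finset ι)
    (ψ : (ι → P) → G → N) (σ : G) : N :=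
  -∑ w ∈ U.powerset.erase ∅, (-1 : ℤ) ^ #w • ψ (mx x y w) σ

/-- Module `Cmp` (completion of a family of cocycles). PROOF. Let `ψ'' z = if z = x then cmp x y U ψ
else ψ z`. Since `x i ≠ y i` for `i ∈ U`, `mx x y w = x` for `w ⊆ U` only if `w = ∅`. So
`alt x y U ψ'' = 0` pointwise and `alt (mx x y W) y (U \ W) ψ'' = alt (mx x y W) y (U \ W) ψ` for
`W ≠ ∅`. `Dif` for `ψ''`: on the left only the vertex `x` remains, on the right everything is zero
by the hypothesis. -/
def S_Cmp : Prop :=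
  ∀ {G N P ι : Type} [Group G] [AddCommGroup N] [DistribMulAction G N] [Fintype ι] [DecidableEq ι]
    (D : Dat G N P) (ψ : (ι → P) → G → N) (x y : ι → P) (U : Finset ι), (∀ i ∈ U, x i ≠ y i) →
    (∀ w ⊆ U, w.Nonempty → IsCo (D.chi (mx x y w)) (ψ (mx x y w))) →
    (∀ W ⊆ U, W.Nonempty → ∀ σ, 2 ^ #W • alt (mx x y W) y (U \ W) (fun z => ψ z σ) = 0) →
    IsCo (D.chi x) (cmp x y U ψ)

/-- Module `CmL` (the completed function at the places). `Q w j` are local data of the cocycles at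
the vertices. PROOF. (1) `v = pl x j` with `j = inl s` or `j = inr i`, `i ∉ U`: the characters of all
vertices agree at `τ_v` and `φ_v` (`Chi`), and the place with index `j` is `v` for all vertices; sum
up. (2) `v = x i`, `i ∈ U`: the vertices without `i` as in (1), the others remain. (3) `v = y i`:
only the vertices with `i` are ramified; `Tai`. (4) `ur`. In (2) the values of `ψ (mx x y w)`,
`i ∈ w`, at `τ_v` vanish. -/
def S_CmL : Prop :=
  ∀ {G N P ι : Type} [Group G] [TopologicalSpace G] [AddCommGroup N] [DistribMulAction G N]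
    [Fintype ι] [DecidableEq ι] (D : Dat G N P), Ax D → ∀ (x y : ι → P) (U : Finset ι),
    D.Gd x y U → ∀ (ψ : (ι → P) → G → N) (Q : Finset ι → D.J ι → N),
    (∀ w ⊆ U, w.Nonempty → D.IsU (mx x y w) (ψ (mx x y w))) →
    (∀ w ⊆ U, w.Nonempty → ∀ j, (∀ i ∈ U, j ≠ Sum.inr i) →
      D.Lo (mx x y w) (D.pl (mx x y w) j) (Q w j) (ψ (mx x y w))) →
    (∀ j, (∀ i ∈ U, j ≠ Sum.inr i) → D.Lo x (D.pl x j)
      (-∑ w ∈ U.powerset.erase ∅, (-1 : ℤ) ^ #w • Q w j) (cmp x y U ψ)) ∧
    (∀ i ∈ U, ∀ g, g = D.tau (x i) ∨ g = D.phi (x i) →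
      (∀ w ⊆ U.erase i, w.Nonempty → ψ (mx x y w) g = tw (D.chi x) g (Q w (Sum.inr i)) -
        Q w (Sum.inr i)) →
      cmp x y U ψ g = tw (D.chi x) g
          (-∑ w ∈ (U.erase i).powerset.erase ∅, (-1 : ℤ) ^ #w • Q w (Sum.inr i)) -
        (-∑ w ∈ (U.erase i).powerset.erase ∅, (-1 : ℤ) ^ #w • Q w (Sum.inr i)) +
        alt (Function.update x i (y i)) y (U.erase i) (fun z => ψ z g)) ∧
    (∀ i ∈ U, ∀ w ⊆ U, i ∈ w → ψ (mx x y w) (D.tau (x i)) = 0) ∧
    (∀ i ∈ U, cmp x y U ψ (D.tau (y i)) =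
      alt (Function.update x i (y i)) y (U.erase i) (fun z => ψ z (D.tau (y i)))) ∧
    (∀ v, v ∉ Set.range (D.pl x) → (∀ i ∈ U, v ≠ y i) → cmp x y U ψ (D.tau v) = 0)

/-- Module `LemD` (completion of a cube). PROOF. Let `n = #U`. If `n = 1` then `t = 0`. Let `n ≥ 2`
and `ψ z = coc z t`. `Cmp` applies: `2^#W alt (mx x y W) y (U \ W) (coc z t) = alt .. (coc z (2^#W
t)) = 0` by `LemB` with `j = n - 1 - #W` (if `#W ≤ n - 1`; `2^(n-1-#W) 2^#W t = 0`, `2^(n-2-#W)
2^#W t (inr i) = 2^(n-2) t (inr i) = 0`; for `#W = n` it is `2^n t = 0`). So `ψ' = cmp x y U ψ` is a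
cocycle for `chi x`; it is locally constant and of bounded order (finite sum). By `CmL` with
`2 Q w j = t j`: at the `j` outside `U`: `Lo x (pl x j) Q' ψ'` with `2 Q' = -(∑_{w ≠ ∅} (-1)^#w)
t j = t j`. At `x i`, `i ∈ U`: the last term is an alternating sum over the good cube
`(update x i (y i), y, U \ {i})` of dimension `n - 1`; it vanishes by `LemB` with `j = n - 1`; so
`Lo x (x i) Q' ψ'` with `2 Q' = -(∑_{w ⊆ U \ {i}, w ≠ ∅} (-1)^#w) t (inr i) = t (inr i)`
(`n - 1 ≥ 1`). The hypothesis of (2) of `CmL` holds since for `w` without `i` the cocycle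
`coc (mx x y w) t` satisfies `Lo (mx x y w) (x i) (Q w (inr i))` and `chi (mx x y w)`, `chi x` agree
at `τ`, `φ` of `x i` (`Chi`). At `y i`: `alt .. = 0` (the same cube and `LemB`). At all other places
`ψ'` is unramified. So `IsZ x t ψ'`. -/
def S_LemD : Prop :=
  ∀ {G N P ι : Type} [Group G] [TopologicalSpace G] [AddCommGroup N] [DistribMulAction G N]
    [Fintype ι] [DecidableEq ι] (D : Dat G N P), Ax D → ∀ (x y : ι → P) (U : Finset ι),
    D.Gd x y U → U.Nonempty → ∀ (t : D.J ι → N), 2 ^ (#U - 1) • t = 0 →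
    (∀ i ∈ U, 2 ^ (#U - 2) • t (Sum.inr i) = 0) →
    (∀ w ⊆ U, w.Nonempty → t ∈ D.Z (mx x y w)) → t ∈ D.Z x

end Pool.Agent.MP72S
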