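import Pool.Agent.Lib.MP_72e2e6_nt.Sm.A.Spec1

/-!
# MP_72e2e6_nt, `Sm/A`: statements with proofs, part 2 (pairings, obstructions, completion rules)

`V = {s : N | 2 • s = 0}`, fixed by the twisted action (`tw_two`). For `u ∈ V`, `g ∈ G` let
`M_g u = tw χ g h - h` for any `h` with `2 • h = u` (it lies in `V` and does not depend on `h`).
-/

namespace Pool.Agent.MP72S

open Finset

/-- Module `Bas` (a basis of `V`, finiteness). PROOF. `V` has four elements; take `T₁ ≠ 0`; by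
`e_nd` there is `T₂` with `e T₁ T₂ = 1` (`ZMod 2`); `T₂ ≠ 0`, `T₂ ≠ T₁` (`e_alt`), so
`V = {0, T₁, T₂, T₁ + T₂}` and the formulas are checked on these elements (`e_add`, `e_sym`,
`e_alt`, `e 0 _ = 0`). Finiteness of `N[2^k]` by induction: the map `2 • : N[2^(k+1)] → N[2^k]` has
fibres which are contained in translates of `V`. -/
def S_Bas : Prop :=
  ∀ {G N P : Type} [Group G] [TopologicalSpace G] [AddCommGroup N] [DistribMulAction G N]
    (D : Dat G N P), Ax D →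
    (∃ T₁ T₂ : N, 2 • T₁ = 0 ∧ 2 • T₂ = 0 ∧ D.e T₁ T₂ = 1 ∧
      (∀ a : N, 2 • a = 0 →
        a = (if D.e a T₂ = 0 then 0 else T₁) + (if D.e a T₁ = 0 then 0 else T₂)) ∧
      (∀ a b : N, 2 • a = 0 → 2 • b = 0 → D.e a b = D.e a T₂ * D.e b T₁ + D.e a T₁ * D.e b T₂)) ∧
    (∀ k : ℕ, {x : N | 2 ^ k • x = 0}.Finite) ∧ {x : N | 2 • x = 0}.ncard = 4

/-- Module `Msa` (the maps `M_g` are selfadjoint). PROOF. `2 (g R - R) = g (2 R) - 2 R = 0` by
`tri`. If `χ g = 0` this is `sa`. If `χ g = 1` then `tw χ g R - R = -(g R) - R = -(g R - R) - 2 R =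
(g R - R) + 2 R` (elements of `V`), and the same for `R'`; `e_add`, `e_sym`. For the second
statement: `R - R'` is in `V`. Third: `tw χ (g g') R - R = tw χ g (tw χ g' R - R) + (tw χ g R - R)`
and `tw χ g' R - R ∈ V` is fixed. -/
def S_Msa : Prop :=
  ∀ {G N P : Type} [Group G] [TopologicalSpace G] [AddCommGroup N] [DistribMulAction G N]
    (D : Dat G N P), Ax D → ∀ (χ : G → ZMod 2) (g : G) (R R' : N), 4 • R = 0 → 4 • R' = 0 →
    2 • (tw χ g R - R) = 0 ∧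
    (2 • R = 2 • R' → tw χ g R - R = tw χ g R' - R') ∧
    (∀ g', χ (g * g') = χ g + χ g' →
      tw χ (g * g') R - R = (tw χ g R - R) + (tw χ g' R - R)) ∧
    D.e (tw χ g R - R) (2 • R') = D.e (2 • R) (tw χ g R' - R')

/-- Module `Iso` (isotropy of the local images). PROOF. Write `τ = tau v`, `φ = phi v`, `q = nq v`,
`t = 2 R`, `t' = 2 R'`, and `M_g` for the untwisted map `M_g u = g h - h`, `2 h = u`. As in `Msa`,
`tw χ g R - R = M_g t + χ(g) t`. Expand the sum with `e_add`; by selfadjointness of `M_τ`, `M_φ`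
(`Msa` with `χ = 0`) all terms with `χ` cancel in pairs, what remains is
`e (M_τ t) (M_φ t') + e (M_φ t) (M_τ t') = e t (M_τ M_φ t') + e t (M_φ M_τ t')`. So we need
`M_τ M_φ = M_φ M_τ` on `V`. Let `4 s = t'`. `u = τ s - s`: `4 u = 0` and `2 u = M_τ t'`; `w = φ s -
s`: `2 w = M_φ t'`. `φ τ s = φ s + φ u = s + w + u + (φ u - u) = s + w + u + M_φ M_τ t'`,
`τ φ s = s + u + w + M_τ M_φ t'`. `τ ^ 4` is trivial on elements `s` killed by `8`: with `T = τ - 1`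
we have `T s ∈ N[4]`, `T T s ∈ V`, `T T T s = 0` and `τ^4 s = s + 4 T s + 6 T T s + ..= s`. So
`τ ^ (q - 1)` is trivial on `φ s` (`q = 1` modulo `4`) and `φ τ s = τ ^ q φ s = τ φ s` by `rel`. -/
def S_Iso : Prop :=
  ∀ {G N P : Type} [Group G] [TopologicalSpace G] [AddCommGroup N] [DistribMulAction G N]
    (D : Dat G N P), Ax D → ∀ (χ : G → ZMod 2) (v : P) (R R' : N), 4 • R = 0 → 4 • R' = 0 →
    D.e (tw χ (D.tau v) R - R) (tw χ (D.phi v) R' - R') +
      D.e (tw χ (D.phi v) R - R) (tw χ (D.tau v) R' - R') = 0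

/-- Module `Rcv` (reciprocity for homomorphisms to `V`). PROOF. Let `T₁, T₂` be as in `Bas`,
`θ₁ = e (θ _) T₁` etc.; these are characters (`IsCh`). By `Bas`
`e (θ a) (ν b) = θ₂ a * ν₁ b + θ₁ a * ν₂ b`, so `lp θ ν v` is the sum of the two expressions in
`rcp` for `(θ₂, ν₁)` and `(θ₁, ν₂)`. The finsums have finite support by `fin` (the kernel of a
character is an open subgroup), so `finsum_add_distrib` applies. -/
def S_Rcv : Prop :=
  ∀ {G N P : Type} [Group G] [TopologicalSpace G] [AddCommGroup N] [DistribMulAction G N]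
    (D : Dat G N P), Ax D → ∀ (θ ν : G → N) (A : Finset P), IsHo θ → IsHo ν →
    (∀ v, v ∉ A → D.lp θ ν v = 0) → ∑ v ∈ A, D.lp θ ν v = 0

/-- Module `Dk1` (elementary facts on `Dk`, `T`). PROOF. `2 ^ (1 - 1) = 1`. For `s ∈ V` take `r`
with `2 ^ (k - 1) r = s` (`dvs`), then `2 ^ k r = 0` (`k ≥ 1`) and the constant function `r` is in
`Z x` (`Tin`). `2 ^ k ζ = 2 ^ (k - 1) (2 ζ)`. `T` is the image of `V` under the diagonal, injective
since the index set is not empty (`inf ∈ S`). -/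
def S_Dk1 : Prop :=
  ∀ {G N P ι : Type} [Group G] [TopologicalSpace G] [AddCommGroup N] [DistribMulAction G N]
    [Fintype ι] [DecidableEq ι] (D : Dat G N P), Ax D →
    (∀ (x : ι → P) ν, ν ∈ D.Dk x 1 ↔ ν ∈ D.Z x ∧ 2 • ν = 0) ∧
    (∀ x : ι → P, D.Ok x → ∀ k, 1 ≤ k → D.T ι ≤ D.Dk x k) ∧
    (∀ (x : ι → P) (k : ℕ), 1 ≤ k → D.Dk x (k + 1) ≤ D.Dk x k) ∧
    (∀ (x : ι → P) (k : ℕ), 1 ≤ k → D.Dk x k ≤ D.Dk x 1) ∧
    (∀ (x : ι → P) (k : ℕ), 1 ≤ k → Finite (D.Dk x k)) ∧ Nat.card (D.T ι) = 4 ∧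
    (∀ N₀ : N, 4 • quar N₀ = N₀) ∧ (∀ N₀ : N, 2 • half N₀ = N₀) ∧ half (0 : N) = 0 ∧
    (∀ (x : ι → P), D.Ok x → Function.Injective (D.pl x))

/-- Module `ObR` (the defects with other choices). PROOF. (1) `2 (η g) = tw g Q - Q` with `2 Q = ξ j`
at `g = τ, φ` of the place (`hf.lo`), and `2 (2 R j) = ξ j`, so `Q - 2 R j ∈ V` and `2 η g =
tw g (2 R j) - 2 R j`. (2) Let `R₀ = quar (ξ j)`, `u = R j - R₀`, `4 u = 0`. The summands for `R`
and `R₀` differ by `lp (fun g => tw g u - u) (coc x ν)` (`e_add`), and `coc x ν g = tw g Q' - Q'`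
with `2 Q' = ν j`, `4 Q' = 0`; this is zero by `Iso`. -/
def S_ObR : Prop :=
  ∀ {G N P ι : Type} [Group G] [TopologicalSpace G] [AddCommGroup N] [DistribMulAction G N]
    [Fintype ι] [DecidableEq ι] (D : Dat G N P), Ax D → ∀ (x : ι → P) (ξ : D.J ι → N) (η : G → N),
    D.IsH x ξ η → ∀ R : D.J ι → N, (∀ j, 4 • R j = ξ j) →
    (∀ j g, g = D.tau (D.pl x j) ∨ g = D.phi (D.pl x j) →
      2 • (η g - (tw (D.chi x) g (R j) - R j)) = 0) ∧
    (∀ ν ∈ D.Dk x 1, D.ob x ξ η ν = ∑ j,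
      D.lp (fun g => η g - (tw (D.chi x) g (R j) - R j)) (D.coc x ν) (D.pl x j))

/-- Module `ObA` (formal properties of the obstruction functional). PROOF. (1) `coc` is additive
(`Uq`) with values in `V`, `e` is additive (`e_add`, `e_sym`). (2) `ObR` for `ξ + ξ'` with
`R = quar ∘ ξ + quar ∘ ξ'`. (3) `coc x ζ` is a half of `2 ζ`; with `2 R j = ζ j` (so
`4 R j = 2 ζ j`) and `lo` (`Q - R j ∈ V`) the defects are zero: `ObR`. (4) `θ` is fixed by the
twisted action, so it is a cocycle; the two functionals differ by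
`∑ j, lp θ (coc x ν) (pl x j)`, which is `∑_{v ∈ A} lp θ (coc x ν) v` for the image `A` of `pl x`
(injective, `Dk1`), zero by `Rcv` (outside `A` both are unramified; `coc x ν` is a homomorphism to
`V`). (5) `η - η'` satisfies the hypotheses of (4) (`2 (η - η') = 0` since both `2 η`, `2 η'` are
`coc x ξ` by `Uq`). -/
def S_ObA : Prop :=
  ∀ {G N P ι : Type} [Group G] [TopologicalSpace G] [AddCommGroup N] [DistribMulAction G N]
    [Fintype ι] [DecidableEq ι] (D : Dat G N P), Ax D → ∀ (x : ι → P), D.Ok x →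
    (∀ ξ (η : G → N), D.IsH x ξ η → ∀ ν ∈ D.Dk x 1, ∀ ν' ∈ D.Dk x 1,
      D.ob x ξ η (ν + ν') = D.ob x ξ η ν + D.ob x ξ η ν') ∧
    (∀ ξ ξ' (η η' : G → N), D.IsH x ξ η → D.IsH x ξ' η' →
      D.IsH x (ξ + ξ') (fun σ => η σ + η' σ) ∧ ∀ ν ∈ D.Dk x 1,
        D.ob x (ξ + ξ') (fun σ => η σ + η' σ) ν = D.ob x ξ η ν + D.ob x ξ' η' ν) ∧
    (∀ ζ ∈ D.Z x, D.IsH x (2 • ζ) (D.coc x ζ) ∧ ∀ ν ∈ D.Dk x 1,
      D.ob x (2 • ζ) (D.coc x ζ) ν = 0) ∧
    (∀ ξ (η θ : G → N), D.IsH x ξ η → IsHo θ → (∀ v, v ∉ Set.range (D.pl x) → θ (D.tau v) = 0) →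
      D.IsH x ξ (fun σ => η σ + θ σ) ∧ ∀ ν ∈ D.Dk x 1,
        D.ob x ξ (fun σ => η σ + θ σ) ν = D.ob x ξ η ν) ∧
    (∀ ξ (η η' : G → N), D.IsH x ξ η → D.IsH x ξ η' → ∀ ν ∈ D.Dk x 1,
      D.ob x ξ η ν = D.ob x ξ η' ν)

/-- Module `Ivd` (the local invariant of a coboundary with values in `ZMod 2`). PROOF. Telescoping
sum: `iv = (l φ + l τ - l (φ τ)) - ((q - 1) l τ + l τ - l (τ ^ q)) - (l (τ ^ q) + l φ -
l (τ ^ q φ))`, `φ τ = τ ^ q φ` and `q` is odd. -/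
def S_Ivd : Prop :=
  ∀ {G N P : Type} [Group G] [TopologicalSpace G] [AddCommGroup N] [DistribMulAction G N]
    (D : Dat G N P), Ax D → ∀ (l : G → ZMod 2) (v : P),
    D.iv (fun σ τ => l σ + l τ - l (σ * τ)) v = 0

/-- Module `Trl` (local computation for `Tre`). `a` is a cocycle of `G` whose values at
`τ = tau v` and `φ = phi v` are in `V`, `R` arbitrary, `η = d R + a`; the function `c` is the
coboundary of a half of `η`. PROOF. Write `η̂ = half ∘ η`. The set of the `g` with `a g ∈ V` is a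
submonoid; `a (τ ^ i) = i a τ`, `a (φ τ) = a φ + a τ`, `a (τ ^ q φ) = a τ + a φ` (`q` odd). Let
`2 R₁ = R` and `k g = tw g R₁ - R₁ + half (a g)`; `2 k = η`, so `λ = η̂ - k ∈ V` and
`c (g, h) = (d (half ∘ a)) (g, h) + λ g + λ h - λ (g h)` for all `g, h` (`d` of the coboundary of
`R₁` is zero; `tw λ = λ`). By `Ivd` the last terms do not contribute to `iv`. With
`B u w = half u + half w - half (u + w) ∈ V` (symmetric, `B u u = u`, `B 0 w = 0`; `half 0 = 0`)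
and `M_g u = tw g (half u) - half u`:
`d (half ∘ a) (g, h) = B (a g) (a h) + M_g (a h)` for `g, h` with `a g, a h ∈ V`. Contribution of
`B`: `B (aφ) (aτ) - ∑_{i=1}^{q-1} B (i aτ) (aτ) - B (q aτ) (aφ)`; the first and the last cancel
(`q aτ = aτ`), the sum is `(q-1)/2` times `aτ` (`i` odd) and zero (`i` even), so zero as `4 | q - 1`.
Contribution of `M`: `M_φ (aτ) - ∑_{i=1}^{q-1} M_(τ^i) (aτ) - M_(τ^q) (aφ)`, `M_(τ^i) = i M_τ`
(`Msa`), `∑ i = q (q-1)/2` is even, `M_(τ^q) = M_τ`; what remains is `M_φ (aτ) + M_τ (aφ)`. Apply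
`e _ s` and `Msa`: `e (M_φ (aτ)) s = e (aτ) (tw φ r - r)` for `2 r = s`. -/
def S_Trl : Prop :=
  ∀ {G N P : Type} [Group G] [TopologicalSpace G] [AddCommGroup N] [DistribMulAction G N]
    (D : Dat G N P), Ax D → ∀ (χ : G → ZMod 2), (∀ σ τ, χ (σ * τ) = χ σ + χ τ) →
    ∀ (v : P) (a η : G → N) (R r s : N), IsCo χ a → 2 • a (D.tau v) = 0 → 2 • a (D.phi v) = 0 →
    (∀ g, η g = tw χ g R - R + a g) → 2 • r = s → 2 • s = 0 →
    D.iv (fun g h => D.e (half (η g) + tw χ g (half (η h)) - half (η (g * h))) s) v =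
      D.e (a (D.tau v)) (tw χ (D.phi v) r - r) + D.e (a (D.phi v)) (tw χ (D.tau v) r - r)

/-- Module `Tre` (`T`-reciprocity). PROOF. Let `η̂ = half ∘ η`, `c (g, h) = η̂ g + tw g (η̂ h) -
η̂ (g h)`; `2 c = 0`. `z = e c s` is a locally constant `2`-cocycle with values in `ZMod 2`
(`c g h + c (g h) k = tw g (c h k) + c g (h k)` and `tw` fixes `V`; locally constant: continuity of
the multiplication, `act`). By `rec2` the sum of the invariants is zero. At `v = pl x j`: `Trl` with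
`R = quar (ξ j)` and `a = η - d R`, which is a cocycle with values in `V` at `τ`, `φ` by `ObR` (1);
this is the `j`-th summand of `ob x ξ η (fun _ => s)`, since `coc x (fun _ => s) g = tw g r - r`,
`2 r = s` (`Tin`, `Uq`). At `v ∉ range (pl x)`: `η τ = 0`, `chi x τ = 0` (`Tai`), `τ` acts
trivially, so `η (τ ^ i) = 0`, `η (φ τ) = η φ = η (τ ^ q φ)`, `η̂ (τ ^ i) = half 0 = 0` and all terms
of `iv` vanish. So the finsum is the sum over the image of `pl x` (injective). -/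
def S_Tre : Prop :=
  ∀ {G N P ι : Type} [Group G] [TopologicalSpace G] [IsTopologicalGroup G] [AddCommGroup N]
    [DistribMulAction G N] [Fintype ι] [DecidableEq ι] (D : Dat G N P), Ax D → Ax2 D →
    ∀ (x : ι → P), D.Ok x → ∀ ξ (η : G → N), D.IsH x ξ η → ∀ ν ∈ D.T ι, D.ob x ξ η ν = 0

/-- Module `LinD` (linear algebra: two maximal isotropic subspaces). PROOF. `X + L` is contained in
the orthogonal complement of `X ∩ L` (`X`, `L` are isotropic). Orders: the complement of a subgroup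
`Y` of the finite group `W` (of exponent two) with respect to a nondegenerate form has order
`#W / #Y`; `#(X + L) = #X #L / #(X ∩ L) = #W / #(X ∩ L)`. (Use `ZMod 2`-vector spaces and
`finrank`, or characters.) -/
def S_LinD : Prop :=
  ∀ (W : Type) [AddCommGroup W] [Finite W] (B : W → W → ZMod 2),
    (∀ w : W, 2 • w = 0) → (∀ a b c, B (a + b) c = B a c + B b c) → (∀ a b, B a b = B b a) →
    (∀ a, (∀ b, B a b = 0) → a = 0) → ∀ X L : AddSubgroup W,
    (∀ a ∈ X, ∀ b ∈ X, B a b = 0) → (∀ a ∈ L, ∀ b ∈ L, B a b = 0) →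
    Nat.card X ^ 2 = Nat.card W → Nat.card L ^ 2 = Nat.card W →
    ∀ a, (∀ w ∈ X ⊓ L, B a w = 0) → ∃ b ∈ X, ∃ c ∈ L, a = b + c

/-- Module `Dua` (duality). PROOF. `W = J → V × V` (16^#J elements) with
`B w w' = ∑ j, e (w j).1 (w' j).2 + e (w j).2 (w' j).1` (nondegenerate by `e_nd`). `X` = the image of
the homomorphisms `θ` to `V` which are unramified outside the places of `x` under
`θ ↦ (θ τ, θ φ)_j`: by `Hom` the map is injective (`inf ∈ S`) and there are `4^#J` such `θ` (free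
values at the `τ_v`, `v ≠ ∞` and at `φ_∞`); isotropic by `Rcv`. `L` = the image of `V^J` under
`s ↦ (tw τ r - r, tw φ r - r)_j`, `r = half (s j)`: additive (`Msa` (2)), injective (if both vanish
then `2 r = 0`: `Ok.tame`, or at `x i`: `-r = r` by `Tai` and `unr`), isotropic by `Iso`. `a j =
(df τ, df φ) ∈ V × V` (`ObR` (1)). An element of `X ∩ L` comes from `θ` and `s` with
`IsZ x s θ`, so `s ∈ Dk x 1`, `θ = coc x s`, and `B a w = ob x ξ η s = 0`. By `LinD`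
`a = θ' + δ s'`. Then `η - θ'` is a cocycle, unramified outside, and `Lo` at `j` with
`R j + half (s' j)`, `R j = quar (ξ j)`; so it is a Selmer cocycle of type `ζ = 2 R + s'` and
`2 ζ = 4 R = ξ`. -/
def S_Dua : Prop :=
  ∀ {G N P ι : Type} [Group G] [TopologicalSpace G] [AddCommGroup N]
    [DistribMulAction G N] [Fintype ι] [DecidableEq ι] (D : Dat G N P), Ax D →
    ∀ (x : ι → P), D.Ok x → ∀ ξ (η : G → N), D.IsH x ξ η → (∀ ν ∈ D.Dk x 1, D.ob x ξ η ν = 0) →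
    ∃ ζ ∈ D.Z x, 2 • ζ = ξ

/-- Module `Cou` (there are few obstruction functionals). PROOF. Let `Z_k = Z x ⊓ tor k` (finite by
`Bas`), `A` the subgroup of the `ξ ∈ Z_(k-1)` which have a half `η`. `ob` gives a map from `A` onto
`O x k` (independent of `η`, `ObA` (5)), constant on the cosets of `2 Z_k` (`ObA` (2), (3)). So
`#O ≤ #A / #(2 Z_k) ≤ #Z_(k-1) / #(2 Z_k)`. `#Z_k = #(2 Z_k) #(Z_1)` (kernel of the multiplication by
`2` on `Z_k`, `k ≥ 1`), `Z_1 = Dk x 1`, and `#Z_k = #(2^(k-1) Z_k) #Z_(k-1) = #(Dk x k) #Z_(k-1)`.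
So `#Z_(k-1) / #(2 Z_k) = #(Dk x 1) / #(Dk x k)`. -/
def S_Cou : Prop :=
  ∀ {G N P ι : Type} [Group G] [TopologicalSpace G] [AddCommGroup N] [DistribMulAction G N]
    [Fintype ι] [DecidableEq ι] (D : Dat G N P), Ax D → ∀ (x : ι → P), D.Ok x → ∀ k, 1 ≤ k →
    (D.O x k).Finite ∧ (D.O x k).ncard * Nat.card (D.Dk x k) ≤ Nat.card (D.Dk x 1)

/-- Module `Gam` (a functional outside `O`). PROOF. The functionals with the first four properties
are the homomorphisms from `Dk x 1 / (T + ⟨f⟩)` to `ZMod 2`; `T + ⟨f⟩` has eight elements, so there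
are `#(Dk x 1) / 8` of them (dual of a finite elementary abelian `2`-group). By `Cou` and
`#(Dk x k) ≥ 16` the set `O x k` has at most `#(Dk x 1) / 16` elements. -/
def S_Gam : Prop :=
  ∀ {G N P ι : Type} [Group G] [TopologicalSpace G] [AddCommGroup N] [DistribMulAction G N]
    [Fintype ι] [DecidableEq ι] (D : Dat G N P), Ax D → ∀ (x : ι → P), D.Ok x → ∀ k, 1 ≤ k →
    16 ≤ Nat.card (D.Dk x k) → ∀ f ∈ D.Dk x k, f ∉ D.T ι →
    ∃ γ : (D.J ι → N) → ZMod 2, (∀ ν ∈ D.Dk x 1, ∀ ν' ∈ D.Dk x 1, γ (ν + ν') = γ ν + γ ν') ∧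
      (∀ ν ∈ D.T ι, γ ν = 0) ∧ γ f = 0 ∧ (∀ ν, ν ∉ D.Dk x 1 → γ ν = 0) ∧ γ ∉ D.O x k

/-- Module `LemE` (completion of halves). PROOF. Let `n = #U`. `ξ ∈ Z (mx x y w)` for all `w ≠ ∅`
(`IsH.hf`), so `ξ ∈ Z x` by `LemD`, and `2 η (mx x y w) = coc (mx x y w) ξ` (`Uq`). Let
`η₁ = cmp x y U η`. `2 η₁ = coc x ξ` by `LemB` (`j = n - 1`, full cube). `η₁` is a cocycle by `Cmp`:
`2^#W alt (mx x y W) y (U \ W) η = alt .. (2^(#W-1) coc z ξ) = alt .. (coc z (2^(#W-1) ξ)) = 0` by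
`LemB` with `j = n - #W`. At `y i`, `i ∈ U`: `u i = η₁ (τ_(y i)) ∈ V` since `2 u i = coc x ξ (τ_(y i))
= 0`. Let `θ` be the homomorphism to `V` of `Hom` (2) with `θ (τ_(y i)) = u i`, unramified at all
other places `≠ ∞`, `θ (φ_∞) = 0` (it may be ramified at infinity, which is in `S`). `η' = η₁ - θ`
is `IsH x ξ` (unramified outside the places of `x` by `CmL`). Let `ν` be as in the statement. All the
functions `coc (mx x y w) ν`, `w ⊆ U`, are equal: `LemB` for the one-dimensional cubes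
(`j = 1`, `ν (inr i) = 0`). They vanish at `τ`, `φ` of `x i` and `y i`, `i ∈ U` (`Lo` with
`2 Q = ν (inr i) = 0`). Reciprocity `Rcv` for `θ` and `coc x ν`, `A` = the places of `x` and the
`y i`: the terms at `y i` vanish (`θ φ` is paired with `coc x ν τ = 0`, `θ τ` with `coc x ν φ = 0`),
so `∑ j, lp θ (coc x ν) (pl x j) = 0` and `ob x ξ η' ν = ∑ j, lp (df x ξ η₁ j) (coc x ν) (pl x j)`.
For `j = inr i`, `i ∈ U` the terms vanish, also for all other vertices. For the other `j` the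
character and the place are the same for all vertices (`Chi`) and `df x ξ η₁ j g = -∑_{w ≠ ∅}
(-1)^#w df (mx x y w) ξ (η ..) j g` (the same `quar (ξ j)`; `∑_{w ≠ ∅} (-1)^#w = -1`); in `ZMod 2`
the signs disappear. -/
def S_LemE : Prop :=
  ∀ {G N P ι : Type} [Group G] [TopologicalSpace G] [AddCommGroup N] [DistribMulAction G N]
    [Fintype ι] [DecidableEq ι] (D : Dat G N P), Ax D → ∀ (x y : ι → P) (U : Finset ι),
    D.Gd x y U → 2 ≤ #U → ∀ ξ : D.J ι → N, 2 ^ (#U - 1) • ξ = 0 →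
    (∀ i ∈ U, 2 ^ (#U - 2) • ξ (Sum.inr i) = 0) → ∀ η : (ι → P) → G → N,
    (∀ w ⊆ U, w.Nonempty → D.IsH (mx x y w) ξ (η (mx x y w))) →
    ∃ η' : G → N, D.IsH x ξ η' ∧ ∀ ν, (∀ w ⊆ U, ν ∈ D.Dk (mx x y w) 1) →
      (∀ i ∈ U, ν (Sum.inr i) = 0) →
      D.ob x ξ η' ν = ∑ w ∈ U.powerset.erase ∅, D.ob (mx x y w) ξ (η (mx x y w)) ν

/-- Module `RulL` (completion of cubes of liftable types). `K = #U - 1`, `f = 2^(K-1) τ`. PROOF.
Let `n = #U`. `τ = 2 t` is in `Z (mx x y w)` for `w ≠ ∅`, so `τ ∈ Z x` by `LemD`. Choose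
`ω ∈ Z x` with `2^n ω = 0`, `2^(n-1) ω = f` (`f ∈ Dk x n`) and put `ξ = 2 ω - τ`; `2^(n-2) ξ = 0`.
Change `t` at the vertex `w₁ = {b}`: replace `t (mx x y {b})` by its sum with the constant function
`s ∈ V` (in `Z` by `Tin`); with `s` = the value of `cmp x y U (coc z (t z))` at `τ_(y b)` (it is in
`V` since twice it is the value of `coc x τ` there, zero) we get `cmp .. (τ_(y b)) = 0` (the cocycle
of the vertex `{b}` changes at `τ_(y b)` by `-s = s`). Let `ψ' = cmp x y U (fun z => coc z (t z))`: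
`2 ψ' = coc x τ` (`LemB`, `j = n - 1`), a cocycle by `Cmp` and `LemB`
(`2^#W alt .. = alt (coc z (2^(#W-1) τ))`, `j = n - #W`). `η₁ = coc x ω - ψ'`, `2 η₁ = coc x ξ`. As
in `LemE` let `θ` be the homomorphism with `θ (τ_(y i)) = η₁ (τ_(y i)) ∈ V` for `i ∈ U \ {b}`,
unramified at the other places `≠ ∞`, `η = η₁ - θ`, `IsH x ξ η` (at `y b` unramified by the choice
of `s`). Let `ν ∈ Dk x 1` with `ν (inr i) = 0` for `i ∈ I = U \ {b}`. As in `LemE`,
`ob x ξ η ν = ∑ j, lp (df x ξ η₁ j) (coc x ν) (pl x j)` and the terms with `j = inr i`, `i ∈ I`,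
vanish (`coc x ν` is zero at `τ, φ` of `x i`, `y i`: it equals `coc (mx x y {i}) ν` by `LemB`,
`j = 1`). For the other `j` use `ObR` with `R j = Q₀ - Q₁`, where `Q₀` is a local datum of
`coc x ω` and `Q₁ = -∑_{w ≠ ∅} (-1)^#w Q w j` the one of `ψ'` (`CmL` (1)) if `j ≠ inr b`:
`4 R j = 2 ω j + ∑_{w ≠ ∅} (-1)^#w τ j = 2 ω j - τ j = ξ j`; the defect is zero. For `j = inr b`
(`CmL` (2)), `Q₁ = -∑_{∅ ≠ w ⊆ I} (-1)^#w Q w j`, again `4 R j = ξ j` (`I` is not empty), the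
defect at `g = τ, φ` of `x b` is `β g = -alt (update x b (y b)) y I (coc z (t z) g)`, with `β τ = 0`
(unramified). So this term is `e (β φ) (coc x ν τ) = e (β φ) (ν (inr b))` (`Tai`, `-ν = ν`),
i.e. `c * γ ν` with `c = e (β φ) t'`. So `ob x ξ η ν = c * γ ν` for these `ν`; for `ν ∈ T` both
sides are zero (`Tre`, hypothesis), and every `ν ∈ Dk x 1` is the sum of such elements (subtract the
common value of the `ν (inr i)`, `i ∈ I`); both sides are additive. If `c = 1` then `γ` is in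
`O x (n - 1)` (`ξ`, `η`), a contradiction. So `c = 0`, `ob x ξ η = 0` on `Dk x 1` and by `Dua`
`ξ = 2 ζ`, `ζ ∈ Z x`; `t₀ = ω - ζ`. -/
def S_RulL : Prop :=
  ∀ {G N P ι : Type} [Group G] [TopologicalSpace G] [IsTopologicalGroup G] [AddCommGroup N]
    [DistribMulAction G N] [Fintype ι] [DecidableEq ι] (D : Dat G N P), Ax D → Ax2 D →
    ∀ (x y : ι → P) (U : Finset ι) (b : ι), D.Gd x y U → b ∈ U → 2 ≤ #U → ∀ τ : D.J ι → N,
    2 ^ (#U - 1) • τ = 0 → (∀ i ∈ U, 2 ^ (#U - 2) • τ (Sum.inr i) = 0) →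
    ∀ t : (ι → P) → D.J ι → N,
    (∀ w ⊆ U, w.Nonempty → t (mx x y w) ∈ D.Z (mx x y w) ∧ 2 • t (mx x y w) = τ) →
    2 ^ (#U - 2) • τ ∈ D.Dk x #U → (∀ w ⊆ U, D.Dk (mx x y w) 1 = D.Dk x 1) →
    ∀ (γ : (D.J ι → N) → ZMod 2) (t' : N), 2 • t' = 0 →
    (∀ ν ∈ D.Dk x 1, ∀ ν' ∈ D.Dk x 1, γ (ν + ν') = γ ν + γ ν') → (∀ ν ∈ D.T ι, γ ν = 0) →
    (∀ ν, ν ∉ D.Dk x 1 → γ ν = 0) →
    (∀ ν ∈ D.Dk x 1, ∃ s : N, 2 • s = 0 ∧ ∀ i ∈ U.erase b, ν (Sum.inr i) = s) →
    (∀ ν ∈ D.Dk x 1, (∀ i ∈ U.erase b, ν (Sum.inr i) = 0) →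
      ν (Sum.inr b) = if γ ν = 0 then 0 else t') →
    γ ∉ D.O x (#U - 1) → ∃ t₀ ∈ D.Z x, 2 • t₀ = τ

/-- Module `Star`. PROOF. `θ = alt x y U (coc z (t z))`: `2 θ = alt (coc z τ) = 0` (`LemB`,
`j = n - 1`, `n = #U`); by `Dif` and `LemB` (`2^#W alt .. = alt (coc z (2^(#W-1) τ))`, `j = n - #W`)
it is a homomorphism to `V`. Reciprocity `Rcv` for `θ` and `coc x ν`; `A` = the places of `x` and
the `y i`, `i ∈ U`; outside both are unramified. All `coc (mx x y w) ν`, `w ⊆ I = U \ {b}`, are equal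
(`LemB`, `j = 1`), so `coc x ν` vanishes at `τ`, `φ` of `x i`, `y i`, `i ∈ I`: no contribution. At
`pl x j`, `j ∉ U`: `θ = tw Q - Q` at `τ, φ` with `Q = ∑ (-1)^#w Q w j`, `4 Q = ∑ (-1)^#w τ j = 0`,
and `coc x ν = tw Q' - Q'`, `2 Q' = ν j`, `4 Q' = 0`: zero by `Iso`. At `y b`: the vertices without
`b` are unramified, so `θ (τ_(y b)) = -alt (update x b (y b)) y I (..) (τ_(y b)) = 0`, and
`coc x ν (τ_(y b)) = 0`. At `x b`, `g = τ, φ`: `θ g = (tw g Q - Q) - α g`,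
`Q = ∑_{w ⊆ I} (-1)^#w Q w (inr b)`, `4 Q = 0` (`I` is not empty), `α g = alt (update x b (y b)) y I
(coc z (t z) g)`, `α τ = 0` (unramified); the first part gives zero by `Iso`, the second
`e (α φ) (coc x ν τ) = e (α φ) (ν (inr b))`. -/
def S_Star : Prop :=
  ∀ {G N P ι : Type} [Group G] [TopologicalSpace G] [AddCommGroup N]
    [DistribMulAction G N] [Fintype ι] [DecidableEq ι] (D : Dat G N P), Ax D →
    ∀ (x y : ι → P) (U : Finset ι) (b : ι), D.Gd x y U → b ∈ U → 2 ≤ #U → ∀ τ : D.J ι → N,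
    2 ^ (#U - 1) • τ = 0 → (∀ i ∈ U, 2 ^ (#U - 2) • τ (Sum.inr i) = 0) →
    ∀ t : (ι → P) → D.J ι → N,
    (∀ w ⊆ U, t (mx x y w) ∈ D.Z (mx x y w) ∧ 2 • t (mx x y w) = τ) →
    alt (Function.update x b (y b)) y (U.erase b) (fun z => D.coc z (t z) (D.tau (y b))) = 0 →
    ∀ ν, (∀ w ⊆ U, ν ∈ D.Dk (mx x y w) 1) → (∀ i ∈ U.erase b, ν (Sum.inr i) = 0) →
    D.e (alt (Function.update x b (y b)) y (U.erase b) fun z => D.coc z (t z) (D.phi (x b)))
      (ν (Sum.inr b)) = 0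

/-- Module `Str0` (the same for `x b = y b`). PROOF. At `v = x b`, `b ∉ I`: all vertices have this
place with index `inr b` and the same character (`Chi`), so `α g = tw g Q - Q` at `g = τ, φ` with
`Q = ∑ (-1)^#w Q w`, `2 Q = ∑ (-1)^#w (t (mx x y w)) (inr b)`. `α τ = -(2 Q)` (`Tai`), so `2 Q = 0`
and `α φ = tw φ Q - Q = 0`. The second statement: `α τ ∈ V` since `4 Q = ∑ (-1)^#w τ (inr b) = 0`,
and adding the constant function `s = α τ` to `t x` changes `α τ` by `-s`. -/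
def S_Str0 : Prop :=
  ∀ {G N P ι : Type} [Group G] [TopologicalSpace G] [AddCommGroup N]
    [DistribMulAction G N] [Fintype ι] [DecidableEq ι] (D : Dat G N P), Ax D →
    ∀ (x y : ι → P) (I : Finset ι) (b : ι), D.Gd x y I → b ∉ I → I.Nonempty → ∀ τ : D.J ι → N,
    ∀ t : (ι → P) → D.J ι → N,
    (∀ w ⊆ I, t (mx x y w) ∈ D.Z (mx x y w) ∧ 2 • t (mx x y w) = τ) →
    (alt x y I (fun z => D.coc z (t z) (D.tau (x b))) = 0 →
      alt x y I (fun z => D.coc z (t z) (D.phi (x b))) = 0) ∧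
    ∃ s : N, 2 • s = 0 ∧ ∀ t₁ : (ι → P) → D.J ι → N, t₁ x = t x + (fun _ => s) →
      (∀ w ⊆ I, w.Nonempty → t₁ (mx x y w) = t (mx x y w)) →
      alt x y I (fun z => D.coc z (t₁ z) (D.tau (x b))) = 0

end Pool.Agent.MP72S
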