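import Pool.Agent.Lib.MP_72e2e6_nt.Sm.A.Spec2

/-!
# MP_72e2e6_nt, `Sm/A`: statements with proofs, part 3 (face functions, commutators, symbols)
-/

namespace Pool.Agent.MP72S

open Finset

/-- A system of functions (with values in `V`) on the faces of a cube with the set of directions
`I` and the characters `c i`. -/
structure Sys {G N ι : Type} [Group G] [AddCommGroup N] [DecidableEq ι] (I : Finset ι)
    (c : ι → G → ZMod 2) (F : Finset ι → G → N) : Prop where
  two : ∀ U ⊆ I, ∀ σ, 2 • F U σ = 0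
  hom : ∀ i ∈ I, ∀ σ τ, c i (σ * τ) = c i σ + c i τ
  mul : ∀ U ⊆ I, ∀ σ τ,
    F U (σ * τ) = F U σ + ∑ W ∈ (U.filter fun i => c i σ = 1).powerset, F (U \ W) τ

/-- The common kernel of the characters and of the proper functions of a system. -/
def sysK {G N ι : Type} [Group G] [AddCommGroup N] [DecidableEq ι] (I : Finset ι)
    (c : ι → G → ZMod 2) (F : Finset ι → G → N) : Set G :=
  {g | (∀ i ∈ I, c i g = 0) ∧ ∀ U ⊆ I, U ≠ I → F U g = 0}

/-- The iterated commutators `[g i₁, [g i₂, .. [g i_k, σ] .. ]]`. -/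
def itc {G ι : Type} [Group G] (g : ι → G) : List ι → G → G
  | [], σ => σ
  | i :: l, σ => g i * itc g l σ * (g i)⁻¹ * (itc g l σ)⁻¹

/-- Module `Com` (values of a system at the iterated commutators). PROOF. (0) `F U 1 = 0`.
(1) For `h = a b a⁻¹ b⁻¹` we have `c i h = 0` and `h (b a) = a b`, so (`mul` for `h`, `b a`: only
`W = ∅`) `F U h = F U (a b) + F U (b a)` (values of order two) `= ∑_{∅ ≠ W ⊆ T(a) ∩ U} F (U \ W) b +
∑_{∅ ≠ W ⊆ T(b) ∩ U} F (U \ W) a` with `T(a) = {i | c i a = 1}`. (2) Let `a = g i`, `i ∈ I`; then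
`T(a) ∩ I ⊆ {i}`. If `T(b) ∩ I = ∅` then `F U [a, b] = F (U \ {i}) b` if `i ∈ U` and
`c i (g i) = 1`, and zero otherwise. (3) Induction on a nonempty duplicate free list `l` in `I`:
`c j (itc g l σ) = 0` for `j ∈ I`; `F U (itc g l σ) = 0` for `U ⊂ l.toFinset` proper; `F l.toFinset
(itc g l σ) = F ∅ σ` if `c i (g i) = 1` for all `i ∈ l` and zero otherwise. For `l = [i]`: by (1),
`F ∅ = 0`, and `F {i} = [c i (g i) = 1] F ∅ σ + [c i σ = 1] F ∅ (g i)`, where the last term is zero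
by hypothesis. For `i :: l`, `l` nonempty: (2); if `U ⊂ insert i l.toFinset` is proper and `i ∈ U`
then `U \ {i}` is a proper subset of `l.toFinset`. -/
def S_Com : Prop :=
  ∀ {G N ι : Type} [Group G] [AddCommGroup N] [DecidableEq ι] (I : Finset ι)
    (c : ι → G → ZMod 2) (F : Finset ι → G → N), Sys I c F → ∀ (g : ι → G),
    (∀ i ∈ I, ∀ j ∈ I, j ≠ i → c j (g i) = 0) → (∀ i ∈ I, F ∅ (g i) = 0) →
    ∀ l : List ι, l.Nodup → l.toFinset = I → l ≠ [] → ∀ σ,
      itc g l σ ∈ sysK I c F ∧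
        F I (itc g l σ) = if ∀ i ∈ I, c i (g i) = 1 then F ∅ σ else 0

/-- Module `Nrm`. PROOF. Let `K = sysK I c F`. `F U 1 = 0`. For `g ∈ K`: `F U (g h) = F U g + F U h`
for all `U ⊆ I` (only `W = ∅`). So `K` is closed under products and inverses (`F U (g g⁻¹) = 0`) and
`F I` is additive on `K`. For `g ∈ K` and any `h`: `F U (h g) = F U h + ∑_W F (U \ W) g`, where
`F (U \ W) g = 0` unless `U = I`, `W = ∅`; with `h g = (h g h⁻¹) h`, `c i (h g h⁻¹) = 0` and
`F U ((h g h⁻¹) h) = F U (h g h⁻¹) + F U h` we get `F U (h g h⁻¹) = F U g` for all `U ⊆ I`. The last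
statement: finitely many locally constant functions. -/
def S_Nrm : Prop :=
  ∀ {G N ι : Type} [Group G] [AddCommGroup N] [DecidableEq ι] (I : Finset ι)
    (c : ι → G → ZMod 2) (F : Finset ι → G → N), Sys I c F →
    ∃ K : Subgroup G, K.Normal ∧ (K : Set G) = sysK I c F ∧
      (∀ g ∈ K, ∀ h ∈ K, F I (g * h) = F I g + F I h) ∧
      (∀ g ∈ K, ∀ h, F I (h * g * h⁻¹) = F I g) ∧
      ∀ [TopologicalSpace G], (∀ i ∈ I, IsLocallyConstant (c i)) →
        (∀ U ⊆ I, IsLocallyConstant (F U)) → IsOpen (K : Set G)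

/-- Module `Tri` (a triangular system of homomorphisms). PROOF. The map
`K ⊓ Gb → (A → ZMod 2)`, `g ↦ (l p g)_p` is a homomorphism with kernel `H ⊓ Gb`; it is surjective:
the images of the `g p` form a unitriangular matrix for the order given by `ρ` (induction: a vector
`v` is the image of a product; take `p` with `v p = 1` and `ρ p` minimal..., or: the span of the
images has trivial annihilator: if `S ⊆ A` is nonempty, take `p ∈ S` with `ρ p` maximal among `S`
(then `∑_{p' ∈ S} l p' (g p) = 1`, since `l p' (g p) ≠ 0`, `p' ≠ p` would give `ρ p < ρ p'`)). So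
`[K ⊓ Gb : H ⊓ Gb] = 2 ^ #A`, and `relIndex` is multiplicative. -/
def S_Tri : Prop :=
  ∀ {G α : Type} [Group G] (Gb K H : Subgroup G) (A : Finset α) (l : α → G → ZMod 2)
    (g : α → G) (ρ : α → ℕ), (∀ p ∈ A, ∀ h ∈ K, ∀ h' ∈ K, l p (h * h') = l p h + l p h') →
    (∀ h, h ∈ H ↔ h ∈ K ∧ ∀ p ∈ A, l p h = 0) →
    (∀ p ∈ A, g p ∈ K ∧ g p ∈ Gb ∧ l p (g p) = 1) →
    (∀ p ∈ A, ∀ p' ∈ A, l p' (g p) ≠ 0 → p' = p ∨ ρ p < ρ p') →
    H.relIndex Gb = K.relIndex Gb * 2 ^ #A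

/-- Module `Rat` (the quotients of characters in one class). PROOF. The homomorphism
`Gb → (A → ZMod 2)`, `g ↦ (c a g)_a` is surjective (the `g a` are mapped to the unit vectors). The
image of `K ⊓ Gb` consists of functions which factor through `κ`, there are at most `2 ^ #C` of
them. So `[Gb : K ⊓ Gb]` is at least `2 ^ #A / 2 ^ #C` (or zero, i.e. infinite). -/
def S_Rat : Prop :=
  ∀ {G α C : Type} [Group G] [Fintype α] [Fintype C] [DecidableEq α] (Gb K : Subgroup G)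
    (c : α → G → ZMod 2) (g : α → G) (κ : α → C), (∀ a σ τ, c a (σ * τ) = c a σ + c a τ) →
    (∀ a, g a ∈ Gb) → (∀ a, c a (g a) = 1) → (∀ a a', a' ≠ a → c a' (g a) = 0) →
    (∀ h ∈ K, ∀ a a', κ a = κ a' → c a h = c a' h) → K.relIndex Gb ≠ 0 →
    2 ^ Fintype.card α ≤ 2 ^ Fintype.card C * K.relIndex Gb

section

variable {G N P : Type} [Group G] [TopologicalSpace G] [AddCommGroup N] [DistribMulAction G N]
  (D : Dat G N P) {ι : Type} [Fintype ι] [DecidableEq ι]

/-- The face functions of a cube: `F I` is the alternating sum of the lifts `t` of `τ`, `F U` for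
`U ≠ I` the alternating sum of the cocycles of type `2 ^ (#I - 1 - #U) τ`. -/
noncomputable def Dat.fc (x y : ι → P) (I : Finset ι) (τ : D.J ι → N)
    (t : (ι → P) → D.J ι → N) (U : Finset ι) (σ : G) : N :=
  if U = I then alt x y I (fun z => D.coc z (t z) σ) else
    alt x y U fun z => D.coc z (2 ^ (#I - 1 - #U) • τ) σ

open Classical in
/-- The symbols of a configuration. -/
noncomputable def Dat.Sy (x : ι → P) :
    (ι → ι → ZMod 2) × (ι → {v // v ∈ D.S} → ZMod 2 × ZMod 2 × ZMod 2) ×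
      (ι → ZMod 2 × ZMod 2) × (ι → {u : N // 4 • u = 0} → N) :=
  (fun i j => if i = j then 0 else D.ch (x i) (D.phi (x j)),
    fun i s => (D.ch (x i) (D.tau s.1), D.ch (x i) (D.phi s.1),
      if s.1 = D.inf then 0 else D.ch s.1 (D.phi (x i))),
    fun i => (D.cst (D.phi (x i)), D.ch0 (D.phi (x i))), fun i u => D.phi (x i) • u.1)

end

/-- Module `Fac`. PROOF. `n = #I ≥ 1`. (1) `two`: for `U = I`: `2 F = alt (coc z τ) = 0` (`LemB`,
`j = n`). For `U ≠ I`: type `τ' = 2^(n-1-#U) τ`, `2^#U (2 τ') = 2^n τ = 0`, `2^(#U-1) (2 τ') (inr i) =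
2^(n-1) τ (inr i) = 0`: `LemB` with `j = #U` (for `U = ∅`: `2 τ' = 2^n τ = 0`). (2) `mul`: `Dif`
(the left side is zero, the values are in `V`, so `tw` and the signs disappear), and for
`∅ ≠ W ⊆ U`: `2^#W alt (mx x y W) y (U \ W) (..) = alt (mx x y W) y (U \ W) (coc z (2^(n-1-#(U \ W)) τ))`
(if `U = I`: `2^#W coc z (t z) = coc z (2^(#W-1) τ)`, `#W - 1 = n - 1 - #(U \ W)`), and this is
`alt x y (U \ W) (the same)` by `Par` (`2^(#(U \ W) + 1) 2^(n-1-#(U \ W)) τ = 2^n τ = 0`), which is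
`F (U \ W)` as `U \ W ≠ I`. -/
def S_Fac : Prop :=
  ∀ {G N P ι : Type} [Group G] [TopologicalSpace G] [AddCommGroup N] [DistribMulAction G N]
    [Fintype ι] [DecidableEq ι] (D : Dat G N P), Ax D → ∀ (x y : ι → P) (I : Finset ι),
    D.Gd x y I → I.Nonempty → ∀ τ : D.J ι → N, 2 ^ #I • τ = 0 →
    (∀ i ∈ I, 2 ^ (#I - 1) • τ (Sum.inr i) = 0) → ∀ t : (ι → P) → D.J ι → N,
    (∀ w ⊆ I, t (mx x y w) ∈ D.Z (mx x y w) ∧ 2 • t (mx x y w) = τ) →
    Sys I (fun i σ => D.ch (x i) σ + D.ch (y i) σ) (D.fc x y I τ t) ∧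
    (∀ U ⊆ I, IsLocallyConstant (D.fc x y I τ t U)) ∧
    ∀ σ, D.fc x y I τ t ∅ σ = D.coc x (2 ^ (#I - 1) • τ) σ

/-- Module `Psi0` (values at the prime `b` and ramification). Statement (A): the proper functions of
the cube at the prime `y b` vanish at `φ` of the prime `x b` (`x`, `y`, `U` a good cube with
`b ∈ U`, `I = U \ {b}`). PROOF of (A). Let `F' ⊂ I` be proper, `τ' = 2^(#I-1-#F') τ`. By `Par` (for
`F'`, `W = {b}`; `2^(#F'+1) τ' = 2^#I τ = 0`) `alt (update x b (y b)) y F' (coc z τ') = alt x y F'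
(coc z τ')`. At `v = x b` all `coc (mx x y w) τ'`, `w ⊆ F'`, have the same values (`Chi`, `Lfx`), so
the alternating sum at `φ_v` is zero if `F' ≠ ∅`; if `F' = ∅` it is `coc x (2^(#I-1) τ) (φ_v) = tw
Q - Q`, `2 Q = 2^(#I-1) τ (inr b) = 0`. (B): the same at `φ_(x b)` and `τ_(x b)` for the cube at the
prime `x b` itself. PROOF of (B): local values at `x b` as above. (C): ramification. All vertices are
unramified outside `S`, `x`, `y`. -/
def S_Psi0 : Prop :=
  (∀ {G N P ι : Type} [Group G] [TopologicalSpace G] [AddCommGroup N] [DistribMulAction G N]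
    [Fintype ι] [DecidableEq ι] (D : Dat G N P), Ax D → ∀ (x y : ι → P) (U : Finset ι) (b : ι),
    D.Gd x y U → b ∈ U → 2 ≤ #U → ∀ τ : D.J ι → N, 2 ^ (#U - 1) • τ = 0 →
    (∀ i ∈ U, 2 ^ (#U - 2) • τ (Sum.inr i) = 0) → (∀ w ⊆ U, τ ∈ D.Z (mx x y w)) →
    ∀ t : (ι → P) → D.J ι → N, ∀ F' ⊆ U.erase b, F' ≠ U.erase b →
    D.fc (Function.update x b (y b)) y (U.erase b) τ t F' (D.phi (x b)) = 0) ∧
  (∀ {G N P ι : Type} [Group G] [TopologicalSpace G] [AddCommGroup N] [DistribMulAction G N]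
    [Fintype ι] [DecidableEq ι] (D : Dat G N P), Ax D → ∀ (x y : ι → P) (I : Finset ι) (b : ι),
    D.Gd x y I → b ∉ I → I.Nonempty → ∀ τ : D.J ι → N, 2 ^ #I • τ = 0 →
    2 ^ (#I - 1) • τ (Sum.inr b) = 0 → (∀ w ⊆ I, τ ∈ D.Z (mx x y w)) →
    ∀ t : (ι → P) → D.J ι → N, ∀ F' ⊆ I, F' ≠ I →
    D.fc x y I τ t F' (D.phi (x b)) = 0 ∧ D.fc x y I τ t F' (D.tau (x b)) = 0) ∧
  (∀ {G N P ι : Type} [Group G] [TopologicalSpace G] [AddCommGroup N] [DistribMulAction G N]
    [Fintype ι] [DecidableEq ι] (D : Dat G N P), Ax D → ∀ (x y : ι → P) (I : Finset ι),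
    D.Gd x y I → ∀ (τ : D.J ι → N) (t : (ι → P) → D.J ι → N),
    (∀ w ⊆ I, τ ∈ D.Z (mx x y w) ∧ t (mx x y w) ∈ D.Z (mx x y w)) → ∀ F' ⊆ I, ∀ v, v ∉ D.S →
    (∀ i, v ≠ x i) → (∀ i ∈ I, v ≠ y i) → D.fc x y I τ t F' (D.tau v) = 0)

/-- Module `FinT` (finiteness of the set of systems unramified outside a finite set). PROOF. Strong
induction on `U ⊆ I`: the set of the functions `F U`, `F` in the set, is finite. Two systems in the
set which agree on all proper subsets of `U` differ at `U` by a homomorphism to `V` (`mul`), locally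
constant, unramified outside `A`; these form a finite set by `Hom` (3). So for each of the finitely
many values of the family `(F U')_(U' ⊂ U)` there are finitely many `F U`. Finally `F` is determined
by the family `(F U)_(U ⊆ I)`. -/
def S_FinT : Prop :=
  ∀ {G N P ι : Type} [Group G] [TopologicalSpace G] [AddCommGroup N] [DistribMulAction G N]
    [DecidableEq ι] (D : Dat G N P), Ax D → ∀ (I : Finset ι) (c : ι → G → ZMod 2)
    (A : Finset P),
    {F : Finset ι → G → N | Sys I c F ∧ (∀ U ⊆ I, IsLocallyConstant (F U) ∧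
      ∀ v, v ∉ A → F U (D.tau v) = 0) ∧ ∀ U, ¬ U ⊆ I → F U = 0}.Finite

/-- Module `TyU` (the type is unique). PROOF. Let `lo` hold with `Q` and `Q'`. `R = Q - Q'` is fixed
by `tw τ` and `tw φ`, so `2 R = 0`: `Ok.tame` for `j = inl s`; for `j = inr i`: `tw τ R = -R`
(`Tai`, `unr`), so `2 R = 0`. Consequence: `coc x t = 0` only for `t = 0`. -/
def S_TyU : Prop :=
  ∀ {G N P ι : Type} [Group G] [TopologicalSpace G] [AddCommGroup N] [DistribMulAction G N]
    [Fintype ι] [DecidableEq ι] (D : Dat G N P), Ax D → ∀ x : ι → P, D.Ok x →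
    (∀ t t' (ψ : G → N), D.IsZ x t ψ → D.IsZ x t' ψ → t = t') ∧
    (∀ t ∈ D.Z x, t ≠ 0 → ∃ σ, D.coc x t σ ≠ 0)

/-- Module `Sym` (symmetry of the symbols). PROOF. `rcp` for `ch v` and `ch w`: the term at `v` is
`ch w (φ_v)`, the term at `w` is `ch v (φ_w)` (`ch_tau`, `ch_tau'`, `ch_phi`), the term at infinity
is zero by `ch_inf`, all others by `ch_tau'`. -/
def S_Sym : Prop :=
  ∀ {G N P : Type} [Group G] [TopologicalSpace G] [AddCommGroup N] [DistribMulAction G N]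
    (D : Dat G N P), Ax D → ∀ v w, v ≠ D.inf → w ≠ D.inf → v ≠ w →
    D.ch v (D.phi w) = D.ch w (D.phi v)

/-- Module `SyG` (a cube all of whose vertices have the same symbols is good). PROOF. `sS`: compare
`x` and `mx x y {i}`, second component. `sx`: the entry `(i, j)` of the symbols of `x` and
`mx x y {i}`. `sy`: the entry `(i, j)` for `mx x y {j}` and `mx x y {i, j}`. -/
def S_SyG : Prop :=
  ∀ {G N P ι : Type} [Group G] [TopologicalSpace G] [AddCommGroup N] [DistribMulAction G N]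
    [Fintype ι] [DecidableEq ι] (D : Dat G N P) (x y : ι → P) (U : Finset ι),
    (∀ w ⊆ U, D.Ok (mx x y w)) → (∀ i ∈ U, x i ≠ y i) → (∀ w ⊆ U, D.Sy (mx x y w) = D.Sy x) →
    D.Gd x y U

/-- Module `Sy1` (`Dk x 1` depends only on the symbols). PROOF. Let `t ∈ Z x`, `2 t = 0`,
`ψ = coc x t`, a homomorphism to `V` (`Uq`). Let `θ = ∑_{j, pl x j ≠ ∞} [ch (pl y j) = 1] ψ (τ_(pl x
j)) + [cst = 1] ψ (φ_∞)`; for `y = x` this is `ψ` itself (`Hom` (1): equal values at all `τ_v` and at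
`φ_∞`). The symbols of `x` and `y` agree, so `θ (τ_(pl y j)) = ψ (τ_(pl x j))` and `θ (φ_(pl y j)) =
ψ (φ_(pl x j))` for all `j` (expand both; entries: `ch (y i) (φ_(y i')) = ch (x i) (φ_(x i'))` for
`i ≠ i'` and zero for `i = i'` by `ch_phi`; `ch (y i)` at `τ_s`, `φ_s`; `ch s (φ_(y i))`; `cst
(φ_(y i))`). Also `chi y = chi x` at these elements (`ch0 (φ_(y i)) = ch0 (φ_(x i))`), and `φ_(y i) Q
= φ_(x i) Q` for `4 Q = 0`, `τ_(x i) Q = Q = τ_(y i) Q`. So `lo` for `x`, `ψ` gives `lo` for `y`, `θ`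
(`4 Q = 0` since `2 Q = t j`), `θ` is unramified outside the places of `y`, and `t ∈ Z y`. The second
statement: if `e (coc x t σ) s = 0` for all `σ` then the same holds for `θ = coc y t` (it is a sum of
values of `ψ`), by symmetry. -/
def S_Sy1 : Prop :=
  ∀ {G N P ι : Type} [Group G] [TopologicalSpace G] [AddCommGroup N] [DistribMulAction G N]
    [Fintype ι] [DecidableEq ι] (D : Dat G N P), Ax D → ∀ x y : ι → P, D.Ok x → D.Ok y →
    D.Sy x = D.Sy y → D.Dk x 1 = D.Dk y 1 ∧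
      ∀ t ∈ D.Dk x 1, ∀ s : N, 2 • s = 0 → (∃ σ, D.e (D.coc x t σ) s = 1) →
        ∃ σ, D.e (D.coc y t σ) s = 1

/-- Module `SyF` (finitely many symbols). PROOF. All components are in finite sets; `φ • u` is killed
by `4`, and `{u | 4 u = 0}` is finite (`Bas`, `4 = 2 ^ 2`). -/
def S_SyF : Prop :=
  ∀ {G N P ι : Type} [Group G] [TopologicalSpace G] [AddCommGroup N] [DistribMulAction G N]
    [Fintype ι] [DecidableEq ι] (D : Dat G N P), Ax D →
    (Set.range fun x : ι → P => D.Sy x).Finite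

/-- Module `Det` (`Dk x K`, `O x K` are determined by the obstruction functionals of the types which
vanish on `I` at the last level). PROOF. By symmetry it is enough to show `⊆`. Let `g ∈ Dk x K`,
`g = 2^(K-1) ζ`, `ζ ∈ Z x`, `2^K ζ = 0`. `g ∈ Dk x 1` (`Dk1`), so `g (inr i) = s` for `i ∈ I`. Let
`2^(K-1) r = s`, `ζ' = ζ - (fun _ => r) ∈ Z x` (`Tin`); `ξ = 2 ζ'` satisfies `2^(K-1) ξ = 0`,
`2^(K-2) ξ (inr i) = g (inr i) - s = 0`, and `coc x ζ'` is a half with functional zero (`ObA` (3)).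
So `x'` has a half `η'` of `ξ` whose functional vanishes on the `ν ∈ Dk x' 1` with `ν (inr i) = 0` on
`I`, and on `T` (`Tre`), so on `Dk x' 1` (every element is a sum of such elements, additivity). By
`Dua` `ξ = 2 ζ''`, `ζ'' ∈ Z x'`, `2^(K-1) ζ'' = 2^(K-2) ξ = g - s`, `2^K ζ'' = 2^(K-1) ξ = 0`, so
`g - s ∈ Dk x' K`, and `T ⊆ Dk x' K`. `O`: let `g` come from `ξ`, `η`; `2^(K-2) ξ ∈ Dk x 1`
(`ξ ∈ Z x` as `2 η` is a cocycle of type `ξ`) has the common value `s` on `I`; with `2^(K-2) r = s`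
replace `ξ` by `ξ - (fun _ => r)` and `η` by `η - (tw R - R)`, `2 R = half r`... (a half of the
cocycle of the constant type `r`, which is `tw R - R` for `2 R = r`; its half is `tw R' - R'`,
`2 R' = R`, of type `R`, with functional zero by `ObA` (3): `r = 2 R`). The functional does not
change. Then use the hypothesis; `g` is zero on `T` (`Tre`) and additive. -/
def S_Det : Prop :=
  ∀ {G N P ι : Type} [Group G] [TopologicalSpace G] [IsTopologicalGroup G] [AddCommGroup N]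
    [DistribMulAction G N] [Fintype ι] [DecidableEq ι] (D : Dat G N P), Ax D → Ax2 D →
    ∀ (x x' : ι → P), D.Ok x → D.Ok x' → D.Dk x 1 = D.Dk x' 1 → ∀ I : Finset ι, I.Nonempty →
    (∀ ν ∈ D.Dk x 1, ∃ s : N, 2 • s = 0 ∧ ∀ i ∈ I, ν (Sum.inr i) = s) → ∀ K, 2 ≤ K →
    (∀ ξ : D.J ι → N, 2 ^ (K - 1) • ξ = 0 → (∀ i ∈ I, 2 ^ (K - 2) • ξ (Sum.inr i) = 0) →
      ((∃ η, D.IsH x ξ η) ↔ ∃ η, D.IsH x' ξ η) ∧ ∀ η η', D.IsH x ξ η → D.IsH x' ξ η' →
        ∀ ν ∈ D.Dk x 1, (∀ i ∈ I, ν (Sum.inr i) = 0) → D.ob x ξ η ν = D.ob x' ξ η' ν) →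
    D.Dk x K = D.Dk x' K ∧ D.O x K = D.O x' K

/-- Module `O1` (level one). PROOF. If `2 ^ 0 ξ = 0` then `ξ = 0` and `2 η = 0`; `0` is also a half
of `0` with functional zero; `ObA` (5). And `0` is in `O x 1`. -/
def S_O1 : Prop :=
  ∀ {G N P ι : Type} [Group G] [TopologicalSpace G] [AddCommGroup N] [DistribMulAction G N]
    [Fintype ι] [DecidableEq ι] (D : Dat G N P), Ax D → ∀ x : ι → P, D.Ok x → D.O x 1 = {0}

end Pool.Agent.MP72S
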