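import Pool.Agent.Lib.MP_72e2e6_nt.Sm.A.Spec3

/-!
# MP_72e2e6_nt, `Sm/A/SyF`: finitely many symbols
-/

namespace Pool.Agent.MP72S

open Finset

theorem tSyF : S_Bas → S_SyF := by
  intro hB G N P ι _ _ _ _ _ _ D hA
  obtain ⟨-, hf, -⟩ := hB D hA
  have h4 : {x : N | 4 • x = 0}.Finite := by
    have h := hf 2
    rwa [show (2 : ℕ) ^ 2 = 4 from rfl] at h
  haveI : Finite {u : N // 4 • u = 0} := h4
  have hF : {f : ι → {u : N // 4 • u = 0} → N | ∀ i, f i ∈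
      {g : {u : N // 4 • u = 0} → N | ∀ u, g u ∈ {x : N | 4 • x = 0}}}.Finite :=
    Set.Finite.pi' fun _ => Set.Finite.pi' fun _ => h4
  refine ((Set.finite_univ.prod (Set.finite_univ.prod (Set.finite_univ.prod hF)))).subset ?_
  rintro _ ⟨x, rfl⟩
  refine ⟨Set.mem_univ _, Set.mem_univ _, Set.mem_univ _, fun i u => ?_⟩
  change 4 • (D.phi (x i) • u.1) = 0
  rw [smul_comm, u.2, smul_zero]

end Pool.Agent.MP72S
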