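import Pool.Agent.Lib.MP_72e2e6_nt.Sm.A.Spec3

namespace Pool.Agent.MP72S

open Finset

theorem tSyG : S_Alt → S_SyG := by
  intro _ G N P ι _ _ _ _ _ _ D x y U hok hne hsy
  refine ⟨hok, hne, ?_, ?_, ?_⟩
  · intro i hi s hs
    have h := hsy {i} (by simpa using hi)
    have h2 := congrFun (congrFun (congrArg (fun q => q.2.1) h) i) ⟨s, hs⟩
    simp only [Dat.Sy, mx, Finset.mem_singleton, if_true, Prod.mk.injEq] at h2
    exact ⟨h2.1.symm, h2.2.1.symm⟩
  · intro i hi j hj
    have h := hsy {i} (by simpa using hi)
    have h2 := congrFun (congrFun (congrArg (fun q => q.1) h) i) j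
    simp only [Dat.Sy, mx, Finset.mem_singleton, if_neg hj.symm, if_neg hj, if_true] at h2
    exact h2.symm
  · intro i hi j hj hji
    have h := hsy {j} (by simpa using hj)
    have h2 := congrFun (congrFun (congrArg (fun q => q.1) h) i) j
    have h' := hsy {i, j} (by
      intro a ha
      simp only [mem_insert, Finset.mem_singleton] at ha
      rcases ha with rfl | rfl <;> assumption)
    have h2' := congrFun (congrFun (congrArg (fun q => q.1) h') i) j
    simp only [Dat.Sy, mx, Finset.mem_singleton, if_neg hji.symm, if_true] at h2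
    simp only [Dat.Sy, mx, mem_insert, Finset.mem_singleton, if_neg hji.symm, true_or, or_true,
      if_true] at h2'
    rw [h2, h2']

end Pool.Agent.MP72S
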