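import Pool.Agent.Lib.MP_72e2e6_nt.Sm.A.Spec3

/-!
# MP_72e2e6_nt, `Sm/A/Sym`: symmetry of the symbols
-/

namespace Pool.Agent.MP72S

open Finset

theorem tSym : S_Sym := by
  intro G N P _ _ _ _ D hA v w hv hw hvw
  classical
  have h := hA.rcp (D.ch v) (D.ch w) (hA.chc v hv) (hA.chc w hw)
  have hs : Function.support (fun u => D.ch v (D.tau u) * D.ch w (D.phi u) +
      D.ch v (D.phi u) * D.ch w (D.tau u)) ⊆ (({v, w} : Finset P) : Set P) := by
    intro u hu
    rw [Function.mem_support] at hu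
    by_contra hn
    simp only [coe_insert, coe_singleton, Set.mem_insert_iff, Set.mem_singleton_iff,
      not_or] at hn
    apply hu
    by_cases hi : u = D.inf
    · subst hi
      rw [hA.ch_inf v hv, hA.ch_inf w hw, mul_zero, zero_mul, add_zero]
    · rw [hA.ch_tau' v u hv hi (Ne.symm hn.1), hA.ch_tau' w u hw hi (Ne.symm hn.2), mul_zero,
        zero_mul, add_zero]
  rw [finsum_eq_sum_of_support_subset _ hs, sum_pair hvw, hA.ch_tau v hv, hA.ch_tau w hw,
    hA.ch_tau' v w hv hw hvw, hA.ch_tau' w v hw hv (Ne.symm hvw), hA.ch_phi v hv,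
    hA.ch_phi w hw] at h
  simp only [one_mul, mul_zero, zero_mul, add_zero, zero_add, mul_one] at h
  have h2 : D.ch v (D.phi w) = - D.ch w (D.phi v) := eq_neg_of_add_eq_zero_right h
  rw [h2]
  rcases zmod2 (D.ch w (D.phi v)) with h3 | h3 <;> rw [h3] <;> rfl

end Pool.Agent.MP72S
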