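import Pool.Agent.Lib.MP_72e2e6_nt.Sm.A.Spec1

/-!
# MP_72e2e6_nt, `Sm/A/Tai`: values of the character and of the cocycles at the inertia generators
(helper91)
-/

namespace Pool.Agent.MP72S

open Finset

private theorem tai_lcsum {G A ι : Type} [TopologicalSpace G] [AddCommMonoid A] (s : Finset ι)
    (f : ι → G → A) (h : ∀ i ∈ s, IsLocallyConstant (f i)) :
    IsLocallyConstant fun σ => ∑ i ∈ s, f i σ := by
  classical
  induction s using Finset.induction_on with
  | empty =>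
    simp only [Finset.sum_empty]
    exact IsLocallyConstant.const 0
  | insert i s hi ih =>
    simp only [Finset.sum_insert hi]
    exact (h i (mem_insert_self i s)).comp₂ (ih fun j hj => h j (mem_insert_of_mem hj))
      fun a b => a + b

theorem tTai : S_Tai := by
  intro G N P ι _ _ _ _ _ _ D hA x hx
  have hinf : ∀ i, x i ≠ D.inf := fun i h => hx.nS i (h ▸ hA.infS)
  have h1 : ∀ i, D.chi x (D.tau (x i)) = 1 := by
    intro i
    rw [Dat.chi, hA.ch0_tau _ (hx.nS i), zero_add, Finset.sum_eq_single i]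
    · exact hA.ch_tau _ (hinf i)
    · intro j _ hj
      exact hA.ch_tau' _ _ (hinf j) (hinf i) fun h => hj (hx.inj h)
    · intro h
      exact absurd (mem_univ i) h
  have h6 : ∀ i Q (ψ : G → N), D.Lo x (x i) Q ψ → ψ (D.tau (x i)) = -(2 • Q) := by
    intro i Q ψ h
    rw [h.1, tw, h1 i, hA.unr _ (hx.nS i), sg_one', two_nsmul]
    abel
  refine ⟨h1, ?_, ?_, ?_, ?_, h6⟩
  · intro v hv
    have hvS : v ∉ D.S := fun h => hv ⟨Sum.inl ⟨v, h⟩, rfl⟩
    have hvi : v ≠ D.inf := fun h => hvS (h ▸ hA.infS)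
    rw [Dat.chi, hA.ch0_tau _ hvS, zero_add]
    refine Finset.sum_eq_zero fun i _ => ?_
    exact hA.ch_tau' _ _ (hinf i) hvi fun h => hv ⟨Sum.inr i, h⟩
  · intro σ τ
    simp only [Dat.chi]
    rw [hA.ch0c.mul, Finset.sum_congr rfl fun i _ => (hA.chc _ (hinf i)).mul σ τ,
      Finset.sum_add_distrib]
    abel
  · exact hA.ch0c.lc.comp₂ (tai_lcsum univ _ fun i _ => (hA.chc _ (hinf i)).lc) fun a b => a + b
  · intro i t ψ h
    obtain ⟨Q, hQ, h2⟩ := h.lo (Sum.inr i)
    rw [h6 i Q ψ h2, hQ]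

end Pool.Agent.MP72S
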