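import Pool.Agent.Lib.MP_72e2e6_nt.Sm.A.Spec1

/-!
# MP_72e2e6_nt, `Sm/A/Tin`: the diagonal types are Selmer types (helper91)
-/

namespace Pool.Agent.MP72S

open Finset

private theorem tin_lcsum {G A ι : Type} [TopologicalSpace G] [AddCommMonoid A] (s : Finset ι)
    (f : ι → G → A) (h : ∀ i ∈ s, IsLocallyConstant (f i)) :
    IsLocallyConstant fun σ => ∑ i ∈ s, f i σ := by
  classical
  induction s using Finset.induction_on with
  | empty =>
    simp only [Finset.sum_empty]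
    exact IsLocallyConstant.const 0
  | insert i s hi ih =>
    simp only [Finset.sum_insert hi]
    exact (h i (mem_insert_self i s)).comp₂ (ih fun j hj => h j (mem_insert_of_mem hj))
      fun a b => a + b

theorem tTin : S_Tin := by
  intro G N P ι _ _ _ _ _ _ D hA x hx s R hR
  have hinf : ∀ i, x i ≠ D.inf := fun i h => hx.nS i (h ▸ hA.infS)
  have hmul : ∀ σ τ, D.chi x (σ * τ) = D.chi x σ + D.chi x τ := by
    intro σ τ
    simp only [Dat.chi]
    rw [hA.ch0c.mul, Finset.sum_congr rfl fun i _ => (hA.chc _ (hinf i)).mul σ τ,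
      Finset.sum_add_distrib]
    abel
  have hlc : IsLocallyConstant (D.chi x) :=
    hA.ch0c.lc.comp₂ (tin_lcsum univ _ fun i _ => (hA.chc _ (hinf i)).lc) fun a b => a + b
  refine ⟨⟨?_, ?_, ?_, ?_⟩, ?_⟩
  · exact hlc.comp₂ (hA.act R) fun a b => sg a b - R
  · intro σ τ
    show tw (D.chi x) (σ * τ) R - R = tw (D.chi x) σ R - R + tw (D.chi x) σ (tw (D.chi x) τ R - R)
    rw [tw_mul (hmul σ τ), tw_sub]
    abel
  · obtain ⟨k, hk⟩ := hA.prim R
    refine ⟨k, fun σ => ?_⟩
    rw [smul_sub, ← tw_nsmul, hk, tw_map_zero, sub_zero]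
  · intro v hv
    have hvS : v ∉ D.S := fun h => hv ⟨Sum.inl ⟨v, h⟩, rfl⟩
    have hvi : v ≠ D.inf := fun h => hvS (h ▸ hA.infS)
    have h0 : D.chi x (D.tau v) = 0 := by
      rw [Dat.chi, hA.ch0_tau _ hvS, zero_add]
      refine Finset.sum_eq_zero fun i _ => ?_
      exact hA.ch_tau' _ _ (hinf i) hvi fun h => hv ⟨Sum.inr i, h⟩
    show tw (D.chi x) (D.tau v) R - R = 0
    rw [tw, h0, hA.unr _ hvS, sg_zero', sub_self]
  · intro j
    exact ⟨R, hR, rfl, rfl⟩

end Pool.Agent.MP72S
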