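import Pool.Agent.Lib.MP_72e2e6_nt.Sm.A.Spec2

/-!
# MP_72e2e6_nt, `Sm/A/Tre`: `T`-reciprocity
-/

set_option autoImplicit false

namespace Pool.Agent.MP72S

open Finset

section

variable {G N P : Type} [Group G] [TopologicalSpace G] [AddCommGroup N] [DistribMulAction G N]
  {D : Dat G N P}

private theorem tre_half0 : half (0 : N) = 0 := by
  rw [half, if_pos rfl]

private theorem tre_half (hA : Ax D) (x : N) : 2 • half x = x := by
  by_cases hx : x = 0
  · rw [hx, tre_half0, smul_zero]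
  · have h : ∃ y : N, 2 • y = x := hA.dvs x
    rw [half, if_neg hx, dif_pos h]
    exact h.choose_spec

private theorem tre_e0 (hA : Ax D) {y : N} (hy : 2 • y = 0) : D.e 0 y = 0 := by
  have h0 : 2 • (0 : N) = 0 := smul_zero _
  have h := hA.e_add 0 0 y h0 h0 hy
  rw [add_zero] at h
  exact left_eq_add.1 h

/-- The coboundary of the half of `η`. -/
private noncomputable def treC (χ : G → ZMod 2) (η : G → N) (g h : G) : N :=
  half (η g) + tw χ g (half (η h)) - half (η (g * h))

private theorem tre_two (hA : Ax D) {χ : G → ZMod 2} {η : G → N} (hη : IsCo χ η) (g h : G) :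
    2 • treC χ η g h = 0 := by
  rw [treC, smul_sub, smul_add, ← tw_nsmul, tre_half hA, tre_half hA, tre_half hA, hη g h]
  abel

private theorem tre_lc [IsTopologicalGroup G] (hA : Ax D) {χ : G → ZMod 2}
    (hχ : IsLocallyConstant χ) {η : G → N} (hl : IsLocallyConstant η) :
    IsLocallyConstant fun p : G × G => treC χ η p.1 p.2 := by
  have h1 : IsLocallyConstant fun p : G × G => η p.1 := hl.comp_continuous continuous_fst
  have h2 : IsLocallyConstant fun p : G × G => η p.2 := hl.comp_continuous continuous_snd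
  have h3 : IsLocallyConstant fun p : G × G => η (p.1 * p.2) := hl.comp_continuous continuous_mul
  have h4 : IsLocallyConstant fun p : G × G => χ p.1 := hχ.comp_continuous continuous_fst
  rw [IsLocallyConstant.iff_eventually_eq] at h1 h2 h3 h4 ⊢
  intro p
  have h5 : IsLocallyConstant fun q : G × G => q.1 • half (η p.2) :=
    (hA.act (half (η p.2))).comp_continuous continuous_fst
  rw [IsLocallyConstant.iff_eventually_eq] at h5
  filter_upwards [h1 p, h2 p, h3 p, h4 p, h5 p] with q e1 e2 e3 e4 e5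
  rw [treC, treC, e1, e2, e3, tw, tw, e4, e5]

private theorem tre_coc (χ : G → ZMod 2) (hχ : ∀ σ τ, χ (σ * τ) = χ σ + χ τ) (η : G → N)
    (g h k : G) : treC χ η g h + treC χ η (g * h) k =
      tw χ g (treC χ η h k) + treC χ η g (h * k) := by
  rw [treC, treC, treC, treC, tw_sub, tw_add, tw_mul (hχ g h), mul_assoc]
  abel

private theorem tre_out (hA : Ax D) {χ : G → ZMod 2} (hχ : ∀ σ τ, χ (σ * τ) = χ σ + χ τ)
    {η : G → N} (hη : IsCo χ η) {s : N} (hs : 2 • s = 0) {v : P} (hv : v ∉ D.S)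
    (h1 : χ (D.tau v) = 0) (h2 : η (D.tau v) = 0) :
    D.iv (fun g h => D.e (treC χ η g h) s) v = 0 := by
  have hone : χ 1 = 0 := by
    have h := hχ 1 1
    rw [mul_one] at h
    exact left_eq_add.1 h
  have ha1 : η 1 = 0 := by
    have h := hη 1 1
    rw [mul_one, tw, hone, sg_zero', one_smul] at h
    exact left_eq_add.1 h
  have h3 : ∀ i : ℕ, η (D.tau v ^ i) = 0 := by
    intro i
    induction i with
    | zero => rw [pow_zero, ha1]
    | succ i ih => rw [pow_succ, hη, ih, h2, tw_map_zero, add_zero]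
  have h4 : ∀ i : ℕ, χ (D.tau v ^ i) = 0 := by
    intro i
    induction i with
    | zero => rw [pow_zero, hone]
    | succ i ih => rw [pow_succ, hχ, ih, h1, add_zero]
  have h5 : ∀ (i : ℕ) (y : N), D.tau v ^ i • y = y := by
    intro i y
    induction i with
    | zero => rw [pow_zero, one_smul]
    | succ i ih => rw [pow_succ, mul_smul, hA.unr v hv, ih]
  have h6 : ∀ (i : ℕ) (y : N), tw χ (D.tau v ^ i) y = y := by
    intro i y
    rw [tw, h4, sg_zero', h5]
  have h7 : treC χ η (D.phi v) (D.tau v) = 0 := by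
    rw [treC, hη, h2, tw_map_zero, add_zero, tre_half0, tw_map_zero, add_zero, sub_self]
  have h8 : ∀ i : ℕ, treC χ η (D.tau v ^ (i + 1)) (D.tau v) = 0 := by
    intro i
    rw [treC, ← pow_succ, h3, h3, h2, tre_half0, tw_map_zero, add_zero, sub_self]
  have h9 : treC χ η (D.tau v ^ D.nq v) (D.phi v) = 0 := by
    rw [treC, hη, h3, h6, h6, tre_half0, zero_add, zero_add, sub_self]
  rw [Dat.iv]
  simp only [h7, h8, h9]
  rw [tre_e0 hA hs, sum_const_zero, sub_zero, sub_zero]

end

theorem tTre : S_Uq → S_Tin → S_Tai → S_Dk1 → S_ObR → S_Trl → S_Tre := by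
  intro hUq hTin hTai hDk hOb hTrl G N P ι _ _ _ _ _ _ _ D hA hA2 x hx ξ η hη ν hν
  classical
  obtain ⟨s, hs, rfl⟩ := hν
  obtain ⟨-, htau, hχ, hχl, -, -⟩ := hTai D hA x hx
  have hinj : Function.Injective (D.pl x) := (hDk (ι := ι) D hA).2.2.2.2.2.2.2.2.2 x hx
  obtain ⟨r, hr⟩ := hA.dvs s
  have hcoc : ∀ g, D.coc x (fun _ => s) g = tw (D.chi x) g r - r :=
    (hUq D hA x).1 _ _ (hTin D hA x hx s r hr)
  have hobr := (hOb D hA x ξ η hη (fun j => quar (ξ j))
    ((hDk (ι := ι) D hA).2.2.2.2.2.2.1 <| ξ ·)).1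
  have hz2 := tre_two hA hη.u.co
  have hC2 : IsC2 (fun _ r => r) (fun g h => D.e (treC (D.chi x) η g h) s) := by
    refine ⟨(tre_lc hA hχl hη.u.lc).comp fun y => D.e y s, fun g h k => ?_⟩
    have h1 := tre_coc (D.chi x) hχ η g h k
    rw [tw_two hA.tri (hz2 h k)] at h1
    rw [← hA.e_add _ _ _ (hz2 _ _) (hz2 _ _) hs, ← hA.e_add _ _ _ (hz2 _ _) (hz2 _ _) hs, h1]
  have hrec := hA2.rec2 _ hC2
  have hsupp : Function.support (fun v => D.iv (fun g h => D.e (treC (D.chi x) η g h) s) v) ⊆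
      ((univ.image (D.pl x) : Finset P) : Set P) := by
    intro v hv
    rw [Finset.coe_image, Finset.coe_univ, Set.image_univ]
    by_contra hc
    apply hv
    refine tre_out hA hχ hη.u.co hs ?_ (htau v hc) (hη.u.ur v hc)
    intro hS
    exact hc ⟨Sum.inl ⟨v, hS⟩, rfl⟩
  rw [finsum_eq_sum_of_support_subset _ hsupp, sum_image fun a _ b _ h => hinj h] at hrec
  rw [← hrec, Dat.ob]
  refine sum_congr rfl fun j _ => ?_
  have hT := hTrl D hA (D.chi x) hχ (D.pl x j)
    (fun g => η g - (tw (D.chi x) g (quar (ξ j)) - quar (ξ j))) η (quar (ξ j)) r s ?_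
    (hobr j _ (Or.inl rfl)) (hobr j _ (Or.inr rfl)) (fun g => by abel) hr hs
  · rw [Dat.lp, hcoc, hcoc]
    exact hT.symm
  · intro σ τ
    simp only [hη.u.co σ τ, tw_sub, tw_mul (hχ σ τ)]
    abel

end Pool.Agent.MP72S
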