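import Pool.Agent.Lib.MP_72e2e6_nt.Sm.A.Spec3

namespace Pool.Agent.MP72S

open Finset

/-- One step: the subgroup of `K` where a character which is nontrivial on `K ⊓ Gb` vanishes. -/
private theorem Tri_step {G : Type} [Group G] (Gb K H : Subgroup G) (l : G → ZMod 2)
    (hl : ∀ h ∈ K, ∀ h' ∈ K, l (h * h') = l h + l h')
    (hH : ∀ h, h ∈ H ↔ h ∈ K ∧ l h = 0) (g : G) (hgK : g ∈ K) (hgG : g ∈ Gb) (hg : l g = 1) :
    H.relIndex Gb = K.relIndex Gb * 2 := by
  have hHK : H ≤ K := fun h hh => ((hH h).mp hh).1
  have h1 : (H ⊓ Gb).relIndex (K ⊓ Gb) * (K ⊓ Gb).relIndex Gb = (H ⊓ Gb).relIndex Gb :=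
    Subgroup.relIndex_mul_relIndex _ _ _ (inf_le_inf_right _ hHK) inf_le_right
  rw [Subgroup.inf_relIndex_right, Subgroup.inf_relIndex_right] at h1
  let f : (K ⊓ Gb : Subgroup G) →* Multiplicative (ZMod 2) :=
    { toFun := fun h => Multiplicative.ofAdd (l h.1)
      map_one' := by
        have := hl 1 K.one_mem 1 K.one_mem
        rw [mul_one] at this
        have h2 : l 1 + 0 = l 1 + l 1 := by rw [add_zero]; exact this
        have h3 := (add_left_cancel h2).symm
        change Multiplicative.ofAdd (l 1) = 1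
        rw [h3]; rfl
      map_mul' := by
        intro a b
        change Multiplicative.ofAdd (l (a.1 * b.1)) = _
        rw [hl a.1 a.2.1 b.1 b.2.1]; rfl }
  have hker : f.ker = (H ⊓ Gb).subgroupOf (K ⊓ Gb) := by
    ext h
    rw [MonoidHom.mem_ker, Subgroup.mem_subgroupOf]
    change Multiplicative.ofAdd (l h.1) = 1 ↔ _
    rw [Subgroup.mem_inf, hH]
    constructor
    · intro h2
      exact ⟨⟨h.2.1, Multiplicative.ofAdd.injective h2⟩, h.2.2⟩
    · rintro ⟨⟨-, h2⟩, -⟩
      rw [h2]; rfl
  have hsurj : Function.Surjective f := by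
    intro v
    rcases zmod2 (Multiplicative.toAdd v) with h0 | h0
    · refine ⟨1, ?_⟩
      rw [map_one]
      apply Multiplicative.toAdd.injective
      rw [h0]; rfl
    · refine ⟨⟨g, hgK, hgG⟩, ?_⟩
      apply Multiplicative.toAdd.injective
      rw [h0]
      exact hg
  have hidx : (H ⊓ Gb).relIndex (K ⊓ Gb) = 2 := by
    rw [Subgroup.relIndex, ← hker, Subgroup.index_ker,
      MonoidHom.range_eq_top.mpr hsurj, Subgroup.card_top]
    rw [Nat.card_eq_fintype_card]
    rfl
  rw [← h1, hidx, mul_comm]

theorem tTri : S_Tri := by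
  intro G α _ Gb K H A l g ρ hl hH hg htri
  classical
  induction A using Finset.induction_on_max_value ρ generalizing H with
  | empty =>
    have : H = K := by
      ext h
      rw [hH]
      simp
    rw [this]; simp
  | insert a s ha hmax ih =>
    let H' : Subgroup G :=
      { carrier := {h | h ∈ K ∧ ∀ p ∈ s, l p h = 0}
        mul_mem' := by
          rintro x y ⟨hx, hx'⟩ ⟨hy, hy'⟩
          refine ⟨K.mul_mem hx hy, fun p hp => ?_⟩
          rw [hl p (mem_insert_of_mem hp) x hx y hy, hx' p hp, hy' p hp, add_zero]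
        one_mem' := by
          refine ⟨K.one_mem, fun p hp => ?_⟩
          have := hl p (mem_insert_of_mem hp) 1 K.one_mem 1 K.one_mem
          rw [mul_one] at this
          have h2 : l p 1 + 0 = l p 1 + l p 1 := by rw [add_zero]; exact this
          exact (add_left_cancel h2).symm
        inv_mem' := by
          rintro x ⟨hx, hx'⟩
          refine ⟨K.inv_mem hx, fun p hp => ?_⟩
          have h1 := hl p (mem_insert_of_mem hp) 1 K.one_mem 1 K.one_mem
          rw [mul_one] at h1
          have h2 : l p 1 + 0 = l p 1 + l p 1 := by rw [add_zero]; exact h1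
          have h3 := (add_left_cancel h2).symm
          have h4 := hl p (mem_insert_of_mem hp) x hx x⁻¹ (K.inv_mem hx)
          rw [mul_inv_cancel, h3, hx' p hp, zero_add] at h4
          exact h4.symm }
    have hH' : ∀ h, h ∈ H' ↔ h ∈ K ∧ ∀ p ∈ s, l p h = 0 := fun h => Iff.rfl
    have h1 := ih H' (fun p hp => hl p (mem_insert_of_mem hp)) hH'
      (fun p hp => hg p (mem_insert_of_mem hp))
      (fun p hp p' hp' => htri p (mem_insert_of_mem hp) p' (mem_insert_of_mem hp'))
    obtain ⟨hgaK, hgaG, hga⟩ := hg a (mem_insert_self a s)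
    have h2 := Tri_step Gb H' H (l a)
      (fun x hx y hy => hl a (mem_insert_self a s) x ((hH' x).mp hx).1 y ((hH' y).mp hy).1)
      (fun h => by
        rw [hH, hH']
        constructor
        · rintro ⟨q1, q2⟩
          exact ⟨⟨q1, fun p hp => q2 p (mem_insert_of_mem hp)⟩, q2 a (mem_insert_self a s)⟩
        · rintro ⟨⟨q1, q2⟩, q3⟩
          refine ⟨q1, fun p hp => ?_⟩
          rcases mem_insert.mp hp with rfl | hp
          · exact q3
          · exact q2 p hp)
      (g a) (by
        rw [hH']
        refine ⟨hgaK, fun p hp => ?_⟩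
        by_contra hne
        rcases htri a (mem_insert_self a s) p (mem_insert_of_mem hp) hne with h3 | h3
        · rw [h3] at hp; exact ha hp
        · exact absurd (hmax p hp) (not_le.mpr h3))
      hgaG hga
    rw [h2, h1, card_insert_of_notMem ha, pow_succ, mul_assoc]

end Pool.Agent.MP72S
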