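import Pool.Agent.Lib.MP_72e2e6_nt.Sm.A.Spec2

/-!
# MP_72e2e6_nt, `Sm/A/Trl`: local computation for `T`-reciprocity
-/

set_option autoImplicit false

namespace Pool.Agent.MP72S

open Finset

section

variable {G N P : Type} [Group G] [TopologicalSpace G] [AddCommGroup N] [DistribMulAction G N]
  {D : Dat G N P}

private theorem trl_half0 : half (0 : N) = 0 := by
  rw [half, if_pos rfl]

private theorem trl_half (hA : Ax D) (x : N) : 2 • half x = x := by
  by_cases hx : x = 0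
  · rw [hx, trl_half0, smul_zero]
  · have h : ∃ y : N, 2 • y = x := hA.dvs x
    rw [half, if_neg hx, dif_pos h]
    exact h.choose_spec

private theorem trl_neg {x : N} (h : 2 • x = 0) : -x = x := by
  rw [two_nsmul] at h
  exact neg_eq_of_add_eq_zero_left h

private theorem trl_e0 (hA : Ax D) {y : N} (hy : 2 • y = 0) : D.e 0 y = 0 := by
  have h0 : 2 • (0 : N) = 0 := smul_zero _
  have h := hA.e_add 0 0 y h0 h0 hy
  rw [add_zero] at h
  exact left_eq_add.1 h

private theorem trl_eadd' (hA : Ax D) {x y z : N} (hx : 2 • x = 0) (hy : 2 • y = 0)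
    (hz : 2 • z = 0) : D.e x (y + z) = D.e x y + D.e x z := by
  rw [hA.e_sym x (y + z) hx (by rw [smul_add, hy, hz, add_zero]), hA.e_add _ _ _ hy hz hx,
    hA.e_sym x y hx hy, hA.e_sym x z hx hz]

private theorem trl_two_nsmul {x : N} (hx : 2 • x = 0) (n : ℕ) : 2 • (n • x) = 0 := by
  rw [smul_comm, hx, smul_zero]

private theorem trl_en (hA : Ax D) {x y : N} (hx : 2 • x = 0) (hy : 2 • y = 0) (n : ℕ) :
    D.e x (n • y) = n * D.e x y := by
  induction n with
  | zero =>
    rw [zero_smul, Nat.cast_zero, zero_mul, hA.e_sym x 0 hx (smul_zero _), trl_e0 hA hx]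
  | succ n ih =>
    rw [add_smul, one_smul, trl_eadd' hA hx (trl_two_nsmul hy n) hy, ih]
    push_cast
    ring

private theorem trl_par {x : N} (hx : 2 • x = 0) (n : ℕ) :
    (((n : ZMod 2) = 0) ∧ n • x = 0) ∨ (((n : ZMod 2) = 1) ∧ n • x = x) := by
  rcases Nat.even_or_odd' n with ⟨k, rfl | rfl⟩
  · left
    refine ⟨?_, ?_⟩
    · rw [Nat.cast_mul, show ((2 : ℕ) : ZMod 2) = 0 from rfl, zero_mul]
    · rw [mul_comm, mul_smul, hx, smul_zero]
  · right
    refine ⟨?_, ?_⟩
    · rw [Nat.cast_add, Nat.cast_mul, show ((2 : ℕ) : ZMod 2) = 0 from rfl, zero_mul, zero_add,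
        Nat.cast_one]
    · rw [add_smul, one_smul, mul_comm, mul_smul, hx, smul_zero, zero_add]

/-- The symmetric term `B`. -/
private noncomputable def trlB (u w : N) : N := half u + half w - half (u + w)

private theorem trlB_two (hA : Ax D) (u w : N) : 2 • trlB u w = 0 := by
  rw [trlB, smul_sub, smul_add, trl_half hA, trl_half hA, trl_half hA, sub_self]

private theorem trlB_sym (u w : N) : trlB u w = trlB w u := by
  rw [trlB, trlB, add_comm (half u), add_comm u]

private theorem trlB_nsmul (hA : Ax D) {u s : N} (hu : 2 • u = 0) (hs : 2 • s = 0) (n : ℕ) :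
    D.e (trlB (n • u) u) s = n * D.e u s := by
  rcases trl_par hu n with ⟨h1, h2⟩ | ⟨h1, h2⟩
  · rw [h1, h2, zero_mul, trlB, zero_add, trl_half0, zero_add, sub_self, trl_e0 hA hs]
  · rw [h1, h2, one_mul, trlB, ← two_nsmul u, hu, trl_half0, sub_zero, ← two_nsmul, trl_half hA]

private theorem trl_sum (c : ZMod 2) (k : ℕ) :
    ∑ i ∈ range (4 * k), (((i + 1 : ℕ) : ZMod 2)) * c = 0 := by
  induction k with
  | zero => rw [mul_zero, range_zero, sum_empty]
  | succ k ih =>
    rw [Nat.mul_succ, sum_range_succ, sum_range_succ, sum_range_succ, sum_range_succ, ih]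
    have h : (((4 * k + 1 : ℕ) : ZMod 2)) + (((4 * k + 1 + 1 : ℕ) : ZMod 2)) +
        (((4 * k + 2 + 1 : ℕ) : ZMod 2)) + (((4 * k + 3 + 1 : ℕ) : ZMod 2)) = 0 := by
      rw [← Nat.cast_add, ← Nat.cast_add, ← Nat.cast_add,
        show 4 * k + 1 + (4 * k + 1 + 1) + (4 * k + 2 + 1) + (4 * k + 3 + 1) = 2 * (8 * k + 5) by
          ring, Nat.cast_mul, show ((2 : ℕ) : ZMod 2) = 0 from rfl, zero_mul]
    linear_combination c * h

private theorem trl_iv_add (z z' : G → G → ZMod 2) (v : P) :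
    D.iv (fun g h => z g h + z' g h) v = D.iv z v + D.iv z' v := by
  rw [Dat.iv, Dat.iv, Dat.iv, sum_add_distrib]
  abel

end

theorem tTrl : S_Ivd → S_Msa → S_Trl := by
  intro hI hM G N P _ _ _ _ D hA χ hχ v a η R r s ha haτ haφ hη hr hs
  have hr4 : 4 • r = 0 := by
    rw [show (4 : ℕ) = 2 * 2 from rfl, mul_smul, hr, hs]
  obtain ⟨R₁, hR₁⟩ := hA.dvs R
  obtain ⟨lam, hlam⟩ : ∃ lam : G → N, ∀ g,
      lam g = half (η g) - (tw χ g R₁ - R₁ + half (a g)) := ⟨_, fun _ => rfl⟩
  have hlam2 : ∀ g, 2 • lam g = 0 := by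
    intro g
    rw [hlam, smul_sub, smul_add, smul_sub, ← tw_nsmul, hR₁, trl_half hA, trl_half hA, hη]
    abel
  obtain ⟨dd, hdd⟩ : ∃ dd : G → G → N, ∀ g h,
      dd g h = half (a g) + tw χ g (half (a h)) - half (a (g * h)) := ⟨_, fun _ _ => rfl⟩
  have hdd2 : ∀ g h, 2 • dd g h = 0 := by
    intro g h
    rw [hdd, smul_sub, smul_add, ← tw_nsmul, trl_half hA, trl_half hA, trl_half hA, ha g h]
    abel
  have hc : ∀ g h, half (η g) + tw χ g (half (η h)) - half (η (g * h)) =
      dd g h + (lam g + lam h + lam (g * h)) := by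
    intro g h
    have h1 : ∀ g, half (η g) = (tw χ g R₁ - R₁ + half (a g)) + lam g := fun g => by
      rw [hlam]; abel
    have h2 : lam (g * h) = - lam (g * h) := (trl_neg (hlam2 _)).symm
    rw [h1 g, h1 h, h1 (g * h), hdd, tw_add, tw_add, tw_sub, tw_two hA.tri (hlam2 h),
      tw_mul (hχ g h)]
    conv_rhs => rw [h2]
    abel
  have hz : ∀ g h, D.e (half (η g) + tw χ g (half (η h)) - half (η (g * h))) s =
      D.e (dd g h) s + (D.e (lam g) s + D.e (lam h) s - D.e (lam (g * h)) s) := by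
    intro g h
    have h3 : 2 • (lam g + lam h) = 0 := by rw [smul_add, hlam2, hlam2, add_zero]
    have h4 : 2 • (lam g + lam h + lam (g * h)) = 0 := by
      rw [smul_add, h3, hlam2, add_zero]
    rw [hc, hA.e_add _ _ _ (hdd2 g h) h4 hs, hA.e_add _ _ _ h3 (hlam2 _) hs,
      hA.e_add _ _ _ (hlam2 g) (hlam2 h) hs, CharTwo.sub_eq_add]
  have hfun : (fun g h => D.e (half (η g) + tw χ g (half (η h)) - half (η (g * h))) s) =
      fun g h => (fun g h => D.e (dd g h) s) g h +
        (fun σ τ => (fun g => D.e (lam g) s) σ + (fun g => D.e (lam g) s) τ -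
          (fun g => D.e (lam g) s) (σ * τ)) g h := by
    funext g h
    exact hz g h
  rw [hfun, trl_iv_add, hI D hA (fun g => D.e (lam g) s) v, add_zero]
  -- the main part
  have hdv : ∀ g h, 2 • a g = 0 → 2 • a h = 0 →
      D.e (dd g h) s = D.e (trlB (a g) (a h)) s + D.e (a h) (tw χ g r - r) := by
    intro g h hg hh
    have h5 : dd g h = trlB (a g) (a h) + (tw χ g (half (a h)) - half (a h)) := by
      rw [hdd, trlB, ha g h, tw_two hA.tri hh]
      abel
    have hh4 : 4 • half (a h) = 0 := by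
      rw [show (4 : ℕ) = 2 * 2 from rfl, mul_smul, trl_half hA, hh]
    obtain ⟨m1, -, -, m4⟩ := hM D hA χ g (half (a h)) r hh4 hr4
    rw [hr, trl_half hA] at m4
    rw [h5, hA.e_add _ _ _ (trlB_two hA _ _) m1 hs, m4]
  have hone : χ 1 = 0 := by
    have h := hχ 1 1
    rw [mul_one] at h
    exact left_eq_add.1 h
  have ha1 : a 1 = 0 := by
    have h := ha 1 1
    rw [mul_one, tw, hone, sg_zero', one_smul] at h
    exact left_eq_add.1 h
  have hapow : ∀ i : ℕ, a (D.tau v ^ i) = i • a (D.tau v) := by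
    intro i
    induction i with
    | zero => rw [pow_zero, ha1, zero_smul]
    | succ i ih => rw [pow_succ, ha, ih, tw_two hA.tri haτ, add_smul, one_smul]
  have hm1 : tw χ 1 r - r = 0 := by
    rw [tw, hone, sg_zero', one_smul, sub_self]
  have hmV : ∀ g, 2 • (tw χ g r - r) = 0 := fun g => (hM D hA χ g r r hr4 hr4).1
  have hmpow : ∀ i : ℕ, tw χ (D.tau v ^ i) r - r = i • (tw χ (D.tau v) r - r) := by
    intro i
    induction i with
    | zero => rw [pow_zero, hm1, zero_smul]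
    | succ i ih =>
      rw [pow_succ, (hM D hA χ (D.tau v ^ i) r r hr4 hr4).2.2.1 (D.tau v) (hχ _ _), ih, add_smul,
        one_smul]
  obtain ⟨k, hk⟩ : ∃ k, D.nq v = 4 * k + 1 := ⟨D.nq v / 4, by have := hA.q4 v; omega⟩
  have hq1 : ((D.nq v : ℕ) : ZMod 2) = 1 := by
    rw [hk, Nat.cast_add, show 4 * k = 2 * (2 * k) by ring, Nat.cast_mul,
      show ((2 : ℕ) : ZMod 2) = 0 from rfl, zero_mul, zero_add, Nat.cast_one]
  have hqs : ∀ x : N, 2 • x = 0 → D.nq v • x = x := by
    intro x hx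
    rcases trl_par hx (D.nq v) with ⟨h1, _⟩ | ⟨_, h2⟩
    · rw [hq1] at h1
      exact absurd h1 one_ne_zero
    · exact h2
  have haτi : ∀ i : ℕ, 2 • a (D.tau v ^ i) = 0 := fun i => by
    rw [hapow]; exact trl_two_nsmul haτ i
  have h6 : ∀ i : ℕ, D.e (dd (D.tau v ^ (i + 1)) (D.tau v)) s =
      ((i + 1 : ℕ) : ZMod 2) * (D.e (a (D.tau v)) s + D.e (a (D.tau v)) (tw χ (D.tau v) r - r)) := by
    intro i
    rw [hdv _ _ (haτi _) haτ, hapow, trlB_nsmul hA haτ hs, hmpow, trl_en hA haτ (hmV _)]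
    ring
  have h7 : D.e (dd (D.phi v) (D.tau v)) s =
      D.e (trlB (a (D.phi v)) (a (D.tau v))) s + D.e (a (D.tau v)) (tw χ (D.phi v) r - r) :=
    hdv _ _ haφ haτ
  have h8 : D.e (dd (D.tau v ^ D.nq v) (D.phi v)) s =
      D.e (trlB (a (D.phi v)) (a (D.tau v))) s + D.e (a (D.phi v)) (tw χ (D.tau v) r - r) := by
    rw [hdv _ _ (haτi _) haφ, hapow, hqs _ haτ, trlB_sym, hmpow, hqs _ (hmV _)]
  rw [Dat.iv]
  simp only [h6, h7, h8]
  rw [hk, Nat.add_sub_cancel, trl_sum, sub_zero, CharTwo.sub_eq_add]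
  have h9 := CharTwo.add_self_eq_zero (D.e (trlB (a (D.phi v)) (a (D.tau v))) s)
  linear_combination h9

end Pool.Agent.MP72S
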